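import Pool.Agent.Q276.ITM.Path

/-! 2-connected graphs without the diamond or the paw as induced topological minor. -/

namespace Pool.Agent.Q276.ITM

open Pool.Agent.H175R2 Classical

section
variable {V : Type} [Fintype V] {G : SimpleGraph V}

/-- walks avoiding a vertex -/
lemma TwoConn.walk (h : TwoConn G) (v : V) {x y : V} (hx : x ≠ v) (hy : y ≠ v) :
    ∃ (m : ℕ) (f : ℕ → V), (∀ i < m, G.Adj (f i) (f (i + 1)) ∧ f i ≠ v ∧ f (i + 1) ≠ v) ∧
      f 0 = x ∧ f m = y := by
  classical
  obtain ⟨m, f, h1, h2, h3⟩ := walk_of_cn (h.del v) (x := x) (y := y) (by simpa using hx)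
    (by simpa using hy)
  refine ⟨m, f, fun i hi => ?_, h2, h3⟩
  have := h1 i hi
  simpa using this

/-- a vertex with two non-adjacent neighbours and a third neighbour -/
lemma diamond_aux (h : TwoConn G) {v u w z : V} (hu : G.Adj v u) (hw : G.Adj v w)
    (hz : G.Adj v z) (huw : u ≠ w) (hnuw : ¬ G.Adj u w) (hzu : z ≠ u) (hzw : z ≠ w) :
    IsITM diamond G := by
  classical
  obtain ⟨m, q, hq1, ⟨hq0, hqm⟩, hq3, hq4, hq5⟩ := exists_min
    (fun x y => G.Adj x y ∧ x ≠ v ∧ y ≠ v) (fun a b => a = u ∧ b = w) (by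
      obtain ⟨m, f, h1, h2, h3⟩ := TwoConn.walk h v hu.ne.symm hw.ne.symm
      exact ⟨m, f, h1, h2, h3⟩)
  have hm2 : 2 ≤ m := by
    have : m ≠ 0 := by
      rintro rfl
      exact huw (hq0.symm.trans hqm)
    have : m ≠ 1 := by
      rintro rfl
      have := (hq1 0 (by omega)).1
      rw [hq0, show 0 + 1 = 1 from rfl, hqm] at this
      exact hnuw this
    omega
  have hqv : ∀ i ≤ m, q i ≠ v := by
    intro i hi
    by_cases hi' : i < m
    · exact (hq1 i hi').2.1
    · have : i = m := by omega
      rw [this, hqm]; exact hw.ne.symm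
  have hip : IP G q m := by
    refine ⟨fun i j hi hj heq => ?_, fun i j hi hj => ?_⟩
    · rcases Nat.lt_trichotomy i j with h1 | h1 | h1
      · exact absurd heq (hq3 i j h1 hj)
      · exact h1
      · exact absurd heq.symm (hq3 j i h1 hi)
    · constructor
      · intro hadj
        rcases Nat.lt_trichotomy i j with h1 | h1 | h1
        · left; exact (hq4 i j h1 hj ⟨hadj, hqv i hi, hqv j hj⟩).symm
        · subst h1; exact absurd rfl hadj.ne
        · right; exact (hq4 j i h1 hi ⟨hadj.symm, hqv j hj, hqv i hi⟩).symm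
      · rintro (rfl | rfl)
        · exact (hq1 i (by omega)).1
        · exact (hq1 j (by omega)).1.symm
  have hv0 : G.Adj v (q 0) := by rw [hq0]; exact hu
  have hvm : G.Adj v (q m) := by rw [hqm]; exact hw
  by_cases hint : ∃ i, 0 < i ∧ i < m ∧ G.Adj v (q i)
  · obtain ⟨i, hi0, him, hvi⟩ := hint
    exact fan hip hqv hi0 him le_rfl hv0 hvi hvm
  push Not at hint
  have hic : IC G v q m := by
    refine ⟨hip, hqv, fun i hi => ⟨fun hadj => ?_, ?_⟩⟩
    · by_contra hne
      exact hint i (by omega) (by omega) hadj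
    · rintro (rfl | rfl)
      · exact hv0
      · exact hvm
  have hzq : ∀ i ≤ m, z ≠ q i := by
    rintro i hi rfl
    rcases (hic.adjv i hi).1 hz with rfl | rfl
    · exact hzu hq0
    · exact hzw hqm
  -- path from `z` to the cycle
  obtain ⟨r, f, hf1, ⟨hf0, ⟨s, hs, hfs⟩⟩, hf3, hf4, hf5⟩ := exists_min
    (fun x y => G.Adj x y ∧ x ≠ v ∧ y ≠ v) (fun a b => a = z ∧ ∃ i ≤ m, b = q i) (by
      obtain ⟨m', f, h1, h2, h3⟩ := TwoConn.walk h v hz.ne.symm hu.ne.symm
      exact ⟨m', f, h1, h2, 0, by omega, by rw [h3, hq0]⟩)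
  have hr : 1 ≤ r := by
    have : r ≠ 0 := by
      rintro rfl
      exact hzq s hs (hf0.symm.trans hfs)
    omega
  have hfT : ∀ i < r, ∀ j ≤ m, f i ≠ q j := by
    intro i hi j hj heq
    have := hf5 i f (fun k hk => hf1 k (by omega)) ⟨hf0, j, hj, heq⟩
    omega
  have hfv : ∀ i < r, f i ≠ v := fun i hi => (hf1 i hi).2.1
  have hfN : ∀ i, i + 1 < r → ∀ j ≤ m, ¬ G.Adj (f i) (q j) := by
    intro i hi j hj hadj
    have := hf5 (i + 1) (fun k => if k ≤ i then f k else q j) (by
      intro k hk
      by_cases h1 : k + 1 ≤ i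
      · simp only [h1, if_true, show k ≤ i by omega]
        exact hf1 k (by omega)
      · have : k = i := by omega
        subst this
        simp only [le_refl, if_true, h1, if_false]
        exact ⟨hadj, hfv k (by omega), hqv j hj⟩) ⟨by simp [hf0], j, hj, by simp⟩
    omega
  -- the last neighbour of `v`
  obtain ⟨t, ht, hvt, htl⟩ : ∃ t < r, G.Adj v (f t) ∧ ∀ i, t < i → i < r → ¬ G.Adj v (f i) := by
    have hex : ∃ a, G.Adj v (f (r - 1 - a)) ∧ a < r := ⟨r - 1, by
      rw [show r - 1 - (r - 1) = 0 by omega, hf0]; exact hz, by omega⟩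
    refine ⟨r - 1 - Nat.find hex, by omega, (Nat.find_spec hex).1, fun b hb hbj hadj => ?_⟩
    have := Nat.find_min' hex (m := r - 1 - b) ⟨by
      rw [show r - 1 - (r - 1 - b) = b by omega]; exact hadj, by omega⟩
    have := (Nat.find_spec hex).2
    omega
  have hys : G.Adj (f (r - 1)) (q s) := by
    have := (hf1 (r - 1) (by omega)).1
    rw [show r - 1 + 1 = r by omega, hfs] at this
    exact this
  by_cases h2 : ∃ j ≤ m, j ≠ s ∧ G.Adj (f (r - 1)) (q j)
  · obtain ⟨j, hj, hjs, hyj⟩ := h2
    exact two_nbrs hic hm2 (hfv _ (by omega)) (fun i hi => hfT _ (by omega) i hi)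
      (a := q j) (b := q s) (Or.inr ⟨j, hj, rfl⟩) (Or.inr ⟨s, hs, rfl⟩)
      (fun heq => hjs (hip.inj _ _ hj hs heq)) hyj hys
  push Not at h2
  refine ear hic (by omega) hs (f := fun a => f (t + a)) (L := r - t) (by omega) ?_ ?_ ?_ ?_ ?_ ?_
  · intro i hi; exact hfv _ (by omega)
  · intro i hi j hj; exact hfT _ (by omega) j hj
  · intro i hi j hj heq
    rcases Nat.lt_trichotomy i j with h1 | h1 | h1
    · exact absurd heq (hf3 _ _ (by omega) (by omega))
    · exact h1
    · exact absurd heq.symm (hf3 _ _ (by omega) (by omega))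
  · intro i hi j hj
    constructor
    · intro hadj
      rcases Nat.lt_trichotomy i j with h1 | h1 | h1
      · left
        have := hf4 (t + i) (t + j) (by omega) (by omega) ⟨hadj, hfv _ (by omega), hfv _ (by omega)⟩
        omega
      · subst h1; exact absurd rfl hadj.ne
      · right
        have := hf4 (t + j) (t + i) (by omega) (by omega)
          ⟨hadj.symm, hfv _ (by omega), hfv _ (by omega)⟩
        omega
    · rintro (rfl | rfl)
      · exact (hf1 (t + i) (by omega)).1
      · exact (hf1 (t + j) (by omega)).1.symm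
  · intro i hi
    constructor
    · intro hadj
      by_contra hne
      exact htl (t + i) (by omega) (by omega) hadj
    · rintro rfl; exact hvt
  · intro i hi j hj
    constructor
    · intro hadj
      by_cases hi' : t + i + 1 < r
      · exact absurd hadj.symm (hfN _ hi' j hj)
      · have e : t + i = r - 1 := by omega
        refine ⟨by omega, ?_⟩
        by_contra hne
        simp only [e] at hadj
        exact h2 j hj hne hadj.symm
    · rintro ⟨h1, rfl⟩
      have e : t + i = r - 1 := by omega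
      simp only [e]
      exact hys.symm

/-- bounded degree or cograph -/
def Nice (G : SimpleGraph V) : Prop :=
  (∀ x, ((Finset.univ : Finset V).filter (fun y => G.Adj x y)).card ≤ 2) ∨ P4Free G Finset.univ

lemma three_of_card {x : V} (h : ¬ ((Finset.univ : Finset V).filter (fun y => G.Adj x y)).card ≤ 2) :
    ∃ a b c, G.Adj x a ∧ G.Adj x b ∧ G.Adj x c ∧ a ≠ b ∧ a ≠ c ∧ b ≠ c := by
  classical
  have : 2 < ((Finset.univ : Finset V).filter (fun y => G.Adj x y)).card := by omega
  rw [Finset.two_lt_card] at this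
  obtain ⟨a, ha, b, hb, c, hc, h1, h2, h3⟩ := this
  simp only [Finset.mem_filter, Finset.mem_univ, true_and] at ha hb hc
  exact ⟨a, b, c, ha, hb, hc, h1, h2, h3⟩

theorem diamond_nice (h : TwoConn G) (hno : ¬ IsITM diamond G) : Nice G := by
  classical
  by_cases hdeg : ∀ x, ((Finset.univ : Finset V).filter (fun y => G.Adj x y)).card ≤ 2
  · exact Or.inl hdeg
  right
  push Not at hdeg
  obtain ⟨v0, hv0⟩ := hdeg
  obtain ⟨a0, b0, c0, ha0, hb0, hc0, hab0, hac0, hbc0⟩ := three_of_card (G := G) (x := v0) (by omega)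
  -- neighbourhoods of vertices of degree at least three are cliques
  have hcl : ∀ v a b c : V, G.Adj v a → G.Adj v b → G.Adj v c → a ≠ b → a ≠ c → b ≠ c →
      ∀ u w, G.Adj v u → G.Adj v w → u ≠ w → G.Adj u w := by
    intro v a b c ha hb hc hab hac hbc u w hu hw huw
    by_contra hn
    have : ∃ z, G.Adj v z ∧ z ≠ u ∧ z ≠ w := by
      by_cases h1 : a = u ∨ a = w
      · by_cases h2 : b = u ∨ b = w
        · refine ⟨c, hc, ?_, ?_⟩
          · rintro rfl
            rcases h1 with rfl | rfl
            · exact hac rfl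
            · rcases h2 with rfl | rfl
              · exact hbc rfl
              · exact hab rfl
          · rintro rfl
            rcases h1 with rfl | rfl
            · rcases h2 with rfl | rfl
              · exact hab rfl
              · exact hbc rfl
            · exact hac rfl
        · exact ⟨b, hb, fun h => h2 (Or.inl h), fun h => h2 (Or.inr h)⟩
      · exact ⟨a, ha, fun h => h1 (Or.inl h), fun h => h1 (Or.inr h)⟩
    obtain ⟨z, hz, hzu, hzw⟩ := this
    exact hno (diamond_aux h hu hw hz huw hn hzu hzw)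
  have hall : ∀ x, x = v0 ∨ G.Adj v0 x := by
    by_contra hcon
    push Not at hcon
    obtain ⟨x, hx1, hx2⟩ := hcon
    obtain ⟨u, hu, w, hw, huw⟩ := h.conn.2 (Finset.univ.filter (fun x => x = v0 ∨ G.Adj v0 x))
      (Finset.subset_univ _) ⟨v0, by simp⟩ ⟨x, by simp [hx1, hx2]⟩
    simp only [Finset.mem_filter, Finset.mem_univ, true_and, Finset.mem_sdiff, not_or] at hu hw
    rcases hu with rfl | hu
    · exact hw.2 huw
    · -- `u` has three neighbours
      have hclv := hcl v0 a0 b0 c0 ha0 hb0 hc0 hab0 hac0 hbc0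
      -- two neighbours of `v0` other than `u`
      have : ∃ p p', G.Adj v0 p ∧ G.Adj v0 p' ∧ p ≠ p' ∧ p ≠ u ∧ p' ≠ u := by
        by_cases h1 : a0 = u
        · subst h1; exact ⟨b0, c0, hb0, hc0, hbc0, hab0.symm, hac0.symm⟩
        · by_cases h2 : b0 = u
          · subst h2; exact ⟨a0, c0, ha0, hc0, hac0, h1, hbc0.symm⟩
          · exact ⟨a0, b0, ha0, hb0, hab0, h1, h2⟩
      obtain ⟨p, p', hp, hp', hpp, hpu, hpu'⟩ := this
      have hup := hclv u p hu hp hpu.symm
      have hup' := hclv u p' hu hp' hpu'.symm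
      exact hw.2 ((hcl u v0 p p' hu.symm hup hup' hp.ne hp'.ne hpp v0 w hu.symm huw
        (Ne.symm hw.1)))
  have hcomplete : ∀ x y, x ≠ y → G.Adj x y := by
    intro x y hxy
    rcases hall x with rfl | hx
    · exact (hall y).resolve_left (Ne.symm hxy)
    · rcases hall y with rfl | hy
      · exact hx.symm
      · exact hcl v0 a0 b0 c0 ha0 hb0 hc0 hab0 hac0 hbc0 x y hx hy hxy
  intro a _ b _ c _ d _ hac had hbd _ _ _
  exact Or.inl (hcomplete a c hac)

/-! ### the paw -/

omit [Fintype V] in
/-- no induced paw -/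
lemma no_paw (hno : ¬ IsITM paw G) {a b c x : V} (hab : G.Adj a b) (hac : G.Adj a c)
    (hbc : G.Adj b c) (hxa : G.Adj x a) (hxb : x ≠ b) (hxc : x ≠ c) : G.Adj x b ∨ G.Adj x c := by
  by_contra hcon
  push Not at hcon
  apply hno
  have : Pw G a x (fun i => if i = 0 then b else c) 1 := by
    refine ⟨?_, ?_, ?_, ?_, ?_, ?_, hxa.symm⟩
    · intro i _
      by_cases h : i = 0
      · simp [h, hab.ne.symm]
      · simp [h, hac.ne.symm]
    · intro i _
      by_cases h : i = 0
      · simp [h, hxb.symm]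
      · simp [h, hxc.symm]
    · intro i j hi hj heq
      have hi' : i = 0 ∨ i = 1 := by omega
      have hj' : j = 0 ∨ j = 1 := by omega
      rcases hi' with rfl | rfl <;> rcases hj' with rfl | rfl <;>
        simp [hbc.ne, hbc.ne.symm] at heq ⊢
    · intro i j hi hj
      have hi' : i = 0 ∨ i = 1 := by omega
      have hj' : j = 0 ∨ j = 1 := by omega
      rcases hi' with rfl | rfl <;> rcases hj' with rfl | rfl <;> simp [hbc, hbc.symm]
    · intro i hi
      have hi' : i = 0 ∨ i = 1 := by omega
      rcases hi' with rfl | rfl <;> simp [hab, hac]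
    · intro i hi
      have hi' : i = 0 ∨ i = 1 := by omega
      rcases hi' with rfl | rfl <;> simp [hcon.1, hcon.2]
  exact this.itm le_rfl

/-- with a triangle: complete multipartite -/
lemma paw_triangle (h : TwoConn G) (hno : ¬ IsITM paw G) {a b c : V} (hab : G.Adj a b)
    (hac : G.Adj a c) (hbc : G.Adj b c) : P4Free G Finset.univ := by
  classical
  -- every vertex is in a triangle
  have h1 : ∀ x, ∃ y z, G.Adj x y ∧ G.Adj x z ∧ G.Adj y z := by
    by_contra hcon
    push Not at hcon
    obtain ⟨x, hx⟩ := hcon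
    obtain ⟨u, hu, w, hw, huw⟩ := h.conn.2
      (Finset.univ.filter (fun x => ∃ y z, G.Adj x y ∧ G.Adj x z ∧ G.Adj y z))
      (Finset.subset_univ _) ⟨a, by simp only [Finset.mem_filter, Finset.mem_univ, true_and]; exact ⟨b, c, hab, hac, hbc⟩⟩ ⟨x, by
        simp only [Finset.mem_filter, Finset.mem_univ, true_and, Finset.mem_sdiff]
        rintro ⟨y, z, h1, h2, h3⟩
        exact hx y z h1 h2 h3⟩
    simp only [Finset.mem_filter, Finset.mem_univ, true_and, Finset.mem_sdiff] at hu hw
    obtain ⟨y, z, huy, huz, hyz⟩ := hu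
    apply hw
    by_cases hwy : w = y
    · subst hwy; exact ⟨u, z, huw.symm, hyz, huz⟩
    · by_cases hwz : w = z
      · subst hwz; exact ⟨u, y, huw.symm, hyz.symm, huy⟩
      · rcases no_paw hno huy huz hyz huw.symm hwy hwz with h' | h'
        · exact ⟨u, y, huw.symm, h', huy⟩
        · exact ⟨u, z, huw.symm, h', huz⟩
  -- every vertex is in or has two neighbours in every triangle
  have h2 : ∀ a b c : V, G.Adj a b → G.Adj a c → G.Adj b c → ∀ x, x = a ∨ x = b ∨ x = c ∨
      G.Adj x a ∨ G.Adj x b ∨ G.Adj x c := by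
    intro a b c hab hac hbc
    by_contra hcon
    push Not at hcon
    obtain ⟨x, hx1, hx2, hx3, hx4, hx5, hx6⟩ := hcon
    obtain ⟨u, hu, w, hw, huw⟩ := h.conn.2
      (Finset.univ.filter (fun x => x = a ∨ x = b ∨ x = c ∨ G.Adj x a ∨ G.Adj x b ∨ G.Adj x c))
      (Finset.subset_univ _) ⟨a, by simp⟩ ⟨x, by simp [hx1, hx2, hx3, hx4, hx5, hx6]⟩
    simp only [Finset.mem_filter, Finset.mem_univ, true_and, Finset.mem_sdiff, not_or] at hu hw
    obtain ⟨w1, w2, w3, w4, w5, w6⟩ := hw
    have key : ∀ p q : V, G.Adj p q → G.Adj u p → G.Adj u q → w ≠ p → w ≠ q → ¬ G.Adj w p →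
        ¬ G.Adj w q → False := by
      intro p q hpq hup huq hwp hwq nwp nwq
      rcases no_paw hno hup huq hpq huw.symm hwp hwq with h' | h'
      · exact nwp h'
      · exact nwq h'
    rcases hu with rfl | rfl | rfl | hu | hu | hu
    · exact w4 huw.symm
    · exact w5 huw.symm
    · exact w6 huw.symm
    · by_cases hub : u = b
      · subst hub; exact w5 huw.symm
      by_cases huc : u = c
      · subst huc; exact w6 huw.symm
      rcases no_paw hno hab hac hbc hu hub huc with h' | h'
      · exact key a b hab hu h' w1 w2 w4 w5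
      · exact key a c hac hu h' w1 w3 w4 w6
    · by_cases hua : u = a
      · subst hua; exact w4 huw.symm
      by_cases huc : u = c
      · subst huc; exact w6 huw.symm
      rcases no_paw hno hab.symm hbc hac hu hua huc with h' | h'
      · exact key b a hab.symm hu h' w2 w1 w5 w4
      · exact key b c hbc hu h' w2 w3 w5 w6
    · by_cases hua : u = a
      · subst hua; exact w4 huw.symm
      by_cases hub : u = b
      · subst hub; exact w5 huw.symm
      rcases no_paw hno hac.symm hbc.symm hab hu hua hub with h' | h'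
      · exact key c a hac.symm hu h' w3 w1 w6 w4
      · exact key c b hbc.symm hu h' w3 w2 w6 w5
  have h3 : ∀ x y z, G.Adj y z → x ≠ y → x ≠ z → G.Adj x y ∨ G.Adj x z := by
    intro x y z hyz hxy hxz
    -- the edge `yz` is in a triangle
    obtain ⟨t, hyt, hzt⟩ : ∃ t, G.Adj y t ∧ G.Adj z t := by
      obtain ⟨p, q, hp, hq, hpq⟩ := h1 y
      by_cases hzp : z = p
      · subst hzp; exact ⟨q, hq, hpq⟩
      · by_cases hzq : z = q
        · subst hzq; exact ⟨p, hp, hpq.symm⟩
        · rcases no_paw hno hp hq hpq hyz.symm hzp hzq with h' | h'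
          · exact ⟨p, hp, h'⟩
          · exact ⟨q, hq, h'⟩
    by_cases hxt : x = t
    · subst hxt; exact Or.inl hyt.symm
    rcases h2 y z t hyz hyt hzt x with h' | h' | h' | h' | h' | h'
    · exact absurd h' hxy
    · exact absurd h' hxz
    · exact absurd h' hxt
    · exact Or.inl h'
    · exact Or.inr h'
    · exact no_paw hno hyt.symm hzt.symm hyz h' hxy hxz
  intro a _ b _ c _ d _ hac had _ _ _ hcd
  rcases h3 a c d hcd hac had with h' | h'
  · exact Or.inl h'
  · exact Or.inr (Or.inl h')

omit [Fintype V] in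
/-- in a triangle-free graph a four-cycle `a b c d` with a vertex attached to `a` only -/
lemma four_pend (hno : ¬ IsITM paw G) {a b c d x : V} (hab : G.Adj a b) (hbc : G.Adj b c)
    (hcd : G.Adj c d) (hda : G.Adj d a) (hac : a ≠ c) (hbd : b ≠ d) (nac : ¬ G.Adj a c)
    (nbd : ¬ G.Adj b d) (hxa : G.Adj x a) (nxb : ¬ G.Adj x b) (nxd : ¬ G.Adj x d) (hxb : x ≠ b)
    (hxd : x ≠ d) (hxc : x ≠ c) : G.Adj x c := by
  by_contra hcon
  apply hno
  have nca : ¬ G.Adj c a := fun h => nac h.symm
  have ndb : ¬ G.Adj d b := fun h => nbd h.symm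
  have : Pw G a x (fun i => if i = 0 then b else if i = 1 then c else d) 2 := by
    refine ⟨?_, ?_, ?_, ?_, ?_, ?_, hxa.symm⟩
    · intro i hi
      have hi' : i = 0 ∨ i = 1 ∨ i = 2 := by omega
      rcases hi' with rfl | rfl | rfl <;> simp [hab.ne.symm, hac.symm, hda.ne]
    · intro i hi
      have hi' : i = 0 ∨ i = 1 ∨ i = 2 := by omega
      rcases hi' with rfl | rfl | rfl <;> simp [hxb.symm, hxc.symm, hxd.symm]
    · intro i j hi hj heq
      have hi' : i = 0 ∨ i = 1 ∨ i = 2 := by omega
      have hj' : j = 0 ∨ j = 1 ∨ j = 2 := by omega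
      rcases hi' with rfl | rfl | rfl <;> rcases hj' with rfl | rfl | rfl <;>
        simp [hbc.ne, hbc.ne.symm, hcd.ne, hcd.ne.symm, hbd, hbd.symm] at heq ⊢
    · intro i j hi hj
      have hi' : i = 0 ∨ i = 1 ∨ i = 2 := by omega
      have hj' : j = 0 ∨ j = 1 ∨ j = 2 := by omega
      rcases hi' with rfl | rfl | rfl <;> rcases hj' with rfl | rfl | rfl <;>
        simp [hbc, hbc.symm, hcd, hcd.symm, nbd, ndb]
    · intro i hi
      have hi' : i = 0 ∨ i = 1 ∨ i = 2 := by omega
      rcases hi' with rfl | rfl | rfl <;> simp [hab, nac, hda.symm]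
    · intro i hi
      have hi' : i = 0 ∨ i = 1 ∨ i = 2 := by omega
      rcases hi' with rfl | rfl | rfl <;> simp [nxb, hcon, nxd]
  exact this.itm (by omega)

/-- triangle-free case -/
lemma paw_trifree (h : TwoConn G) (hno : ¬ IsITM paw G)
    (htf : ∀ a b c : V, G.Adj a b → G.Adj a c → G.Adj b c → False) {v a b c : V} (hva : G.Adj v a)
    (hvb : G.Adj v b) (hvc : G.Adj v c) (hab : a ≠ b) (hac : a ≠ c) (hbc : b ≠ c) :
    P4Free G Finset.univ := by
  classical
  obtain ⟨m, q, hq1, ⟨hq0, hqm, hqq⟩, hq3, hq4, hq5⟩ := exists_min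
    (fun x y => G.Adj x y ∧ x ≠ v ∧ y ≠ v) (fun s t => G.Adj v s ∧ G.Adj v t ∧ s ≠ t) (by
      obtain ⟨m, f, h1, h2, h3⟩ := TwoConn.walk h v hva.ne.symm hvb.ne.symm
      exact ⟨m, f, h1, by rw [h2]; exact hva, by rw [h3]; exact hvb, by rw [h2, h3]; exact hab⟩)
  have hm2 : 2 ≤ m := by
    have : m ≠ 0 := by
      rintro rfl
      exact hqq rfl
    have : m ≠ 1 := by
      rintro rfl
      exact htf v _ _ hq0 hqm (hq1 0 (by omega)).1
    omega
  have hqv : ∀ i ≤ m, q i ≠ v := by
    intro i hi
    by_cases hi' : i < m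
    · exact (hq1 i hi').2.1
    · have : i = m := by omega
      rw [this]; exact hqm.ne.symm
  have hint : ∀ i, 0 < i → i < m → ¬ G.Adj v (q i) := by
    intro i hi0 him hadj
    by_cases heq : q i = q 0
    · exact hq3 0 i hi0 (by omega) heq.symm
    · have := hq5 i q (fun k hk => hq1 k (by omega)) ⟨hq0, hadj, Ne.symm heq⟩
      omega
  -- a third neighbour
  obtain ⟨z, hz, hz0, hzm⟩ : ∃ z, G.Adj v z ∧ z ≠ q 0 ∧ z ≠ q m := by
    by_cases h1 : a = q 0 ∨ a = q m
    · by_cases h2 : b = q 0 ∨ b = q m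
      · refine ⟨c, hvc, ?_, ?_⟩
        · rintro rfl
          rcases h1 with rfl | rfl
          · exact hac rfl
          · rcases h2 with rfl | rfl
            · exact hbc rfl
            · exact hab rfl
        · rintro rfl
          rcases h1 with rfl | rfl
          · rcases h2 with rfl | rfl
            · exact hab rfl
            · exact hbc rfl
          · exact hac rfl
      · exact ⟨b, hvb, fun h => h2 (Or.inl h), fun h => h2 (Or.inr h)⟩
    · exact ⟨a, hva, fun h => h1 (Or.inl h), fun h => h1 (Or.inr h)⟩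
  have hzq : ∀ i ≤ m, z ≠ q i := by
    rintro i hi rfl
    by_cases h1 : i = 0
    · subst h1; exact hz0 rfl
    · by_cases h2 : i = m
      · subst h2; exact hzm rfl
      · exact hint i (by omega) (by omega) hz
  obtain ⟨s, hs, hzs⟩ : ∃ s ≤ m, G.Adj z (q s) := by
    by_contra hcon
    push Not at hcon
    apply hno
    have : Pw G v z q m := by
      refine ⟨hqv, fun i hi => (hzq i hi).symm, fun i j hi hj heq => ?_, fun i j hi hj => ?_,
        fun i hi => ⟨fun hadj => ?_, ?_⟩, hcon, hz⟩
      · rcases Nat.lt_trichotomy i j with h1 | h1 | h1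
        · exact absurd heq (hq3 i j h1 hj)
        · exact h1
        · exact absurd heq.symm (hq3 j i h1 hi)
      · constructor
        · intro hadj
          rcases Nat.lt_trichotomy i j with h1 | h1 | h1
          · left; exact (hq4 i j h1 hj ⟨hadj, hqv i hi, hqv j hj⟩).symm
          · subst h1; exact absurd rfl hadj.ne
          · right; exact (hq4 j i h1 hi ⟨hadj.symm, hqv j hj, hqv i hi⟩).symm
        · rintro (rfl | rfl)
          · exact (hq1 i (by omega)).1
          · exact (hq1 j (by omega)).1.symm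
      · by_contra hne
        exact hint i (by omega) (by omega) hadj
      · rintro (rfl | rfl)
        · exact hq0
        · exact hqm
    exact this.itm (by omega)
  have hzv : z ≠ v := hz.ne.symm
  have hs1 : m ≤ s + 1 := by
    apply hq5 (s + 1) (fun k => if k ≤ s then q k else z)
    · intro k hk
      by_cases h1 : k + 1 ≤ s
      · simp only [h1, if_true, show k ≤ s by omega]
        exact hq1 k (by omega)
      · have : k = s := by omega
        subst this
        simp only [le_refl, if_true, h1, if_false]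
        exact ⟨hzs.symm, hqv k hs, hzv⟩
    · simp only [Nat.zero_le, if_true, show ¬ s + 1 ≤ s by omega, if_false]
      exact ⟨hq0, hz, hz0.symm⟩
  have hs2 : m ≤ m - s + 1 := by
    apply hq5 (m - s + 1) (fun k => if k = 0 then z else q (s + k - 1))
    · intro k hk
      by_cases h1 : k = 0
      · subst h1
        simp only [if_true, show ¬ 0 + 1 = 0 by omega, if_false, show s + (0 + 1) - 1 = s by omega]
        exact ⟨hzs, hzv, hqv s hs⟩
      · simp only [h1, if_false, show ¬ k + 1 = 0 by omega]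
        rw [show s + (k + 1) - 1 = s + k - 1 + 1 by omega]
        exact hq1 _ (by omega)
    · simp only [if_true, show ¬ m - s + 1 = 0 by omega, if_false,
        show s + (m - s + 1) - 1 = m by omega]
      exact ⟨hz, hqm, hzm⟩
  have hm : m = 2 := by omega
  subst hm
  have hs' : s = 1 := by omega
  subst hs'
  -- the four-cycle `v, q 0, q 1, q 2`
  have e1 : G.Adj (q 0) (q 1) := (hq1 0 (by omega)).1
  have e2 : G.Adj (q 1) (q 2) := (hq1 1 (by omega)).1
  -- in a four-cycle opposite vertices have the same neighbours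
  have four : ∀ a b c d : V, G.Adj a b → G.Adj b c → G.Adj c d → G.Adj d a → a ≠ c → b ≠ d →
      ∀ x, G.Adj x a → G.Adj x c := by
    intro a b c d hab hbc hcd hda hac hbd x hxa
    by_cases hxb : x = b
    · subst hxb; exact hbc
    by_cases hxd : x = d
    · subst hxd; exact hcd.symm
    have hxc : x ≠ c := by
      rintro rfl
      exact htf a b x hab hxa.symm hbc
    exact four_pend hno hab hbc hcd hda hac hbd (fun h' => htf a b c hab h' hbc)
      (fun h' => htf a b d hab hda.symm h') hxa (fun h' => htf x a b hxa h' hab)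
      (fun h' => htf x a d hxa h' hda.symm) hxb hxd hxc
  have v1 : v ≠ q 1 := (hqv 1 (by omega)).symm
  have q02 : q 0 ≠ q 2 := hqq
  -- every neighbour of `q 0` has the neighbours of `v`
  have hA : ∀ x, G.Adj x (q 0) → ∀ y, G.Adj y x ↔ G.Adj y v := by
    intro x hx y
    by_cases hxv : x = v
    · subst hxv; exact Iff.rfl
    have hx2 : G.Adj x (q 2) := four (q 0) (q 1) (q 2) v e1 e2 hqm.symm hq0 q02 (Ne.symm v1) x hx
    constructor
    · intro hy
      exact four x (q 0) v (q 2) hx hq0.symm hqm hx2.symm hxv q02 y hy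
    · intro hy
      exact four v (q 0) x (q 2) hq0 hx.symm hx2 hqm.symm (Ne.symm hxv) q02 y hy
  have hB : ∀ x, G.Adj x v → ∀ y, G.Adj y x ↔ G.Adj y (q 0) := by
    intro x hx y
    by_cases hx0 : x = q 0
    · subst hx0; exact Iff.rfl
    have hx1 : G.Adj x (q 1) := four v (q 0) (q 1) (q 2) hq0 e1 e2 hqm.symm v1 q02 x hx
    constructor
    · intro hy
      exact four x v (q 0) (q 1) hx hq0 e1 hx1.symm hx0 v1 y hy
    · intro hy
      exact four (q 0) v x (q 1) hq0.symm hx.symm hx1 e1.symm (Ne.symm hx0) v1 y hy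
  have hall : ∀ x, G.Adj x (q 0) ∨ G.Adj x v := by
    by_contra hcon
    push Not at hcon
    obtain ⟨x, hx1, hx2⟩ := hcon
    obtain ⟨u, hu, w, hw, huw⟩ := h.conn.2 (Finset.univ.filter (fun x => G.Adj x (q 0) ∨ G.Adj x v))
      (Finset.subset_univ _) ⟨q 0, by simp [hq0.symm]⟩ ⟨x, by simp [hx1, hx2]⟩
    simp only [Finset.mem_filter, Finset.mem_univ, true_and, Finset.mem_sdiff, not_or] at hu hw
    rcases hu with hu | hu
    · exact hw.2 ((hA u hu w).1 huw.symm)
    · exact hw.1 ((hB u hu w).1 huw.symm)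
  intro a _ b _ c _ d _ _ _ _ hab' hbc' hcd'
  right; left
  rcases hall a with ha | ha
  · have hb := (hA a ha b).1 hab'.symm
    have hc := (hB b hb c).1 hbc'.symm
    have hd := (hA c hc d).1 hcd'.symm
    exact ((hA a ha d).2 hd).symm
  · have hb := (hB a ha b).1 hab'.symm
    have hc := (hA b hb c).1 hbc'.symm
    have hd := (hB c hc d).1 hcd'.symm
    exact ((hB a ha d).2 hd).symm

theorem paw_nice (h : TwoConn G) (hno : ¬ IsITM paw G) : Nice G := by
  classical
  by_cases hdeg : ∀ x, ((Finset.univ : Finset V).filter (fun y => G.Adj x y)).card ≤ 2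
  · exact Or.inl hdeg
  right
  by_cases ht : ∃ a b c : V, G.Adj a b ∧ G.Adj a c ∧ G.Adj b c
  · obtain ⟨a, b, c, h1, h2, h3⟩ := ht
    exact paw_triangle h hno h1 h2 h3
  · push Not at ht hdeg
    obtain ⟨v0, hv0⟩ := hdeg
    obtain ⟨a0, b0, c0, ha0, hb0, hc0, hab0, hac0, hbc0⟩ := three_of_card (G := G) (x := v0) (by omega)
    exact paw_trifree h hno (fun a b c h1 h2 h3 => ht a b c h1 h2 h3) ha0 hb0 hc0 hab0 hac0 hbc0

end

end Pool.Agent.Q276.ITM
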