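import Pool.Agent.Q276.ITM.Inv

/-! Graphs on four and five vertices. -/

namespace Pool.Agent.Q276.ITM

set_option maxRecDepth 100000

theorem chk5 : ∀ a01 a02 a03 a04 a12 a13 a14 a23 a24 a34 : Bool,
    ((!a01 && !a02 && !a12) ||
     (!a01 && !a03 && !a13) ||
     (!a01 && !a04 && !a14) ||
     (!a02 && !a03 && !a23) ||
     (!a02 && !a04 && !a24) ||
     (!a03 && !a04 && !a34) ||
     (!a12 && !a13 && !a23) ||
     (!a12 && !a14 && !a24) ||
     (!a13 && !a14 && !a34) ||
     (!a23 && !a24 && !a34) ||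
     (a01 && a02 && a03 && a12 && a13 && a23) ||
     (a01 && a12 && a23 && a03 && !a02 && !a13) ||
     (a02 && a12 && a13 && a03 && !a01 && !a23) ||
     (a01 && a13 && a23 && a02 && !a03 && !a12) ||
     (a01 && a23 && !a02 && !a03 && !a12 && !a13) ||
     (a02 && a13 && !a01 && !a03 && !a12 && !a23) ||
     (a03 && a12 && !a01 && !a02 && !a13 && !a23) ||
     (a12 && a13 && a23 && !a01 && !a02 && !a03) ||
     (a02 && a03 && a23 && !a01 && !a12 && !a13) ||
     (a01 && a03 && a13 && !a02 && !a12 && !a23) ||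
     (a01 && a02 && a12 && !a03 && !a13 && !a23) ||
     (a01 && a02 && a04 && a12 && a14 && a24) ||
     (a01 && a12 && a24 && a04 && !a02 && !a14) ||
     (a02 && a12 && a14 && a04 && !a01 && !a24) ||
     (a01 && a14 && a24 && a02 && !a04 && !a12) ||
     (a01 && a24 && !a02 && !a04 && !a12 && !a14) ||
     (a02 && a14 && !a01 && !a04 && !a12 && !a24) ||
     (a04 && a12 && !a01 && !a02 && !a14 && !a24) ||
     (a12 && a14 && a24 && !a01 && !a02 && !a04) ||
     (a02 && a04 && a24 && !a01 && !a12 && !a14) ||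
     (a01 && a04 && a14 && !a02 && !a12 && !a24) ||
     (a01 && a02 && a12 && !a04 && !a14 && !a24) ||
     (a01 && a03 && a04 && a13 && a14 && a34) ||
     (a01 && a13 && a34 && a04 && !a03 && !a14) ||
     (a03 && a13 && a14 && a04 && !a01 && !a34) ||
     (a01 && a14 && a34 && a03 && !a04 && !a13) ||
     (a01 && a34 && !a03 && !a04 && !a13 && !a14) ||
     (a03 && a14 && !a01 && !a04 && !a13 && !a34) ||
     (a04 && a13 && !a01 && !a03 && !a14 && !a34) ||
     (a13 && a14 && a34 && !a01 && !a03 && !a04) ||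
     (a03 && a04 && a34 && !a01 && !a13 && !a14) ||
     (a01 && a04 && a14 && !a03 && !a13 && !a34) ||
     (a01 && a03 && a13 && !a04 && !a14 && !a34) ||
     (a02 && a03 && a04 && a23 && a24 && a34) ||
     (a02 && a23 && a34 && a04 && !a03 && !a24) ||
     (a03 && a23 && a24 && a04 && !a02 && !a34) ||
     (a02 && a24 && a34 && a03 && !a04 && !a23) ||
     (a02 && a34 && !a03 && !a04 && !a23 && !a24) ||
     (a03 && a24 && !a02 && !a04 && !a23 && !a34) ||
     (a04 && a23 && !a02 && !a03 && !a24 && !a34) ||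
     (a23 && a24 && a34 && !a02 && !a03 && !a04) ||
     (a03 && a04 && a34 && !a02 && !a23 && !a24) ||
     (a02 && a04 && a24 && !a03 && !a23 && !a34) ||
     (a02 && a03 && a23 && !a04 && !a24 && !a34) ||
     (a12 && a13 && a14 && a23 && a24 && a34) ||
     (a12 && a23 && a34 && a14 && !a13 && !a24) ||
     (a13 && a23 && a24 && a14 && !a12 && !a34) ||
     (a12 && a24 && a34 && a13 && !a14 && !a23) ||
     (a12 && a34 && !a13 && !a14 && !a23 && !a24) ||
     (a13 && a24 && !a12 && !a14 && !a23 && !a34) ||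
     (a14 && a23 && !a12 && !a13 && !a24 && !a34) ||
     (a23 && a24 && a34 && !a12 && !a13 && !a14) ||
     (a13 && a14 && a34 && !a12 && !a23 && !a24) ||
     (a12 && a14 && a24 && !a13 && !a23 && !a34) ||
     (a12 && a13 && a23 && !a14 && !a24 && !a34) ||
     (a01 && a12 && a23 && a34 && a04 && !a02 && !a13 && !a24 && !a03 && !a14) ||
     (a01 && a12 && a24 && a34 && a03 && !a02 && !a14 && !a23 && !a04 && !a13) ||
     (a01 && a13 && a23 && a24 && a04 && !a03 && !a12 && !a34 && !a02 && !a14) ||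
     (a01 && a13 && a34 && a24 && a02 && !a03 && !a14 && !a23 && !a04 && !a12) ||
     (a01 && a14 && a24 && a23 && a03 && !a04 && !a12 && !a34 && !a02 && !a13) ||
     (a01 && a14 && a34 && a23 && a02 && !a04 && !a13 && !a24 && !a03 && !a12) ||
     (a02 && a12 && a13 && a34 && a04 && !a01 && !a23 && !a14 && !a03 && !a24) ||
     (a02 && a12 && a14 && a34 && a03 && !a01 && !a24 && !a13 && !a04 && !a23) ||
     (a02 && a23 && a13 && a14 && a04 && !a03 && !a12 && !a34 && !a01 && !a24) ||
     (a02 && a24 && a14 && a13 && a03 && !a04 && !a12 && !a34 && !a01 && !a23) ||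
     (a03 && a13 && a12 && a24 && a04 && !a01 && !a23 && !a14 && !a02 && !a34) ||
     (a03 && a23 && a12 && a14 && a04 && !a02 && !a13 && !a24 && !a01 && !a34) ||
     (a01 && a02 && a03 && a04) ||
     (a01 && a12 && a13 && a14) ||
     (a02 && a12 && a23 && a24) ||
     (a03 && a13 && a23 && a34) ||
     (a04 && a14 && a24 && a34)) = true := by
  decide

theorem chk4 : ∀ a01 a02 a03 a12 a13 a23 : Bool,
    ((!a01 && !a02 && !a12) ||
     (!a01 && !a03 && !a13) ||
     (!a02 && !a03 && !a23) ||
     (!a12 && !a13 && !a23) ||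
     (a01 && a02 && a03 && a12 && a13 && a23) ||
     (a01 && a12 && a23 && a03 && !a02 && !a13) ||
     (a02 && a12 && a13 && a03 && !a01 && !a23) ||
     (a01 && a13 && a23 && a02 && !a03 && !a12) ||
     (a01 && a23 && !a02 && !a03 && !a12 && !a13) ||
     (a02 && a13 && !a01 && !a03 && !a12 && !a23) ||
     (a03 && a12 && !a01 && !a02 && !a13 && !a23) ||
     (a12 && a13 && a23 && !a01 && !a02 && !a03) ||
     (a02 && a03 && a23 && !a01 && !a12 && !a13) ||
     (a01 && a03 && a13 && !a02 && !a12 && !a23) ||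
     (a01 && a02 && a12 && !a03 && !a13 && !a23) ||
     (a01 && a12 && a23 && !a02 && !a03 && !a13) ||
     (a01 && a13 && a23 && !a03 && !a02 && !a12) ||
     (a02 && a12 && a13 && !a01 && !a03 && !a23) ||
     (a02 && a23 && a13 && !a03 && !a01 && !a12) ||
     (a03 && a13 && a12 && !a01 && !a02 && !a23) ||
     (a03 && a23 && a12 && !a02 && !a01 && !a13) ||
     (a01 && a02 && a23 && !a12 && !a13 && !a03) ||
     (a01 && a03 && a23 && !a13 && !a12 && !a02) ||
     (a12 && a02 && a03 && !a01 && !a13 && !a23) ||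
     (a13 && a03 && a02 && !a01 && !a12 && !a23) ||
     (a02 && a01 && a13 && !a12 && !a23 && !a03) ||
     (a12 && a01 && a03 && !a02 && !a23 && !a13) ||
     (a01 && a02 && a12 && a03 && !a13 && !a23) ||
     (a01 && a03 && a13 && a02 && !a12 && !a23) ||
     (a02 && a03 && a23 && a01 && !a12 && !a13) ||
     (a01 && a12 && a02 && a13 && !a03 && !a23) ||
     (a01 && a13 && a03 && a12 && !a02 && !a23) ||
     (a12 && a13 && a23 && a01 && !a02 && !a03) ||
     (a02 && a12 && a01 && a23 && !a03 && !a13) ||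
     (a02 && a23 && a03 && a12 && !a01 && !a13) ||
     (a12 && a23 && a13 && a02 && !a01 && !a03) ||
     (a03 && a13 && a01 && a23 && !a02 && !a12) ||
     (a03 && a23 && a02 && a13 && !a01 && !a12) ||
     (a13 && a23 && a12 && a03 && !a01 && !a02) ||
     (a01 && a02 && a03 && a12 && a13 && !a23) ||
     (a02 && a01 && a03 && a12 && a23 && !a13) ||
     (a03 && a01 && a02 && a13 && a23 && !a12) ||
     (a12 && a01 && a13 && a02 && a23 && !a03) ||
     (a13 && a01 && a12 && a03 && a23 && !a02) ||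
     (a23 && a02 && a12 && a03 && a13 && !a01)) = true := by
  decide

end Pool.Agent.Q276.ITM
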