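import Mathlib
import Pool.Agent.H175R2.Defs

/-! Definitions for MP_d0d08e_co: clique-width of `H`-induced-topological-minor-free graphs. -/

namespace Pool.Agent.Q276.ITM

open Pool.Agent.H175R2

/-- Subdivide the edge `uv` of `H` once: the edge is deleted and a new vertex `none`, adjacent to
exactly `u` and `v`, is added. -/
def subdivideEdge {W : Type} (H : SimpleGraph W) (u v : W) : SimpleGraph (Option W) where
  Adj x y := match x, y with
    | some x, some y => H.Adj x y ∧ ¬ ((x = u ∧ y = v) ∨ (x = v ∧ y = u))
    | some x, none => x = u ∨ x = v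
    | none, some y => y = u ∨ y = v
    | none, none => False
  symm := ⟨by
    rintro (_ | x) (_ | y) h
    · exact h
    · exact h
    · exact h
    · exact ⟨h.1.symm, fun h' => h.2 (by tauto)⟩⟩
  loopless := ⟨by
    rintro (_ | x) h
    · exact h
    · exact H.loopless.irrefl _ h.1⟩

/-- `IsSubdivision H H'`: the graph `H'` is (isomorphic to) a subdivision of `H`, i.e. it is
obtained from `H` by a sequence of zero or more subdivisions of edges. -/
inductive IsSubdivision : ∀ {V W : Type}, SimpleGraph V → SimpleGraph W → Prop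
  | iso {V W : Type} {H : SimpleGraph V} {H' : SimpleGraph W} (e : H ≃g H') : IsSubdivision H H'
  | step {V W : Type} {H : SimpleGraph V} {H' : SimpleGraph W} {u v : V} (huv : H.Adj u v)
      (h : IsSubdivision (subdivideEdge H u v) H') : IsSubdivision H H'

/-- `H` is an induced topological minor of `G`: some induced subgraph of `G` is isomorphic to a
subdivision of `H`. -/
def IsITM {V W : Type} (H : SimpleGraph W) (G : SimpleGraph V) : Prop :=
  ∃ S : Set V, IsSubdivision H (G.induce S)

/-- Clique-width is bounded on the class of finite graphs without `H` as an induced topological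
minor. -/
def BddITM {W : Type} (H : SimpleGraph W) : Prop :=
  ∃ c : ℕ, ∀ (V : Type) [Finite V] (G : SimpleGraph V), ¬ IsITM H G → cliqueWidth G ≤ c

/-- the path on four vertices `0 1 2 3` -/
def P4 : SimpleGraph (Fin 4) :=
  SimpleGraph.fromRel (fun x y => x.val + 1 = y.val)

/-! ### basic lemmas -/

section
variable {V W U : Type} {H : SimpleGraph W} {u v : W}

@[simp] lemma sub_some_some {x y : W} : (subdivideEdge H u v).Adj (some x) (some y) ↔
    H.Adj x y ∧ ¬ ((x = u ∧ y = v) ∨ (x = v ∧ y = u)) := Iff.rfl

@[simp] lemma sub_some_none {x : W} : (subdivideEdge H u v).Adj (some x) none ↔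
    x = u ∨ x = v := Iff.rfl

@[simp] lemma sub_none_some {x : W} : (subdivideEdge H u v).Adj none (some x) ↔
    x = u ∨ x = v := Iff.rfl

@[simp] lemma sub_none_none : ¬ (subdivideEdge H u v).Adj none none := id

/-- isomorphic graphs have isomorphic subdivisions -/
def subIso {W' : Type} {H' : SimpleGraph W'} (e : H ≃g H') (u v : W) :
    subdivideEdge H u v ≃g subdivideEdge H' (e u) (e v) where
  toEquiv := e.toEquiv.optionCongr
  map_rel_iff' := by
    rintro (_ | x) (_ | y)
    · simp
    · simp
    · simp
    · simp [e.map_adj_iff]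

lemma IsSubdivision.trans_iso {W' W'' : Type} {H' : SimpleGraph W'} {H'' : SimpleGraph W''}
    (h : IsSubdivision H H') (e : H' ≃g H'') : IsSubdivision H H'' := by
  induction h with
  | iso e' => exact .iso (e'.trans e)
  | step huv _ ih => exact .step huv (ih e)

lemma IsSubdivision.iso_trans {W' W'' : Type} {H' : SimpleGraph W'} {H'' : SimpleGraph W''}
    (e : H ≃g H') (h : IsSubdivision H' H'') : IsSubdivision H H'' := by
  induction h generalizing W with
  | iso e' => exact .iso (e.trans e')
  | @step V1 W1 K K' u v huv _ ih =>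
    have e2 := subIso e (e.symm u) (e.symm v)
    simp only [RelIso.apply_symm_apply] at e2
    refine .step (u := e.symm u) (v := e.symm v) ?_ (ih e2)
    rw [← e.map_adj_iff]; simpa using huv

/-- appending a subdivision at the end -/
lemma IsSubdivision.append {W' : Type} {H' : SimpleGraph W'} (h : IsSubdivision H H') {a b : W'}
    (hab : H'.Adj a b) : IsSubdivision H (subdivideEdge H' a b) := by
  induction h with
  | @iso V1 W1 K K' e =>
    have e2 := subIso e (e.symm a) (e.symm b)
    simp only [RelIso.apply_symm_apply] at e2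
    refine .step (u := e.symm a) (v := e.symm b) ?_ (.iso e2)
    rw [← e.map_adj_iff]; simpa using hab
  | step huv _ ih => exact .step huv (ih hab)

/-- `IsITM` only depends on the host up to induced embeddings -/
lemma IsITM.of_embedding {V V' : Type} {G : SimpleGraph V} {G' : SimpleGraph V'} (h : IsITM H G)
    (f : G ↪g G') : IsITM H G' := by
  obtain ⟨S, hS⟩ := h
  refine ⟨f '' S, hS.trans_iso ⟨Equiv.Set.image f S f.injective, ?_⟩⟩
  rintro ⟨x, hx⟩ ⟨y, hy⟩
  simp [f.map_adj_iff]

lemma isITM_of_sub {V V' : Type} {G : SimpleGraph V} {G' : SimpleGraph V'}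
    (h : IsSubdivision H G) (f : G ↪g G') : IsITM H G' := by
  refine ⟨Set.range f, h.trans_iso ⟨Equiv.ofInjective f f.injective, ?_⟩⟩
  intro x y
  simp [f.map_adj_iff]

/-- heredity: an induced subgraph of an induced topological minor is an induced topological
minor. -/
theorem hered {W' : Type} {H' : SimpleGraph W'} (h : IsSubdivision H H') :
    ∀ {U : Type} (K : SimpleGraph U), (K ↪g H) → IsITM K H' := by
  induction h with
  | iso e =>
    intro U K f
    exact isITM_of_sub (.iso SimpleGraph.Iso.refl) (f.trans e.toEmbedding)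
  | @step V1 W1 L L' u v huv _ ih =>
    intro U K f
    by_cases huv' : (∃ a, f a = u) ∧ ∃ b, f b = v
    · obtain ⟨⟨a, ha⟩, ⟨b, hb⟩⟩ := huv'
      have hab : K.Adj a b := by rw [← f.map_adj_iff, ha, hb]; exact huv
      have f1 : subdivideEdge K a b ↪g subdivideEdge L u v := by
        refine ⟨f.toEmbedding.optionMap, ?_⟩
        rintro (_ | x) (_ | y)
        · simp
        · simp [← ha, ← hb]
        · simp [← ha, ← hb]
        · simp [← ha, ← hb, f.map_adj_iff]
      obtain ⟨S, hS⟩ := ih _ f1
      exact ⟨S, .step hab hS⟩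
    · have f1 : K ↪g subdivideEdge L u v := by
        refine ⟨f.toEmbedding.trans ⟨some, Option.some_injective _⟩, ?_⟩
        intro x y
        simp only [Function.Embedding.trans_apply, Function.Embedding.coeFn_mk, sub_some_some,
          RelEmbedding.coe_toEmbedding]
        rw [f.map_adj_iff]
        constructor
        · exact fun h => h.1
        · intro h
          refine ⟨h, ?_⟩
          rintro (⟨h1, h2⟩ | ⟨h1, h2⟩)
          · exact huv' ⟨⟨x, h1⟩, ⟨y, h2⟩⟩
          · exact huv' ⟨⟨y, h2⟩, ⟨x, h1⟩⟩
      exact ih _ f1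

theorem IsITM.mono {U : Type} {K : SimpleGraph U} {G : SimpleGraph V} (h : IsITM H G)
    (f : K ↪g H) : IsITM K G := by
  obtain ⟨S, hS⟩ := h
  exact (hered hS K f).of_embedding (SimpleGraph.Embedding.induce S)

theorem BddITM.mono {U : Type} {K : SimpleGraph U} (h : BddITM H) (f : K ↪g H) : BddITM K := by
  obtain ⟨c, hc⟩ := h
  exact ⟨c, fun V _ G hG => hc V G fun h' => hG (h'.mono f)⟩

end

end Pool.Agent.Q276.ITM
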