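import Pool.Agent.Q276.ITM.Inv

/-! The families of unbounded clique-width. -/

namespace Pool.Agent.Q276.ITM

open Pool.Agent.H175R2

theorem cobip_not_A3 (n : ℕ) : ¬ A3 (famCobip n) := by
  rintro ⟨a, b, c, h1, h2, h3, h4, h5, h6⟩
  simp only [famCobip, SimpleGraph.fromRel_adj] at h4 h5 h6
  rcases a with a | a <;> rcases b with b | b <;> rcases c with c | c <;>
    simp_all

theorem split_not_NS (n : ℕ) : ¬ NS (famSplit n) := by
  rintro ⟨S, ⟨x, hx⟩, h⟩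
  -- neighbours of a right vertex are left vertices, and these are pairwise adjacent
  have hL : ∀ a b : Fin n, a ≠ b → (famSplit n).Adj (.inl a) (.inl b) := by
    intro a b hab
    simp [famSplit, SimpleGraph.fromRel_adj, hab]
  have hR : ∀ p y, (famSplit n).Adj (.inr p) y → ∃ a, y = .inl a := by
    intro p y hy
    rcases y with a | q
    · exact ⟨a, rfl⟩
    · simp [famSplit, SimpleGraph.fromRel_adj] at hy
  have hnR : ∀ p, (.inr p : Fin n ⊕ (Fin n × Fin n)) ∉ S := by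
    intro p hp
    obtain ⟨a, ha, b, hb, hab, h1, h2, h3⟩ := h _ hp
    obtain ⟨a, rfl⟩ := hR p _ h1
    obtain ⟨b, rfl⟩ := hR p _ h2
    exact h3 (hL a b (by simpa using hab))
  obtain ⟨a, ha, b, hb, hab, h1, h2, h3⟩ := h _ hx
  rcases a with a | p
  · rcases b with b | q
    · exact h3 (hL a b (by simpa using hab))
    · exact hnR q hb
  · exact hnR p ha

theorem split_not_E2 (n : ℕ) : ¬ E2 (famSplit n) := by
  have hL : ∀ a b : Fin n, a ≠ b → (famSplit n).Adj (.inl a) (.inl b) := by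
    intro a b hab
    simp [famSplit, SimpleGraph.fromRel_adj, hab]
  have hR : ∀ p y, (famSplit n).Adj (.inr p) y → ∃ a, y = .inl a := by
    intro p y hy
    rcases y with a | q
    · exact ⟨a, rfl⟩
    · simp [famSplit, SimpleGraph.fromRel_adj] at hy
  have hE : ∀ x y, (famSplit n).Adj x y → (∃ a, x = .inl a) ∨ ∃ a, y = .inl a := by
    intro x y hxy
    rcases x with a | p
    · exact Or.inl ⟨a, rfl⟩
    · exact Or.inr (hR p y hxy)
  rintro ⟨a, b, c, d, h1, h2, h3, h4, h5, h6, h7, h8, h9, h10⟩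
  rcases hE _ _ h5 with ⟨i, rfl⟩ | ⟨i, rfl⟩ <;> rcases hE _ _ h6 with ⟨j, rfl⟩ | ⟨j, rfl⟩
  · exact h7 (hL _ _ (by simpa using h1))
  · exact h8 (hL _ _ (by simpa using h2))
  · exact h9 (hL _ _ (by simpa using h3))
  · exact h10 (hL _ _ (by simpa using h4))

theorem trunc_adj' {n : ℕ} (x y : {p : Fin n × Fin n // p.1 ≠ p.2}) :
    (famTrunc n).Adj x y ↔ x ≠ y ∧ ¬ (x.1.1 = y.1.1 ∨ (x.1.1 = y.1.2 ∧ x.1.2 = y.1.1)) := by
  simp only [famTrunc, SimpleGraph.fromRel_adj]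
  constructor
  · rintro ⟨h1, h2⟩
    refine ⟨h1, fun h3 => ?_⟩
    rcases h2 with h2 | h2
    · exact h2 h3
    · apply h2
      rcases h3 with h3 | h3
      · exact Or.inl h3.symm
      · exact Or.inr ⟨h3.2.symm, h3.1.symm⟩
  · rintro ⟨h1, h2⟩
    exact ⟨h1, Or.inl h2⟩

theorem trunc_not_CP (n : ℕ) : ¬ CP (famTrunc n) := by
  rintro ⟨v, S, ⟨x, hx⟩, hS, h⟩
  -- elements of S are `(v.1, _)` or the flip of `v`
  have hform : ∀ s ∈ S, s.1.1 = v.1.1 ∨ (s.1.1 = v.1.2 ∧ s.1.2 = v.1.1) := by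
    intro s hs
    obtain ⟨h1, h2⟩ := hS s hs
    rw [trunc_adj'] at h2
    by_contra hcon
    apply h2
    refine ⟨fun h => h1 h.symm, ?_⟩
    rintro (h3 | h3)
    · exact hcon (Or.inl h3.symm)
    · exact hcon (Or.inr ⟨h3.2.symm, h3.1.symm⟩)
  -- an element of the first form has at most one neighbour in S
  have hno : ∀ s ∈ S, s.1.1 ≠ v.1.1 := by
    intro s hs hsv
    obtain ⟨a, ha, b, hb, hab, h1, h2⟩ := h s hs
    rw [trunc_adj'] at h1 h2
    have ka := hform a ha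
    have kb := hform b hb
    have ka' : a.1.1 = v.1.2 ∧ a.1.2 = v.1.1 := by
      rcases ka with k | k
      · exact absurd (Or.inl (hsv.trans k.symm)) h1.2
      · exact k
    have kb' : b.1.1 = v.1.2 ∧ b.1.2 = v.1.1 := by
      rcases kb with k | k
      · exact absurd (Or.inl (hsv.trans k.symm)) h2.2
      · exact k
    apply hab
    apply Subtype.ext
    exact Prod.ext (ka'.1.trans kb'.1.symm) (ka'.2.trans kb'.2.symm)
  obtain ⟨a, ha, b, hb, hab, h1, h2⟩ := h x hx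
  have ka := (hform a ha).resolve_left (hno a ha)
  have kb := (hform b hb).resolve_left (hno b hb)
  apply hab
  apply Subtype.ext
  exact Prod.ext (ka.1.trans kb.1.symm) (ka.2.trans kb.2.symm)

/-! ### the truncated wall -/

/-- in the same triangle -/
def sameT {n : ℕ} (x y : Fin n × Fin n × Fin 6) : Prop :=
  x.1.val = y.1.val ∧ x.2.1.val = y.2.1.val ∧ (x.2.2.val < 3 ↔ y.2.2.val < 3)

theorem sameT.symm {n : ℕ} {x y : Fin n × Fin n × Fin 6} (h : sameT x y) : sameT y x := by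
  unfold sameT at *; omega

theorem sameT.trans {n : ℕ} {x y z : Fin n × Fin n × Fin 6} (h : sameT x y) (h' : sameT y z) :
    sameT x z := by
  unfold sameT at *; omega

/-- Each grid point `(i, j)` is replaced by two triangles `0 1 2` and `3 4 5` joined by the edge
`2 3`; `4` is joined to `0` of the next gadget in the row and `5` to `1` of the next gadget in the
column. -/
def tw (n : ℕ) : SimpleGraph (Fin n × Fin n × Fin 6) where
  Adj x y :=
    (sameT x y ∧ x.2.2.val ≠ y.2.2.val) ∨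
    (x.1.val = y.1.val ∧ x.2.1.val = y.2.1.val ∧ x.2.2.val = 2 ∧ y.2.2.val = 3) ∨
    (x.1.val = y.1.val ∧ x.2.1.val = y.2.1.val ∧ x.2.2.val = 3 ∧ y.2.2.val = 2) ∨
    (x.1.val = y.1.val ∧ x.2.1.val + 1 = y.2.1.val ∧ x.2.2.val = 4 ∧ y.2.2.val = 0) ∨
    (x.1.val = y.1.val ∧ y.2.1.val + 1 = x.2.1.val ∧ x.2.2.val = 0 ∧ y.2.2.val = 4) ∨
    (x.1.val + 1 = y.1.val ∧ x.2.1.val = y.2.1.val ∧ x.2.2.val = 5 ∧ y.2.2.val = 1) ∨
    (y.1.val + 1 = x.1.val ∧ x.2.1.val = y.2.1.val ∧ x.2.2.val = 1 ∧ y.2.2.val = 5)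
  symm := ⟨by
    rintro x y (⟨h1, h2⟩ | ⟨h1, h2, h3, h4⟩ | ⟨h1, h2, h3, h4⟩ | ⟨h1, h2, h3, h4⟩ |
      ⟨h1, h2, h3, h4⟩ | ⟨h1, h2, h3, h4⟩ | ⟨h1, h2, h3, h4⟩)
    · exact Or.inl ⟨h1.symm, h2.symm⟩
    · exact Or.inr (Or.inr (Or.inl ⟨h1.symm, h2.symm, h4, h3⟩))
    · exact Or.inr (Or.inl ⟨h1.symm, h2.symm, h4, h3⟩)
    · exact Or.inr (Or.inr (Or.inr (Or.inr (Or.inl ⟨h1.symm, h2, h4, h3⟩))))
    · exact Or.inr (Or.inr (Or.inr (Or.inl ⟨h1.symm, h2, h4, h3⟩)))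
    · exact Or.inr (Or.inr (Or.inr (Or.inr (Or.inr (Or.inr ⟨h1, h2.symm, h4, h3⟩)))))
    · exact Or.inr (Or.inr (Or.inr (Or.inr (Or.inr (Or.inl ⟨h1, h2.symm, h4, h3⟩)))))⟩
  loopless := ⟨by
    intro x h
    rcases h with ⟨h1, h2⟩ | ⟨h1, h2, h3, h4⟩ | ⟨h1, h2, h3, h4⟩ | ⟨h1, h2, h3, h4⟩ |
      ⟨h1, h2, h3, h4⟩ | ⟨h1, h2, h3, h4⟩ | ⟨h1, h2, h3, h4⟩ <;> omega⟩

theorem tw_ne {n : ℕ} {x y : Fin n × Fin n × Fin 6} : x ≠ y ↔
    (x.1.val ≠ y.1.val ∨ x.2.1.val ≠ y.2.1.val ∨ x.2.2.val ≠ y.2.2.val) := by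
  obtain ⟨a, b, c⟩ := x
  obtain ⟨a', b', c'⟩ := y
  simp only [ne_eq, Prod.mk.injEq, Fin.ext_iff]
  tauto

theorem tw_adj {n : ℕ} (x y : Fin n × Fin n × Fin 6) : (tw n).Adj x y ↔
    (sameT x y ∧ x.2.2.val ≠ y.2.2.val) ∨
    (x.1.val = y.1.val ∧ x.2.1.val = y.2.1.val ∧ x.2.2.val = 2 ∧ y.2.2.val = 3) ∨
    (x.1.val = y.1.val ∧ x.2.1.val = y.2.1.val ∧ x.2.2.val = 3 ∧ y.2.2.val = 2) ∨
    (x.1.val = y.1.val ∧ x.2.1.val + 1 = y.2.1.val ∧ x.2.2.val = 4 ∧ y.2.2.val = 0) ∨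
    (x.1.val = y.1.val ∧ y.2.1.val + 1 = x.2.1.val ∧ x.2.2.val = 0 ∧ y.2.2.val = 4) ∨
    (x.1.val + 1 = y.1.val ∧ x.2.1.val = y.2.1.val ∧ x.2.2.val = 5 ∧ y.2.2.val = 1) ∨
    (y.1.val + 1 = x.1.val ∧ x.2.1.val = y.2.1.val ∧ x.2.2.val = 1 ∧ y.2.2.val = 5) := Iff.rfl

theorem ext_unique {n : ℕ} {w y y' : Fin n × Fin n × Fin 6} (h : (tw n).Adj w y)
    (h' : (tw n).Adj w y') (hn : ¬ sameT w y) (hn' : ¬ sameT w y') : y = y' := by
  by_contra hne
  rw [← ne_eq, tw_ne] at hne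
  rw [tw_adj] at h h'
  have h1 := h.resolve_left (fun k => hn k.1)
  have h2 := h'.resolve_left (fun k => hn' k.1)
  rcases h1 with ⟨a1, a2, a3, a4⟩ | ⟨a1, a2, a3, a4⟩ | ⟨a1, a2, a3, a4⟩ | ⟨a1, a2, a3, a4⟩ |
    ⟨a1, a2, a3, a4⟩ | ⟨a1, a2, a3, a4⟩ <;>
  rcases h2 with ⟨b1, b2, b3, b4⟩ | ⟨b1, b2, b3, b4⟩ | ⟨b1, b2, b3, b4⟩ | ⟨b1, b2, b3, b4⟩ |
    ⟨b1, b2, b3, b4⟩ | ⟨b1, b2, b3, b4⟩ <;> omega

theorem tri4 {n : ℕ} {a b c d : Fin n × Fin n × Fin 6} (hab : a ≠ b) (hac : a ≠ c) (had : a ≠ d)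
    (hbc : b ≠ c) (hbd : b ≠ d) (hcd : c ≠ d) (h1 : sameT a b) (h2 : sameT a c) (h3 : sameT a d) :
    False := by
  rw [tw_ne] at hab hac had hbc hbd hcd
  unfold sameT at *
  have := a.2.2.isLt
  have := b.2.2.isLt
  have := c.2.2.isLt
  have := d.2.2.isLt
  omega

theorem tw_not_D4 (n : ℕ) : ¬ D4 (tw n) := by
  rintro ⟨w, f, hf, h⟩
  have hne : ∀ i j, i ≠ j → f i ≠ f j := fun i j hij h => hij (hf h)
  have hall : ∀ i j k : Fin 4, i ≠ j → i ≠ k → j ≠ k → sameT w (f i) → sameT w (f j) →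
      sameT w (f k) → False := by
    intro i j k hij hik hjk h1 h2 h3
    exact tri4 (h i).ne (h j).ne (h k).ne (hne _ _ hij) (hne _ _ hik) (hne _ _ hjk) h1 h2 h3
  have huniq : ∀ i j, i ≠ j → sameT w (f i) ∨ sameT w (f j) := by
    intro i j hij
    by_contra hcon
    push Not at hcon
    exact hne i j hij (ext_unique (h i) (h j) hcon.1 hcon.2)
  by_cases h0 : sameT w (f 0)
  · by_cases h1 : sameT w (f 1)
    · by_cases h2 : sameT w (f 2)
      · exact hall 0 1 2 (by decide) (by decide) (by decide) h0 h1 h2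
      · have h3 := (huniq 2 3 (by decide)).resolve_left h2
        exact hall 0 1 3 (by decide) (by decide) (by decide) h0 h1 h3
    · have h2 := (huniq 1 2 (by decide)).resolve_left h1
      have h3 := (huniq 1 3 (by decide)).resolve_left h1
      exact hall 0 2 3 (by decide) (by decide) (by decide) h0 h2 h3
  · have h1 := (huniq 0 1 (by decide)).resolve_left h0
    have h2 := (huniq 0 2 (by decide)).resolve_left h0
    have h3 := (huniq 0 3 (by decide)).resolve_left h0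
    exact hall 1 2 3 (by decide) (by decide) (by decide) h1 h2 h3

theorem tw_not_Q4 (n : ℕ) : ¬ Q4 (tw n) := by
  rintro ⟨φ, x, h1, h2, h3, h4⟩
  have adjT : ∀ a b : Fin n × Fin n × Fin 6, a ≠ b → sameT a b → (tw n).Adj a b := by
    intro a b hab h
    rw [tw_adj]
    left
    refine ⟨h, ?_⟩
    rw [tw_ne] at hab
    unfold sameT at h
    omega
  -- every branch vertex lies in a triangle of branch vertices
  have key : ∀ i j k l : Fin 4, i ≠ j → i ≠ k → i ≠ l → j ≠ k → j ≠ l → k ≠ l →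
      (sameT (φ i) (φ j) ∧ sameT (φ i) (φ k)) ∨ (sameT (φ i) (φ j) ∧ sameT (φ i) (φ l)) ∨
      (sameT (φ i) (φ k) ∧ sameT (φ i) (φ l)) := by
    intro i j k l hij hik hil hjk hjl hkl
    have pair : ∀ j k : Fin 4, i ≠ j → i ≠ k → j ≠ k → sameT (φ i) (x i j) →
        sameT (φ i) (x i k) → sameT (φ i) (φ j) ∧ sameT (φ i) (φ k) := by
      intro j k hij hik hjk s1 s2
      have hne : x i j ≠ x i k := fun h => hjk (h3 i j k hij hik h)
      have := h4 i j k hij hik hjk (adjT _ _ hne (s1.symm.trans s2))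
      rw [← this.1, ← this.2]
      exact ⟨s1, s2⟩
    have uniq : ∀ j k : Fin 4, i ≠ j → i ≠ k → j ≠ k → sameT (φ i) (x i j) ∨
        sameT (φ i) (x i k) := by
      intro j k hij hik hjk
      by_contra hcon
      push Not at hcon
      exact hjk (h3 i j k hij hik (ext_unique (h2 i j hij) (h2 i k hik) hcon.1 hcon.2))
    by_cases sj : sameT (φ i) (x i j)
    · by_cases sk : sameT (φ i) (x i k)
      · exact Or.inl (pair j k hij hik hjk sj sk)
      · exact Or.inr (Or.inl (pair j l hij hil hjl sj ((uniq k l hik hil hkl).resolve_left sk)))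
    · exact Or.inr (Or.inr (pair k l hik hil hkl ((uniq j k hij hik hjk).resolve_left sj)
        ((uniq j l hij hil hjl).resolve_left sj)))
  have k0 := key 0 1 2 3 (by decide) (by decide) (by decide) (by decide) (by decide) (by decide)
  have k1 := key 1 0 2 3 (by decide) (by decide) (by decide) (by decide) (by decide) (by decide)
  have k2 := key 2 0 1 3 (by decide) (by decide) (by decide) (by decide) (by decide) (by decide)
  have k3 := key 3 0 1 2 (by decide) (by decide) (by decide) (by decide) (by decide) (by decide)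
  have hall : sameT (φ 0) (φ 1) ∧ sameT (φ 0) (φ 2) ∧ sameT (φ 0) (φ 3) := by
    have s := @sameT.symm n
    rcases k0 with ⟨a, b⟩ | ⟨a, b⟩ | ⟨a, b⟩
    · refine ⟨a, b, ?_⟩
      rcases k3 with ⟨c, _⟩ | ⟨c, _⟩ | ⟨c, _⟩
      · exact c.symm
      · exact c.symm
      · exact a.trans c.symm
    · refine ⟨a, ?_, b⟩
      rcases k2 with ⟨c, _⟩ | ⟨c, _⟩ | ⟨c, _⟩
      · exact c.symm
      · exact c.symm
      · exact a.trans c.symm
    · refine ⟨?_, a, b⟩
      rcases k1 with ⟨c, _⟩ | ⟨c, _⟩ | ⟨c, _⟩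
      · exact c.symm
      · exact c.symm
      · exact a.trans c.symm
  have hne : ∀ i j, i ≠ j → φ i ≠ φ j := fun i j hij h => hij (h1 h)
  exact tri4 (hne 0 1 (by decide)) (hne 0 2 (by decide)) (hne 0 3 (by decide))
    (hne 1 2 (by decide)) (hne 1 3 (by decide)) (hne 2 3 (by decide)) hall.1 hall.2.1 hall.2.2

end Pool.Agent.Q276.ITM
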