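import Pool.Agent.Q276.ITM.Defs
import Pool.Agent.H175R2.Fam

/-! Invariants of graphs preserved by subdivision, used for the unbounded classes. -/

namespace Pool.Agent.Q276.ITM

open Pool.Agent.H175R2

variable {V W : Type}

/-- three pairwise nonadjacent vertices -/
def A3 (H : SimpleGraph W) : Prop := ∃ a b c : W, a ≠ b ∧ a ≠ c ∧ b ≠ c ∧
  ¬ H.Adj a b ∧ ¬ H.Adj a c ∧ ¬ H.Adj b c

/-- two disjoint edges with no edges between them -/
def E2 (H : SimpleGraph W) : Prop := ∃ a b c d : W, a ≠ c ∧ a ≠ d ∧ b ≠ c ∧ b ≠ d ∧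
  H.Adj a b ∧ H.Adj c d ∧ ¬ H.Adj a c ∧ ¬ H.Adj a d ∧ ¬ H.Adj b c ∧ ¬ H.Adj b d

/-- a set in which every vertex has two nonadjacent neighbours -/
def NS (H : SimpleGraph W) : Prop := ∃ S : Set W, S.Nonempty ∧
  ∀ x ∈ S, ∃ a ∈ S, ∃ b ∈ S, a ≠ b ∧ H.Adj x a ∧ H.Adj x b ∧ ¬ H.Adj a b

/-- a vertex anticomplete to a set in which every vertex has two neighbours -/
def CP (H : SimpleGraph W) : Prop := ∃ v : W, ∃ S : Set W, S.Nonempty ∧
  (∀ s ∈ S, s ≠ v ∧ ¬ H.Adj v s) ∧ ∀ x ∈ S, ∃ a ∈ S, ∃ b ∈ S, a ≠ b ∧ H.Adj x a ∧ H.Adj x b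

/-- a vertex with four neighbours -/
def D4 (H : SimpleGraph W) : Prop := ∃ w : W, ∃ f : Fin 4 → W, Function.Injective f ∧
  ∀ i, H.Adj w (f i)

/-- a configuration present in every subdivision of `K₄` -/
def Q4 (H : SimpleGraph W) : Prop := ∃ (φ : Fin 4 → W) (x : Fin 4 → Fin 4 → W),
  Function.Injective φ ∧ (∀ i j, i ≠ j → H.Adj (φ i) (x i j)) ∧
  (∀ i j k, i ≠ j → i ≠ k → x i j = x i k → j = k) ∧
  (∀ i j k, i ≠ j → i ≠ k → j ≠ k → H.Adj (x i j) (x i k) → x i j = φ j ∧ x i k = φ k)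

/-! ### monotonicity -/

section mono
variable {H : SimpleGraph W} {G : SimpleGraph V} (f : H ↪g G)
include f

lemma A3.mono (h : A3 H) : A3 G := by
  obtain ⟨a, b, c, h1, h2, h3, h4, h5, h6⟩ := h
  refine ⟨f a, f b, f c, ?_, ?_, ?_, ?_, ?_, ?_⟩ <;> simpa [f.map_adj_iff]

lemma E2.mono (h : E2 H) : E2 G := by
  obtain ⟨a, b, c, d, h1, h2, h3, h4, h5, h6, h7, h8, h9, h10⟩ := h
  refine ⟨f a, f b, f c, f d, ?_, ?_, ?_, ?_, ?_, ?_, ?_, ?_, ?_, ?_⟩ <;> simpa [f.map_adj_iff]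

lemma NS.mono (h : NS H) : NS G := by
  obtain ⟨S, hS, h⟩ := h
  refine ⟨f '' S, hS.image f, ?_⟩
  rintro _ ⟨x, hx, rfl⟩
  obtain ⟨a, ha, b, hb, h1, h2, h3, h4⟩ := h x hx
  exact ⟨f a, ⟨a, ha, rfl⟩, f b, ⟨b, hb, rfl⟩, by simpa, by simpa [f.map_adj_iff],
    by simpa [f.map_adj_iff], by simpa [f.map_adj_iff]⟩

lemma CP.mono (h : CP H) : CP G := by
  obtain ⟨v, S, hS, hv, h⟩ := h
  refine ⟨f v, f '' S, hS.image f, ?_, ?_⟩
  · rintro _ ⟨x, hx, rfl⟩
    have := hv x hx
    exact ⟨by simpa using this.1, by simpa [f.map_adj_iff] using this.2⟩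
  · rintro _ ⟨x, hx, rfl⟩
    obtain ⟨a, ha, b, hb, h1, h2, h3⟩ := h x hx
    exact ⟨f a, ⟨a, ha, rfl⟩, f b, ⟨b, hb, rfl⟩, by simpa, by simpa [f.map_adj_iff],
      by simpa [f.map_adj_iff]⟩

lemma D4.mono (h : D4 H) : D4 G := by
  obtain ⟨w, g, hg, h⟩ := h
  exact ⟨f w, f ∘ g, f.injective.comp hg, fun i => by simpa [f.map_adj_iff] using h i⟩

lemma Q4.mono (h : Q4 H) : Q4 G := by
  obtain ⟨φ, x, h1, h2, h3, h4⟩ := h
  refine ⟨f ∘ φ, fun i j => f (x i j), f.injective.comp h1, ?_, ?_, ?_⟩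
  · intro i j hij; simpa [f.map_adj_iff] using h2 i j hij
  · intro i j k hij hik h; exact h3 i j k hij hik (f.injective h)
  · intro i j k hij hik hjk h
    have := h4 i j k hij hik hjk (by simpa [f.map_adj_iff] using h)
    exact ⟨congrArg f this.1, congrArg f this.2⟩

end mono

/-! ### subdivision -/

section sub
variable {H : SimpleGraph W} {u v : W}

lemma A3.sub (h : A3 H) : A3 (subdivideEdge H u v) := by
  obtain ⟨a, b, c, h1, h2, h3, h4, h5, h6⟩ := h
  exact ⟨some a, some b, some c, by simpa, by simpa, by simpa, fun h => h4 h.1,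
    fun h => h5 h.1, fun h => h6 h.1⟩

lemma E2.sub (h : E2 H) : E2 (subdivideEdge H u v) := by
  obtain ⟨a, b, c, d, h1, h2, h3, h4, h5, h6, h7, h8, h9, h10⟩ := h
  by_cases hab : (a = u ∧ b = v) ∨ (a = v ∧ b = u)
  · refine ⟨some a, none, some c, some d, by simpa, by simpa, by simp, by simp, ?_, ?_,
      fun h => h7 h.1, fun h => h8 h.1, ?_, ?_⟩
    · rcases hab with h | h
      · exact Or.inl h.1
      · exact Or.inr h.1
    · refine ⟨h6, ?_⟩
      rintro (⟨h, h'⟩ | ⟨h, h'⟩) <;> rcases hab with ⟨k, k'⟩ | ⟨k, k'⟩ <;> simp_all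
    · rintro (h | h) <;> rcases hab with ⟨k, k'⟩ | ⟨k, k'⟩ <;> simp_all
    · rintro (h | h) <;> rcases hab with ⟨k, k'⟩ | ⟨k, k'⟩ <;> simp_all
  · by_cases hcd : (c = u ∧ d = v) ∨ (c = v ∧ d = u)
    · refine ⟨some a, some b, some c, none, by simpa, by simp, by simpa, by simp, ⟨h5, hab⟩, ?_,
        fun h => h7 h.1, ?_, fun h => h9 h.1, ?_⟩
      · rcases hcd with h | h
        · exact Or.inl h.1
        · exact Or.inr h.1
      · rintro (h | h) <;> rcases hcd with ⟨k, k'⟩ | ⟨k, k'⟩ <;> simp_all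
      · rintro (h | h) <;> rcases hcd with ⟨k, k'⟩ | ⟨k, k'⟩ <;> simp_all
    · exact ⟨some a, some b, some c, some d, by simpa, by simpa, by simpa, by simpa,
        ⟨h5, hab⟩, ⟨h6, hcd⟩, fun h => h7 h.1, fun h => h8 h.1, fun h => h9 h.1, fun h => h10 h.1⟩

lemma NS.sub (h : NS H) (huv : H.Adj u v) : NS (subdivideEdge H u v) := by
  classical
  obtain ⟨S, hS, h⟩ := h
  by_cases hin : u ∈ S ∧ v ∈ S
  · refine ⟨insert none (some '' S), ⟨none, Set.mem_insert _ _⟩, ?_⟩
    intro x hx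
    rcases hx with rfl | ⟨x, hx, rfl⟩
    · exact ⟨some u, Or.inr ⟨u, hin.1, rfl⟩, some v, Or.inr ⟨v, hin.2, rfl⟩, by simpa using huv.ne,
        Or.inl rfl, Or.inr rfl, fun h => h.2 (Or.inl ⟨rfl, rfl⟩)⟩
    · obtain ⟨a, ha, b, hb, hab, h1, h2, h3⟩ := h x hx
      -- replace the neighbour across the subdivided edge by `none`
      by_cases ea : (x = u ∧ a = v) ∨ (x = v ∧ a = u)
      · have hbn : ¬ ((x = u ∧ b = v) ∨ (x = v ∧ b = u)) := by
          intro eb
          rcases ea with ⟨k, k'⟩ | ⟨k, k'⟩ <;> rcases eb with ⟨l, l'⟩ | ⟨l, l'⟩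
          · exact hab (k'.trans l'.symm)
          · exact huv.ne (k.symm.trans l)
          · exact huv.ne (l.symm.trans k)
          · exact hab (k'.trans l'.symm)
        refine ⟨none, Or.inl rfl, some b, Or.inr ⟨b, hb, rfl⟩, by simp, ?_, ⟨h2, hbn⟩, ?_⟩
        · rcases ea with k | k
          · exact Or.inl k.1
          · exact Or.inr k.1
        · rintro (k | k)
          · rcases ea with ⟨l, l'⟩ | ⟨l, l'⟩
            · exact h2.ne (l.trans k.symm)
            · exact hab (l'.trans k.symm)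
          · rcases ea with ⟨l, l'⟩ | ⟨l, l'⟩
            · exact hab (l'.trans k.symm)
            · exact h2.ne (l.trans k.symm)
      · by_cases eb : (x = u ∧ b = v) ∨ (x = v ∧ b = u)
        · refine ⟨some a, Or.inr ⟨a, ha, rfl⟩, none, Or.inl rfl, by simp, ⟨h1, ea⟩, ?_, ?_⟩
          · rcases eb with k | k
            · exact Or.inl k.1
            · exact Or.inr k.1
          · rintro (k | k)
            · rcases eb with ⟨l, l'⟩ | ⟨l, l'⟩
              · exact h1.ne (l.trans k.symm)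
              · exact hab (k.trans l'.symm)
            · rcases eb with ⟨l, l'⟩ | ⟨l, l'⟩
              · exact hab (k.trans l'.symm)
              · exact h1.ne (l.trans k.symm)
        · exact ⟨some a, Or.inr ⟨a, ha, rfl⟩, some b, Or.inr ⟨b, hb, rfl⟩, by simpa, ⟨h1, ea⟩,
            ⟨h2, eb⟩, fun h => h3 h.1⟩
  · refine ⟨some '' S, hS.image _, ?_⟩
    rintro _ ⟨x, hx, rfl⟩
    obtain ⟨a, ha, b, hb, hab, h1, h2, h3⟩ := h x hx
    refine ⟨some a, ⟨a, ha, rfl⟩, some b, ⟨b, hb, rfl⟩, by simpa, ⟨h1, ?_⟩, ⟨h2, ?_⟩,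
      fun h => h3 h.1⟩
    · rintro (⟨rfl, rfl⟩ | ⟨rfl, rfl⟩)
      · exact hin ⟨hx, ha⟩
      · exact hin ⟨ha, hx⟩
    · rintro (⟨rfl, rfl⟩ | ⟨rfl, rfl⟩)
      · exact hin ⟨hx, hb⟩
      · exact hin ⟨hb, hx⟩

lemma CP.sub (h : CP H) (huv : H.Adj u v) : CP (subdivideEdge H u v) := by
  classical
  obtain ⟨w, S, hS, hw, h⟩ := h
  by_cases hin : u ∈ S ∧ v ∈ S
  · refine ⟨some w, insert none (some '' S), ⟨none, Set.mem_insert _ _⟩, ?_, ?_⟩
    · intro x hx
      rcases hx with rfl | ⟨x, hx, rfl⟩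
      · refine ⟨by simp, ?_⟩
        rintro (k | k)
        · exact (hw u hin.1).1 k.symm
        · exact (hw v hin.2).1 k.symm
      · exact ⟨by simpa using (hw x hx).1, fun h => (hw x hx).2 h.1⟩
    intro x hx
    rcases hx with rfl | ⟨x, hx, rfl⟩
    · exact ⟨some u, Or.inr ⟨u, hin.1, rfl⟩, some v, Or.inr ⟨v, hin.2, rfl⟩, by simpa using huv.ne,
        Or.inl rfl, Or.inr rfl⟩
    · obtain ⟨a, ha, b, hb, hab, h1, h2⟩ := h x hx
      by_cases ea : (x = u ∧ a = v) ∨ (x = v ∧ a = u)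
      · have hbn : ¬ ((x = u ∧ b = v) ∨ (x = v ∧ b = u)) := by
          intro eb
          rcases ea with ⟨k, k'⟩ | ⟨k, k'⟩ <;> rcases eb with ⟨l, l'⟩ | ⟨l, l'⟩
          · exact hab (k'.trans l'.symm)
          · exact huv.ne (k.symm.trans l)
          · exact huv.ne (l.symm.trans k)
          · exact hab (k'.trans l'.symm)
        refine ⟨none, Or.inl rfl, some b, Or.inr ⟨b, hb, rfl⟩, by simp, ?_, ⟨h2, hbn⟩⟩
        rcases ea with k | k
        · exact Or.inl k.1
        · exact Or.inr k.1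
      · by_cases eb : (x = u ∧ b = v) ∨ (x = v ∧ b = u)
        · refine ⟨some a, Or.inr ⟨a, ha, rfl⟩, none, Or.inl rfl, by simp, ⟨h1, ea⟩, ?_⟩
          rcases eb with k | k
          · exact Or.inl k.1
          · exact Or.inr k.1
        · exact ⟨some a, Or.inr ⟨a, ha, rfl⟩, some b, Or.inr ⟨b, hb, rfl⟩, by simpa, ⟨h1, ea⟩,
            ⟨h2, eb⟩⟩
  · refine ⟨some w, some '' S, hS.image _, ?_, ?_⟩
    · rintro _ ⟨x, hx, rfl⟩
      exact ⟨by simpa using (hw x hx).1, fun h => (hw x hx).2 h.1⟩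
    rintro _ ⟨x, hx, rfl⟩
    obtain ⟨a, ha, b, hb, hab, h1, h2⟩ := h x hx
    refine ⟨some a, ⟨a, ha, rfl⟩, some b, ⟨b, hb, rfl⟩, by simpa, ⟨h1, ?_⟩, ⟨h2, ?_⟩⟩
    · rintro (⟨rfl, rfl⟩ | ⟨rfl, rfl⟩)
      · exact hin ⟨hx, ha⟩
      · exact hin ⟨ha, hx⟩
    · rintro (⟨rfl, rfl⟩ | ⟨rfl, rfl⟩)
      · exact hin ⟨hx, hb⟩
      · exact hin ⟨hb, hx⟩

lemma D4.sub (h : D4 H) : D4 (subdivideEdge H u v) := by
  classical
  obtain ⟨w, f, hf, h⟩ := h
  refine ⟨some w, fun i => if (w = u ∧ f i = v) ∨ (w = v ∧ f i = u) then none else some (f i),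
    ?_, ?_⟩
  · intro i j hij
    dsimp only at hij
    split_ifs at hij with h1 h2 h2
    · apply hf
      have a1 := h i
      have a2 := h j
      rcases h1 with ⟨k, k'⟩ | ⟨k, k'⟩ <;> rcases h2 with ⟨l, l'⟩ | ⟨l, l'⟩
      · exact k'.trans l'.symm
      · subst l; rw [k'] at a1; exact absurd a1 (H.loopless.irrefl _)
      · subst k; rw [l'] at a2; exact absurd a2 (H.loopless.irrefl _)
      · exact k'.trans l'.symm
    · exact hf (Option.some_injective _ hij)
  · intro i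
    dsimp only
    split_ifs with h1
    · rcases h1 with k | k
      · exact Or.inl k.1
      · exact Or.inr k.1
    · exact ⟨h i, h1⟩

lemma Q4.sub (h : Q4 H) : Q4 (subdivideEdge H u v) := by
  classical
  obtain ⟨φ, x, h1, h2, h3, h4⟩ := h
  let P : Fin 4 → Fin 4 → Prop := fun i j => (φ i = u ∧ x i j = v) ∨ (φ i = v ∧ x i j = u)
  refine ⟨fun i => some (φ i), fun i j => if P i j then none else some (x i j),
    fun i j hij => h1 (Option.some_injective _ hij), ?_, ?_, ?_⟩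
  · intro i j hij
    dsimp only
    split_ifs with hP
    · rcases hP with k | k
      · exact Or.inl k.1
      · exact Or.inr k.1
    · exact ⟨h2 i j hij, hP⟩
  · intro i j k hij hik hx
    dsimp only at hx
    split_ifs at hx with hP hP' hP'
    · apply h3 i j k hij hik
      have a1 := h2 i j hij
      have a2 := h2 i k hik
      rcases hP with ⟨k1, k2⟩ | ⟨k1, k2⟩ <;> rcases hP' with ⟨l1, l2⟩ | ⟨l1, l2⟩
      · exact k2.trans l2.symm
      · rw [k2, ← l1] at a1; exact absurd a1 (H.loopless.irrefl _)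
      · rw [l2, ← k1] at a2; exact absurd a2 (H.loopless.irrefl _)
      · exact k2.trans l2.symm
    · exact h3 i j k hij hik (Option.some_injective _ hx)
  · intro i j k hij hik hjk hadj
    dsimp only at hadj ⊢
    have a1 := h2 i j hij
    have a2 := h2 i k hik
    by_cases hP : P i j
    · exfalso
      rw [if_pos hP] at hadj
      by_cases hP' : P i k
      · rw [if_pos hP'] at hadj; exact hadj
      · rw [if_neg hP'] at hadj
        rw [sub_none_some] at hadj
        apply hjk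
        apply h3 i j k hij hik
        rcases hP with ⟨k1, k2⟩ | ⟨k1, k2⟩ <;> rcases hadj with l | l
        · exfalso; rw [l, ← k1] at a2; exact H.loopless.irrefl _ a2
        · exact k2.trans l.symm
        · exact k2.trans l.symm
        · exfalso; rw [l, ← k1] at a2; exact H.loopless.irrefl _ a2
    · rw [if_neg hP] at hadj ⊢
      by_cases hP' : P i k
      · exfalso
        rw [if_pos hP'] at hadj
        rw [sub_some_none] at hadj
        apply hjk
        apply h3 i j k hij hik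
        rcases hP' with ⟨k1, k2⟩ | ⟨k1, k2⟩ <;> rcases hadj with l | l
        · exfalso; rw [l, ← k1] at a1; exact H.loopless.irrefl _ a1
        · exact l.trans k2.symm
        · exact l.trans k2.symm
        · exfalso; rw [l, ← k1] at a1; exact H.loopless.irrefl _ a1
      · rw [if_neg hP'] at hadj ⊢
        have := h4 i j k hij hik hjk hadj.1
        exact ⟨congrArg some this.1, congrArg some this.2⟩

end sub

/-! ### transfer -/

lemma sub_of_preserved (P : ∀ (W : Type), SimpleGraph W → Prop)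
    (hm : ∀ (V W : Type) (H : SimpleGraph W) (G : SimpleGraph V), (H ↪g G) → P W H → P V G)
    (hs : ∀ (W : Type) (H : SimpleGraph W) (u v : W), H.Adj u v → P W H →
      P (Option W) (subdivideEdge H u v))
    {V W : Type} {H : SimpleGraph W} {G : SimpleGraph V} (h : IsSubdivision H G) :
    P W H → P V G := by
  induction h with
  | iso e => exact fun h => hm _ _ _ _ e.toEmbedding h
  | step huv _ ih => exact fun h => ih (hs _ _ _ _ huv h)

lemma itm_of_preserved (P : ∀ (W : Type), SimpleGraph W → Prop)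
    (hm : ∀ (V W : Type) (H : SimpleGraph W) (G : SimpleGraph V), (H ↪g G) → P W H → P V G)
    (hs : ∀ (W : Type) (H : SimpleGraph W) (u v : W), H.Adj u v → P W H →
      P (Option W) (subdivideEdge H u v))
    {V W : Type} {H : SimpleGraph W} {G : SimpleGraph V} (h : IsITM H G) (hP : P W H) :
    P V G := by
  obtain ⟨S, hS⟩ := h
  exact hm _ _ _ _ (SimpleGraph.Embedding.induce S) (sub_of_preserved P hm hs hS hP)

section transfer
variable {V W : Type} {H : SimpleGraph W} {G : SimpleGraph V}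

lemma A3.itm (hi : IsITM H G) (h : A3 H) : A3 G :=
  itm_of_preserved (fun _ H => A3 H) (fun _ _ _ _ f h => h.mono f)
    (fun _ _ _ _ _ h => h.sub) hi h

lemma E2.itm (hi : IsITM H G) (h : E2 H) : E2 G :=
  itm_of_preserved (fun _ H => E2 H) (fun _ _ _ _ f h => h.mono f)
    (fun _ _ _ _ _ h => h.sub) hi h

lemma NS.itm (hi : IsITM H G) (h : NS H) : NS G :=
  itm_of_preserved (fun _ H => NS H) (fun _ _ _ _ f h => h.mono f)
    (fun _ _ _ _ huv h => h.sub huv) hi h

lemma CP.itm (hi : IsITM H G) (h : CP H) : CP G :=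
  itm_of_preserved (fun _ H => CP H) (fun _ _ _ _ f h => h.mono f)
    (fun _ _ _ _ huv h => h.sub huv) hi h

lemma D4.itm (hi : IsITM H G) (h : D4 H) : D4 G :=
  itm_of_preserved (fun _ H => D4 H) (fun _ _ _ _ f h => h.mono f)
    (fun _ _ _ _ _ h => h.sub) hi h

lemma Q4.itm (hi : IsITM H G) (h : Q4 H) : Q4 G :=
  itm_of_preserved (fun _ H => Q4 H) (fun _ _ _ _ f h => h.mono f)
    (fun _ _ _ _ _ h => h.sub) hi h

end transfer

end Pool.Agent.Q276.ITM
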