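import Pool.Agent.Q276.ITM.Fam
import Pool.Agent.H175R2.Cut

/-! The truncated walls have unbounded clique-width. -/

namespace Pool.Agent.Q276.ITM

open Pool.Agent.H175R2 Pool.Agent.H175R2.CutAux

/-- types of the vertices on a row -/
def gt (t : ℕ) : Fin 6 := if t = 0 then 0 else if t = 1 then 2 else if t = 2 then 3 else 4

/-- the row path -/
def rv {n : ℕ} (i : Fin n) (s : Fin (4 * n)) : Fin n × Fin n × Fin 6 :=
  (i, ⟨s.val / 4, by have := s.isLt; omega⟩, gt (s.val % 4))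

theorem gt_val (t : ℕ) (ht : t < 4) : (gt t).val = if t = 0 then 0 else t + 1 := by
  interval_cases t <;> rfl

theorem rv_adj {n : ℕ} (i : Fin n) (s s' : Fin (4 * n)) (h : s.val + 1 = s'.val) :
    (tw n).Adj (rv i s) (rv i s') := by
  rw [tw_adj]
  simp only [rv, sameT, gt_val _ (Nat.mod_lt _ (by norm_num : 0 < 4))]
  rcases (by omega : s.val % 4 = 0 ∨ s.val % 4 = 1 ∨ s.val % 4 = 2 ∨ s.val % 4 = 3) with
    h0 | h0 | h0 | h0
  · left
    have e1 : s'.val % 4 = 1 := by omega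
    have e2 : s.val / 4 = s'.val / 4 := by omega
    simp [h0, e1, e2]
  · right; left
    have e1 : s'.val % 4 = 2 := by omega
    have e2 : s.val / 4 = s'.val / 4 := by omega
    simp [h0, e1, e2]
  · left
    have e1 : s'.val % 4 = 3 := by omega
    have e2 : s.val / 4 = s'.val / 4 := by omega
    simp [h0, e1, e2]
  · right; right; right; left
    have e1 : s'.val % 4 = 0 := by omega
    have e2 : s.val / 4 + 1 = s'.val / 4 := by omega
    simp [h0, e1, e2]

theorem rv_not_adj {n : ℕ} (i i' : Fin n) (s s' : Fin (4 * n)) (h : i ≠ i') :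
    ¬ (tw n).Adj (rv i s) (rv i' s') := by
  intro h'
  have hi : i.val ≠ i'.val := fun h1 => h (Fin.ext h1)
  rw [tw_adj] at h'
  simp only [rv, sameT, gt_val _ (Nat.mod_lt _ (by norm_num : 0 < 4))] at h'
  rcases h' with ⟨⟨h1, _⟩, _⟩ | ⟨h1, _⟩ | ⟨h1, _⟩ | ⟨h1, _⟩ | ⟨h1, _⟩ | ⟨_, _, h1, h2⟩ | ⟨_, _, h1, h2⟩
  · exact hi h1
  · exact hi h1
  · exact hi h1
  · exact hi h1
  · exact hi h1
  · split_ifs at h1 h2 <;> omega
  · split_ifs at h1 h2 <;> omega

/-- the trace on the grid -/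
def tr {n : ℕ} (A : Set (Fin n × Fin n × Fin 6)) : Set (Fin n × Fin n) :=
  {p | (p.1, p.2, (2 : Fin 6)) ∈ A}

theorem tw_mixed_le {n k : ℕ} (A : Set (Fin n × Fin n × Fin 6)) (h : Types (tw n) A k) :
    (mixed (tr A)).card ≤ k := by
  classical
  obtain ⟨l, hl⟩ := h
  have hmid : ∀ i j : Fin n, ∃ s : Fin (4 * n), rv i s = (i, j, (2 : Fin 6)) := by
    intro i j
    refine ⟨⟨4 * j.val + 1, by have := j.isLt; omega⟩, ?_⟩
    simp only [rv]
    have e1 : (4 * j.val + 1) / 4 = j.val := by omega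
    have e2 : (4 * j.val + 1) % 4 = 1 := by omega
    simp [e1, e2, gt]
  have hch : ∀ i : Fin n, i ∈ mixed (tr A) → ∃ a b : Fin (4 * n), rv i a ∈ A ∧ rv i b ∉ A ∧
      (a.val + 1 = b.val ∨ b.val + 1 = a.val) := by
    intro i hi
    simp only [mixed, Finset.mem_filter, Finset.mem_univ, true_and] at hi
    obtain ⟨⟨j, hj⟩, ⟨j', hj'⟩⟩ := hi
    obtain ⟨s, hs⟩ := hmid i j
    obtain ⟨s', hs'⟩ := hmid i j'
    exact step_exists (fun s => rv i s ∈ A) ⟨s, by rw [hs]; exact hj⟩ ⟨s', by rw [hs']; exact hj'⟩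
  rcases Nat.eq_zero_or_pos n with rfl | hn0
  · rw [Finset.eq_empty_of_isEmpty (mixed (tr A))]; simp
  haveI : Nonempty (Fin (4 * n)) := ⟨⟨0, by omega⟩⟩
  choose! a b ha hb hab using hch
  have : (Finset.univ : Finset (Fin k)).card = k := by simp
  rw [← this]
  refine Finset.card_le_card_of_injOn (fun i => l (rv i (a i))) (fun _ _ => Finset.mem_univ _) ?_
  intro i hi i' hi' hii
  by_contra hne
  have hadj : (tw n).Adj (rv i (a i)) (rv i (b i)) := by
    rcases hab i hi with h | h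
    · exact rv_adj i _ _ h
    · exact (rv_adj i _ _ h).symm
  have := (hl _ (ha i hi) _ (ha i' hi') hii _ (hb i hi)).1 hadj
  exact rv_not_adj i' i _ _ (Ne.symm hne) this

/-- swapping types -/
def sw (t : Fin 6) : Fin 6 :=
  if t = 0 then 1 else if t = 1 then 0 else if t = 4 then 5 else if t = 5 then 4 else t

theorem sw_sw : ∀ t, sw (sw t) = t := by decide

/-- reflection of the truncated wall -/
def twSwap (n : ℕ) : tw n ≃g tw n where
  toFun x := (x.2.1, x.1, sw x.2.2)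
  invFun x := (x.2.1, x.1, sw x.2.2)
  left_inv x := by simp [sw_sw]
  right_inv x := by simp [sw_sw]
  map_rel_iff' := by
    have e : ∀ t : Fin 6, (t.val = 0 ∧ (sw t).val = 1) ∨ (t.val = 1 ∧ (sw t).val = 0) ∨
        (t.val = 2 ∧ (sw t).val = 2) ∨ (t.val = 3 ∧ (sw t).val = 3) ∨
        (t.val = 4 ∧ (sw t).val = 5) ∨ (t.val = 5 ∧ (sw t).val = 4) := by decide
    rintro ⟨i, j, t⟩ ⟨i', j', t'⟩
    simp only [Equiv.coe_fn_mk, tw_adj, sameT]
    have h1 := e t
    have h2 := e t'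
    generalize (sw t).val = p at *
    generalize (sw t').val = p' at *
    generalize t.val = q at *
    generalize t'.val = q' at *
    rcases h1 with ⟨rfl, rfl⟩ | ⟨rfl, rfl⟩ | ⟨rfl, rfl⟩ | ⟨rfl, rfl⟩ | ⟨rfl, rfl⟩ | ⟨rfl, rfl⟩ <;>
    rcases h2 with ⟨rfl, rfl⟩ | ⟨rfl, rfl⟩ | ⟨rfl, rfl⟩ | ⟨rfl, rfl⟩ | ⟨rfl, rfl⟩ | ⟨rfl, rfl⟩ <;>
    simp <;> omega

theorem tw_unbounded : ∀ c : ℕ, ∃ n, 1 ≤ n ∧ ∀ k ≤ c, ¬ CwLE (tw n) k := by
  intro c
  refine ⟨3 * c + 2, by omega, ?_⟩
  intro k hk hcw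
  set n := 3 * c + 2 with hn
  let W : Set (Fin n × Fin n × Fin 6) := Set.range (fun p : Fin n × Fin n => (p.1, p.2, (2 : Fin 6)))
  have hinj : Function.Injective (fun p : Fin n × Fin n => (p.1, p.2, (2 : Fin 6))) := by
    rintro ⟨a, b⟩ ⟨a', b'⟩ h
    simpa using h
  have hcard : W.ncard = n * n := by
    show (Set.range _).ncard = _
    rw [← Set.image_univ, Set.ncard_image_of_injective _ hinj, Set.ncard_univ]; simp
  obtain ⟨A, hT, h1, h2⟩ := balanced_cut (tw n) k hcw W (by rw [hcard]; nlinarith)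
  have hAW : (A ∩ W).ncard = (tr A).ncard := by
    have : A ∩ W = (fun p : Fin n × Fin n => (p.1, p.2, (2 : Fin 6))) '' (tr A) := by
      ext x
      constructor
      · rintro ⟨hx, ⟨p, rfl⟩⟩
        exact ⟨p, hx, rfl⟩
      · rintro ⟨p, hp, rfl⟩
        exact ⟨hp, ⟨p, rfl⟩⟩
    rw [this, Set.ncard_image_of_injective _ hinj]
  rw [hAW, hcard] at h1 h2
  have hcompl : (tr A).ncard + (tr A)ᶜ.ncard = n * n := by
    rw [Set.ncard_add_ncard_compl]; simp
  have hm := tw_mixed_le A hT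
  have hbig : n ≤ 3 * (mixed (tr A)).card → False := by
    intro h; omega
  by_cases hfull : ∃ i, ∀ j, (i, j) ∈ tr A
  · by_cases hempty : ∃ i, ∀ j, (i, j) ∉ tr A
    · obtain ⟨i, hi⟩ := hfull
      obtain ⟨i', hi'⟩ := hempty
      have hT' : Types (tw n) (twSwap n ⁻¹' A) k := Types.iso _ hT
      have hm' := tw_mixed_le _ hT'
      have : mixed (tr (twSwap n ⁻¹' A)) = Finset.univ := by
        ext j
        simp only [mixed, Finset.mem_filter, Finset.mem_univ, true_and, iff_true]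
        exact ⟨⟨i, hi j⟩, ⟨i', hi' j⟩⟩
      rw [this] at hm'
      simp at hm'
      omega
    · push Not at hempty
      have h3 : (tr A)ᶜ.ncard ≤ (mixed (tr A)ᶜ).card * n := by
        apply card_le_mixed
        rintro i ⟨j, hj⟩
        rw [mixed_compl]
        simp only [mixed, Finset.mem_filter, Finset.mem_univ, true_and]
        exact ⟨hempty i, j, hj⟩
      rw [mixed_compl] at h3
      apply hbig
      have : n * n ≤ 3 * ((mixed (tr A)).card * n) := by omega
      have : n * n ≤ (3 * (mixed (tr A)).card) * n := by linarith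
      exact Nat.le_of_mul_le_mul_right this (by omega)
  · push Not at hfull
    have h3 : (tr A).ncard ≤ (mixed (tr A)).card * n := by
      apply card_le_mixed
      rintro i ⟨j, hj⟩
      simp only [mixed, Finset.mem_filter, Finset.mem_univ, true_and]
      exact ⟨⟨j, hj⟩, hfull i⟩
    apply hbig
    have : n * n ≤ (3 * (mixed (tr A)).card) * n := by linarith
    exact Nat.le_of_mul_le_mul_right this (by omega)

end Pool.Agent.Q276.ITM
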