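import Pool.Agent.Q276.ITM.Small
import Pool.Agent.Q276.ITM.TwUnb
import Pool.Agent.H175R2.Cw

/-! Necessity: bounded clique-width forces `H` to be an induced subgraph of `P₄`, the paw or the
diamond. -/

namespace Pool.Agent.Q276.ITM

open Pool.Agent.H175R2

section
variable {W : Type} {H : SimpleGraph W}

lemma emb_of' [Finite W] {n m : ℕ} (hcard : Nat.card W = n) (T : SimpleGraph (Fin m))
    (g : Fin n → W) (hg : Function.Injective g) (τ : Fin n → Fin m) (hτ : Function.Injective τ)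
    (h : ∀ i j, H.Adj (g i) (g j) ↔ T.Adj (τ i) (τ j)) : Nonempty (H ↪g T) := by
  obtain ⟨f⟩ := emb_of hcard (T.comap τ) g hg (fun i j => by rw [h]; rfl)
  exact ⟨f.trans ⟨⟨τ, hτ⟩, Iff.rfl⟩⟩

lemma P4_adj (i j : Fin 4) : P4.Adj i j ↔ (i.val + 1 = j.val ∨ j.val + 1 = i.val) := by
  simp only [P4, SimpleGraph.fromRel_adj]
  constructor
  · exact fun h => h.2
  · intro h
    refine ⟨?_, h⟩
    rintro rfl
    omega

theorem classify [Finite W] (H : SimpleGraph W) (hA3 : ¬ A3 H) (hE2 : ¬ E2 H) (hNS : ¬ NS H)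
    (hCP : ¬ CP H) (hD4 : ¬ D4 H) (hQ4 : ¬ Q4 H) :
    Nonempty (H ↪g P4) ∨ Nonempty (H ↪g paw) ∨ Nonempty (H ↪g diamond) := by
  classical
  have fA3 : ∀ a b c : W, a ≠ b → a ≠ c → b ≠ c → ¬ H.Adj a b → ¬ H.Adj a c → ¬ H.Adj b c →
      False := fun a b c h1 h2 h3 h4 h5 h6 => hA3 ⟨a, b, c, h1, h2, h3, h4, h5, h6⟩
  have fK4 : ∀ a b c d : W, H.Adj a b → H.Adj a c → H.Adj a d → H.Adj b c → H.Adj b d →
      H.Adj c d → False := by
    intro a b c d ab ac ad bc bd cd
    refine hQ4 ⟨![a, b, c, d], fun _ j => ![a, b, c, d] j,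
      inj4 ab.ne ac.ne ad.ne bc.ne bd.ne cd.ne, ?_, ?_, ?_⟩
    · intro i j hij
      fin_cases i <;> fin_cases j <;> first | exact absurd rfl hij | simp [*, H.adj_comm]
    · intro i j k _ _ h
      exact inj4 ab.ne ac.ne ad.ne bc.ne bd.ne cd.ne h
    · intro i j k _ _ _ _
      exact ⟨rfl, rfl⟩
  have fC4 : ∀ w x y z : W, H.Adj w x → H.Adj x y → H.Adj y z → H.Adj z w → ¬ H.Adj w y →
      ¬ H.Adj x z → w ≠ y → x ≠ z → False := by
    intro w x y z wx xy yz zw wy xz nwy nxz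
    refine hNS ⟨{w, x, y, z}, ⟨w, by simp⟩, ?_⟩
    intro s hs
    simp only [Set.mem_insert_iff, Set.mem_singleton_iff] at hs
    rcases hs with rfl | rfl | rfl | rfl
    · exact ⟨x, by simp, z, by simp, nxz, wx, zw.symm, xz⟩
    · exact ⟨w, by simp, y, by simp, nwy, wx.symm, xy, wy⟩
    · exact ⟨x, by simp, z, by simp, nxz, xy.symm, yz, xz⟩
    · exact ⟨w, by simp, y, by simp, nwy, zw, yz.symm, wy⟩
  have fE2 : ∀ w x y z : W, H.Adj w x → H.Adj y z → ¬ H.Adj w y → ¬ H.Adj w z → ¬ H.Adj x y →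
      ¬ H.Adj x z → w ≠ y → w ≠ z → x ≠ y → x ≠ z → False :=
    fun w x y z h1 h2 h3 h4 h5 h6 h7 h8 h9 h10 => hE2 ⟨w, x, y, z, h7, h8, h9, h10, h1, h2, h3, h4,
      h5, h6⟩
  have fCP : ∀ z a b c : W, H.Adj a b → H.Adj a c → H.Adj b c → ¬ H.Adj z a → ¬ H.Adj z b →
      ¬ H.Adj z c → z ≠ a → z ≠ b → z ≠ c → False := by
    intro z a b c ab ac bc za zb zc nza nzb nzc
    refine hCP ⟨z, {a, b, c}, ⟨a, by simp⟩, ?_, ?_⟩
    · intro s hs
      simp only [Set.mem_insert_iff, Set.mem_singleton_iff] at hs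
      rcases hs with rfl | rfl | rfl
      · exact ⟨nza.symm, za⟩
      · exact ⟨nzb.symm, zb⟩
      · exact ⟨nzc.symm, zc⟩
    · intro s hs
      simp only [Set.mem_insert_iff, Set.mem_singleton_iff] at hs
      rcases hs with rfl | rfl | rfl
      · exact ⟨b, by simp, c, by simp, bc.ne, ab, ac⟩
      · exact ⟨a, by simp, c, by simp, ac.ne, ab.symm, bc⟩
      · exact ⟨a, by simp, b, by simp, ab.ne, ac.symm, bc.symm⟩
  have fC5 : ∀ a b c d e : W, H.Adj a b → H.Adj b c → H.Adj c d → H.Adj d e → H.Adj e a →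
      ¬ H.Adj a c → ¬ H.Adj b d → ¬ H.Adj c e → ¬ H.Adj d a → ¬ H.Adj e b → a ≠ b → a ≠ c →
      a ≠ d → a ≠ e → b ≠ c → b ≠ d → b ≠ e → c ≠ d → c ≠ e → d ≠ e → False := by
    intro a b c d e ab bc cd de ea ac bd ce da eb nab nac nad nae nbc nbd nbe ncd nce nde
    refine hNS ⟨{a, b, c, d, e}, ⟨a, by simp⟩, ?_⟩
    intro s hs
    simp only [Set.mem_insert_iff, Set.mem_singleton_iff] at hs
    rcases hs with rfl | rfl | rfl | rfl | rfl
    · exact ⟨e, by simp, b, by simp, nbe.symm, ea.symm, ab, eb⟩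
    · exact ⟨a, by simp, c, by simp, nac, ab.symm, bc, ac⟩
    · exact ⟨b, by simp, d, by simp, nbd, bc.symm, cd, bd⟩
    · exact ⟨c, by simp, e, by simp, nce, cd.symm, de, ce⟩
    · exact ⟨d, by simp, a, by simp, nad.symm, de.symm, ea, da⟩
  have fD4 : ∀ w a b c d : W, H.Adj w a → H.Adj w b → H.Adj w c → H.Adj w d → a ≠ b → a ≠ c →
      a ≠ d → b ≠ c → b ≠ d → c ≠ d → False := by
    intro w a b c d wa wb wc wd h1 h2 h3 h4 h5 h6
    refine hD4 ⟨w, ![a, b, c, d], inj4 h1 h2 h3 h4 h5 h6, ?_⟩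
    intro i
    fin_cases i <;> assumption
  have := Fintype.ofFinite W
  have hg : ∀ n, n ≤ Nat.card W → ∃ g : Fin n → W, Function.Injective g := by
    intro n hn
    rw [Nat.card_eq_fintype_card] at hn
    have : Nonempty (Fin n ↪ W) := by
      rw [Function.Embedding.nonempty_iff_card_le]; simpa using hn
    obtain ⟨f⟩ := this
    exact ⟨f, f.injective⟩
  by_cases h5 : 5 ≤ Nat.card W
  · obtain ⟨g, hg⟩ := hg 5 h5
    exact (five_false fA3 fK4 fC4 fE2 fCP fC5 fD4 g hg).elim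
  obtain ⟨g, hg⟩ := hg (Nat.card W) le_rfl
  have hc : Nat.card W = 0 ∨ Nat.card W = 1 ∨ Nat.card W = 2 ∨ Nat.card W = 3 ∨
      Nat.card W = 4 := by omega
  have key : ∀ n (g : Fin n → W), Nat.card W = n → Function.Injective g → n = Nat.card W →
      Nonempty (H ↪g P4) ∨ Nonempty (H ↪g paw) ∨ Nonempty (H ↪g diamond) := by
    intro n g hcard hg hn
    have hn' : n = 0 ∨ n = 1 ∨ n = 2 ∨ n = 3 ∨ n = 4 := by omega
    rcases hn' with rfl | rfl | rfl | rfl | rfl
    · left
      exact emb_of' hcard P4 g hg Fin.elim0 (fun i => i.elim0) (fun i => i.elim0)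
    · left
      refine emb_of' hcard P4 g hg (fun _ => 0) (fun i j _ => Subsingleton.elim i j) ?_
      intro i j
      have : i = j := Subsingleton.elim i j
      subst this
      simp
    · left
      by_cases h01 : H.Adj (g 0) (g 1)
      · refine emb_of' hcard P4 g hg ![0, 1] (by decide) ?_
        have h10 := h01.symm
        intro i j
        fin_cases i <;> fin_cases j <;> simp [P4_adj, h01, h10]
      · refine emb_of' hcard P4 g hg ![0, 2] (by decide) ?_
        have h10 : ¬ H.Adj (g 1) (g 0) := fun h => h01 h.symm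
        intro i j
        fin_cases i <;> fin_cases j <;> simp [P4_adj, h01, h10]
    · have hne : ∀ i j : Fin 3, i ≠ j → g i ≠ g j := fun i j hij h => hij (hg h)
      by_cases h01 : H.Adj (g 0) (g 1) <;> by_cases h02 : H.Adj (g 0) (g 2) <;>
        by_cases h12 : H.Adj (g 1) (g 2) <;>
        (have h10 := h01; have h20 := h02; have h21 := h12; rw [H.adj_comm] at h10 h20 h21)
      · right; left
        refine emb_of' hcard paw g hg ![0, 1, 2] (by decide) ?_
        intro i j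
        fin_cases i <;> fin_cases j <;> simp [paw, SimpleGraph.fromRel_adj, h01, h02, h12, h10, h20, h21]
      · left
        refine emb_of' hcard P4 g hg ![1, 0, 2] (by decide) ?_
        intro i j
        fin_cases i <;> fin_cases j <;> simp [P4_adj, h01, h02, h12, h10, h20, h21]
      · left
        refine emb_of' hcard P4 g hg ![0, 1, 2] (by decide) ?_
        intro i j
        fin_cases i <;> fin_cases j <;> simp [P4_adj, h01, h02, h12, h10, h20, h21]
      · left
        refine emb_of' hcard P4 g hg ![0, 1, 3] (by decide) ?_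
        intro i j
        fin_cases i <;> fin_cases j <;> simp [P4_adj, h01, h02, h12, h10, h20, h21]
      · left
        refine emb_of' hcard P4 g hg ![0, 2, 1] (by decide) ?_
        intro i j
        fin_cases i <;> fin_cases j <;> simp [P4_adj, h01, h02, h12, h10, h20, h21]
      · left
        refine emb_of' hcard P4 g hg ![0, 3, 1] (by decide) ?_
        intro i j
        fin_cases i <;> fin_cases j <;> simp [P4_adj, h01, h02, h12, h10, h20, h21]
      · left
        refine emb_of' hcard P4 g hg ![3, 0, 1] (by decide) ?_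
        intro i j
        fin_cases i <;> fin_cases j <;> simp [P4_adj, h01, h02, h12, h10, h20, h21]
      · exact (fA3 _ _ _ (hne 0 1 (by decide)) (hne 0 2 (by decide)) (hne 1 2 (by decide)) h01 h02
          h12).elim
    · exact four_emb hcard fA3 fK4 fC4 fE2 fCP g hg
  exact key _ g rfl hg rfl

end

lemma exists_cwLE' {V : Type} [Finite V] [Nonempty V] (G : SimpleGraph V) : ∃ k, CwLE G k := by
  have : Fintype V := Fintype.ofFinite V
  have ht : Tame G (Fintype.card V) := ⟨Finset.univ, by simp, fun x hx => by simp at hx⟩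
  exact ⟨_, cwLE_of_dt (dt_of_tame ht)⟩

/-- a bounded class misses members of an unbounded family -/
lemma itm_of_unbounded {W : Type} {H : SimpleGraph W} (hb : BddITM H) {V : ℕ → Type}
    [∀ n, Finite (V n)] (fam : ∀ n, SimpleGraph (V n))
    (hu : ∀ c : ℕ, ∃ n, Nonempty (V n) ∧ ∀ k ≤ c, ¬ CwLE (fam n) k) : ∃ n, IsITM H (fam n) := by
  obtain ⟨c, hc⟩ := hb
  obtain ⟨n, hne, hk⟩ := hu c
  refine ⟨n, ?_⟩
  by_contra hno
  exact hk _ (hc (V n) (fam n) hno) (Nat.sInf_mem (s := {k | CwLE (fam n) k}) (exists_cwLE' (fam n)))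

theorem necessity {W : Type} [Finite W] (H : SimpleGraph W) (hb : BddITM H) :
    Nonempty (H ↪g P4) ∨ Nonempty (H ↪g paw) ∨ Nonempty (H ↪g diamond) := by
  apply classify H
  · intro h
    obtain ⟨n, hn⟩ := itm_of_unbounded hb famCobip (fun c => by
      obtain ⟨n, hn, h⟩ := famCobip_unbounded c 1
      exact ⟨n, ⟨.inl ⟨0, by omega⟩⟩, h⟩)
    exact cobip_not_A3 n (A3.itm hn h)
  · intro h
    obtain ⟨n, hn⟩ := itm_of_unbounded hb famSplit (fun c => by
      obtain ⟨n, hn, h⟩ := famSplit_unbounded c 1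
      exact ⟨n, ⟨.inl ⟨0, by omega⟩⟩, h⟩)
    exact split_not_E2 n (E2.itm hn h)
  · intro h
    obtain ⟨n, hn⟩ := itm_of_unbounded hb famSplit (fun c => by
      obtain ⟨n, hn, h⟩ := famSplit_unbounded c 1
      exact ⟨n, ⟨.inl ⟨0, by omega⟩⟩, h⟩)
    exact split_not_NS n (NS.itm hn h)
  · intro h
    obtain ⟨n, hn⟩ := itm_of_unbounded hb famTrunc (fun c => by
      obtain ⟨n, hn, h⟩ := famTrunc_unbounded c 2
      exact ⟨n, ⟨⟨(⟨0, by omega⟩, ⟨1, by omega⟩), by simp⟩⟩, h⟩)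
    exact trunc_not_CP n (CP.itm hn h)
  · intro h
    obtain ⟨n, hn⟩ := itm_of_unbounded hb tw (fun c => by
      obtain ⟨n, hn, h⟩ := tw_unbounded c
      exact ⟨n, ⟨(⟨0, by omega⟩, ⟨0, by omega⟩, 0)⟩, h⟩)
    exact tw_not_D4 n (D4.itm hn h)
  · intro h
    obtain ⟨n, hn⟩ := itm_of_unbounded hb tw (fun c => by
      obtain ⟨n, hn, h⟩ := tw_unbounded c
      exact ⟨n, ⟨(⟨0, by omega⟩, ⟨0, by omega⟩, 0)⟩, h⟩)
    exact tw_not_Q4 n (Q4.itm hn h)

end Pool.Agent.Q276.ITM
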