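import Pool.Agent.Q276.ITM.Blk
import Pool.Agent.Q276.ITM.Nec

/-! Reduction to 2-connected graphs for hereditary classes (after `H175R2.Blocks`), and the
classification. -/

namespace Pool.Agent.Q276.ITM

open Pool.Agent.H175R2 Finset Classical

/-- Reduction to 2-connected graphs. -/
theorem dt_of_blocks' (P : ∀ (V : Type), SimpleGraph V → Prop)
    (hP : ∀ (V : Type) (G : SimpleGraph V) (R : Finset V), P V G → P (H175R2.Sub R) (G.comap (emb R)))
    (K : ℕ)
    (h2 : ∀ (V : Type) [Fintype V] (G : SimpleGraph V), TwoConn G → P V G → DT G K univ univ) :
    ∀ (n : ℕ) (V : Type) [Fintype V] (G : SimpleGraph V), Fintype.card V ≤ n → Cn G univ →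
      P V G → DT G (K + 1) univ univ := by
  intro n
  induction n with
  | zero =>
    intro V _ G hn hc _
    obtain ⟨x, _⟩ := hc.1
    have := Fintype.card_pos_iff.2 ⟨x⟩
    omega
  | succ n ih =>
    intro V _ G hn hc hT
    obtain ⟨x0, _⟩ := hc.1
    by_cases h3 : 3 ≤ Fintype.card V
    · by_cases hcut : ∀ v, Cn G (univ.erase v)
      · exact (h2 V G ⟨h3, hc, hcut⟩ hT).mono (by omega)
      push Not at hcut
      obtain ⟨c0, hc0⟩ := hcut
      -- choose a smallest leaf
      have hex : ((univ : Finset (V × V)).filter (fun p => p.2 ≠ p.1 ∧ ¬ Cn G (univ.erase p.1))).Nonempty := by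
        have : 1 < Fintype.card V := by omega
        obtain ⟨y, hy⟩ := Fintype.exists_ne_of_one_lt_card this c0
        exact ⟨(c0, y), by simp [hy, hc0]⟩
      obtain ⟨⟨c, x⟩, hcx, hmin⟩ := exists_min_image _
        (fun p : V × V => (cpt G (univ.erase p.1) p.2).card) hex
      simp only [mem_filter, mem_univ, true_and] at hcx hmin
      obtain ⟨hxc, hcn⟩ := hcx
      have hxE : x ∈ univ.erase c := mem_erase.2 ⟨hxc, mem_univ _⟩
      set D := cpt G (univ.erase c) x with hD
      have hDc : Cn G D := cn_cpt hxE
      have hcD : c ∉ D := fun h => notMem_erase c univ (cpt_subset h)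
      have hDne : ∃ y, y ≠ c ∧ y ∉ D := by
        by_contra hcon
        push Not at hcon
        apply hcn
        apply cn_of_cpt_eq hxE
        apply subset_antisymm cpt_subset
        intro y hy
        exact hcon y (mem_erase.1 hy).1
      have hnb : ∀ a ∈ D, ∀ b, b ∉ D → G.Adj a b → b = c := by
        intro a ha b hb hab
        by_contra hbc
        exact not_adj_cpt hxE ha (mem_erase.2 ⟨hbc, mem_univ _⟩) hb hab
      have hcD' : Tc G {c} D := by
        obtain ⟨a, ha, b, hb, hab⟩ := hc.2 D (subset_univ _) hDc.1 ⟨c, by simp [hcD]⟩
        have := hnb a ha b (mem_sdiff.1 hb).2 hab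
        subst this
        exact ⟨b, by simp, a, ha, hab.symm⟩
      have hR1 : Cn G (D ∪ {c}) := hDc.union (Cn.singleton c) (Or.inl hcD'.symm)
      have hR2 : Cn G (univ \ D) := by
        have hcU : c ∈ univ \ D := by simp [hcD]
        apply cn_of_cpt_eq hcU
        apply subset_antisymm cpt_subset
        intro y hy
        by_contra hyc
        -- the component of y in `univ \ D` avoids c
        have hyU : y ∈ univ \ D := hy
        have hc' : c ∉ cpt G (univ \ D) y := by
          intro h
          apply hyc
          have := cpt_eq_of_mem hyU h
          rw [this]; exact mem_cpt_self hyU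
        obtain ⟨a, ha, b, hb, hab⟩ := hc.2 (cpt G (univ \ D) y) (subset_univ _)
          ⟨y, mem_cpt_self hyU⟩ ⟨c, by simp [hc']⟩
        have hbc := (mem_sdiff.1 hb).2
        by_cases hbD : b ∈ D
        · have haD : a ∉ D := by
            have := cpt_subset (G := G) ha
            simpa using this
          have := hnb b hbD a haD hab.symm
          subst this; exact hc' ha
        · exact not_adj_cpt hyU ha (by simp [hbD]) hbc hab
      have hsep : Sep G (D ∪ {c}) (univ \ D) c := by
        refine ⟨fun y => ?_, by simp, by simp [hcD], fun y h1 h2 => ?_, fun a ha b hb hab => ?_⟩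
        · simp only [mem_union, mem_singleton, mem_sdiff, mem_univ, true_and]; tauto
        · simp only [mem_union, mem_singleton, mem_sdiff, mem_univ, true_and] at h1 h2; tauto
        · simp only [mem_union, mem_singleton, mem_sdiff, mem_univ, true_and] at ha hb
          rcases ha with ha | ha
          · right; exact hnb a ha b hb hab
          · left; exact ha
      have hcardR2 : (univ \ D).card ≤ n := by
        have : (univ \ D).card < (univ : Finset V).card := card_lt_card (by
          refine ⟨sdiff_subset, fun h => ?_⟩
          obtain ⟨d, hd⟩ := hDc.1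
          exact (mem_sdiff.1 (h (mem_univ d))).2 hd)
        rw [card_univ] at this; omega
      have dtR2 : DT G (K + 1) (univ \ D) (univ \ D) := by
        have := ih (H175R2.Sub (univ \ D)) (G.comap (emb _)) (by
          rw [card_sub]; exact hcardR2) (by
            apply Cn.comap; rw [map_univ_sub]; exact hR2)
          (hP _ _ _ hT)
        have := this.map
        rwa [map_univ_sub] at this
      have dtR1 : DT G K (D ∪ {c}) (D ∪ {c}) := by
        by_cases hD1 : D.card ≤ 1
        · obtain ⟨d, hd⟩ := card_eq_one.1 (le_antisymm hD1 (card_pos.2 hDc.1))
          rw [hd]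
          refine DT.node ?_ (DT.leaf d) (DT.leaf c) ?_
          · rw [disjoint_singleton]
            rintro rfl; exact hcD (by rw [hd]; simp)
          · rw [nt_closed]
            · exact Nat.zero_le _
            · intro a _ z hz hz' _
              exact hz' hz
        · have hTwo : TwoConn (G.comap (emb (D ∪ {c}))) := by
            refine ⟨?_, ?_, ?_⟩
            · rw [card_sub, card_union_of_disjoint (by simpa using hcD)]
              simp; omega
            · apply Cn.comap; rw [map_univ_sub]; exact hR1
            · intro v'
              obtain ⟨v, hv, rfl⟩ : ∃ (v : V) (hv : v ∈ D ∪ {c}), v' = mkS v hv :=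
                ⟨emb _ v', emb_mem v', rfl⟩
              apply Cn.comap
              have e : ((univ : Finset (H175R2.Sub (D ∪ {c}))).erase (mkS v hv)).map
                  (emb (D ∪ {c})) = (D ∪ {c}).erase v := by
                ext z
                rw [mem_map, mem_erase]
                constructor
                · rintro ⟨u, h1, rfl⟩
                  rw [mem_erase] at h1
                  exact ⟨fun h => h1.1 (Subtype.ext h), emb_mem u⟩
                · rintro ⟨h1, h2⟩
                  refine ⟨mkS z h2, ?_, rfl⟩
                  rw [mem_erase]
                  exact ⟨fun h => h1 (congrArg (emb _) h), mem_univ _⟩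
              rw [e]
              by_cases hvc : v = c
              · subst hvc
                have : (D ∪ {v}).erase v = D := by
                  ext z; simp only [mem_erase, mem_union, mem_singleton]
                  constructor
                  · tauto
                  · intro hz; exact ⟨by rintro rfl; exact hcD hz, Or.inl hz⟩
                rw [this]; exact hDc
              · have hvD : v ∈ D := by
                  rcases mem_union.1 hv with h | h
                  · exact h
                  · exact absurd (mem_singleton.1 h) hvc
                have hcR : c ∈ (D ∪ {c}).erase v := mem_erase.2 ⟨Ne.symm hvc, by simp⟩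
                apply cn_of_cpt_eq hcR
                apply subset_antisymm cpt_subset
                intro y hy
                by_contra hyc
                have hc' : c ∉ cpt G ((D ∪ {c}).erase v) y := by
                  intro h
                  apply hyc
                  have := cpt_eq_of_mem hy h
                  rw [this]; exact mem_cpt_self hy
                set D' := cpt G ((D ∪ {c}).erase v) y with hD'
                have hyv : y ≠ v := (mem_erase.1 hy).1
                have hD'sub : D' ⊆ D.erase v := by
                  intro z hz
                  have h1 := mem_erase.1 (cpt_subset hz)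
                  refine mem_erase.2 ⟨h1.1, ?_⟩
                  rcases mem_union.1 h1.2 with h | h
                  · exact h
                  · rw [mem_singleton] at h; subst h; exact absurd hz hc'
                have hclosed : cpt G (univ.erase v) y ⊆ D' := by
                  by_contra hns
                  have hyE : y ∈ univ.erase v := mem_erase.2 ⟨hyv, mem_univ _⟩
                  have hDs : D' ⊆ cpt G (univ.erase v) y := by
                    apply subset_cpt _ (cn_cpt hy) (mem_cpt_self hy)
                    intro z hz
                    exact mem_erase.2 ⟨(mem_erase.1 (hD'sub hz)).1, mem_univ _⟩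
                  obtain ⟨a, ha, b, hb, hab⟩ := (cn_cpt hyE).2 D' hDs ⟨y, mem_cpt_self hy⟩ (by
                    rw [sdiff_nonempty]; exact hns)
                  obtain ⟨hb1, hb2⟩ := mem_sdiff.1 hb
                  have hbv : b ≠ v := (mem_erase.1 (cpt_subset hb1)).1
                  have haD := (mem_erase.1 (hD'sub ha)).2
                  have hbR : b ∈ D ∪ {c} := by
                    by_cases hbD : b ∈ D
                    · exact mem_union_left _ hbD
                    · have := hnb a haD b hbD hab
                      subst this; simp
                  exact not_adj_cpt hy ha (mem_erase.2 ⟨hbv, hbR⟩) hb2 hab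
                have := hmin (v, y) ⟨hyv, fun hcnv => by
                  have hyE : y ∈ univ.erase v := mem_erase.2 ⟨hyv, mem_univ _⟩
                  have h5 := hcnv.cpt_eq hyE
                  have h6 : c ∈ cpt G (univ.erase v) y := by
                    rw [h5]; exact mem_erase.2 ⟨Ne.symm hvc, mem_univ _⟩
                  exact hc' (hclosed h6)⟩
                simp only at this
                have h7 := (card_le_card hclosed).trans (card_le_card hD'sub)
                have h8 : (D.erase v).card < D.card := by
                  rw [card_erase_of_mem hvD]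
                  have := card_pos.2 ⟨v, hvD⟩
                  omega
                omega
          have := (h2 _ _ hTwo (hP _ _ _ hT)).map
          rwa [map_univ_sub] at this
      have h5 := hsep.dt2 (hsep.dt1 dtR1) dtR2 (Subset.refl _)
      rw [if_pos (by simp [hcD])] at h5
      have e : univ \ D ∪ (D ∪ {c}) = (univ : Finset V) := by
        ext z; simp only [mem_union, mem_sdiff, mem_univ, true_and, mem_singleton, iff_true]; tauto
      rwa [e] at h5
    · -- at most two vertices
      by_cases h1 : Fintype.card V ≤ 1
      · have : (univ : Finset V) = {x0} := by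
          apply (Finset.eq_singleton_iff_unique_mem).2 ⟨mem_univ _, fun y _ => ?_⟩
          exact Fintype.card_le_one_iff.1 h1 y x0
        rw [this]; exact DT.leaf x0
      · have h22 : (univ : Finset V).card = 2 := by rw [card_univ]; omega
        obtain ⟨a, b, hab, he⟩ := card_eq_two.1 h22
        have e : (univ : Finset V) = {a} ∪ {b} := by rw [he]; rfl
        have : DT G (K + 1) univ ({a} ∪ {b}) := by
          refine DT.node (by simpa using hab) (DT.leaf a) (DT.leaf b) ?_
          rw [← e, nt_closed]
          · exact Nat.zero_le _
          · intro a _ z hz hz' _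
            exact hz' hz
        rw [← e] at this; exact this

/-- hereditary classes whose 2-connected members are nice -/
theorem dt_hereditary (P : ∀ (V : Type), SimpleGraph V → Prop)
    (hP : ∀ (V : Type) (G : SimpleGraph V) (R : Finset V), P V G → P (H175R2.Sub R) (G.comap (emb R)))
    (h2 : ∀ (V : Type) [Fintype V] (G : SimpleGraph V), TwoConn G → P V G → Nice G)
    (V : Type) [Fintype V] [Nonempty V] (G : SimpleGraph V) (hG : P V G) : DT G 3 univ univ := by
  have hb : ∀ (V : Type) [Fintype V] (G : SimpleGraph V), TwoConn G → P V G → DT G 2 univ univ := by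
    intro V _ G hT hG
    have hne : (univ : Finset V).Nonempty := by
      rw [← card_pos, card_univ]
      have := hT.card
      omega
    apply dt_regions hne
    intro x hx
    rw [hT.conn.cpt_eq hx]
    rcases h2 V G hT hG with h | h
    · left
      intro y _
      exact h y
    · exact Or.inr h
  apply dt_of_components univ_nonempty
  intro x hx
  have h1 : DT G 3 (cpt G univ x) (cpt G univ x) := by
    have := dt_of_blocks' P hP 2 hb (Fintype.card (H175R2.Sub (cpt G univ x))) (H175R2.Sub (cpt G univ x))
      (G.comap (emb _)) le_rfl (by
        apply Cn.comap; rw [map_univ_sub]; exact cn_cpt hx) (hP _ _ _ hG)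
    have := this.map
    rwa [map_univ_sub] at this
  refine h1.transfer fun B hB hn => ?_
  have : nt G univ B = nt G (cpt G univ x) B := by
    unfold nt
    congr 2
    apply image_congr
    intro y hy
    ext z
    simp only [mem_on]
    constructor
    · rintro ⟨⟨h1, h2⟩, h3⟩
      refine ⟨⟨?_, h2⟩, h3⟩
      by_contra hz
      exact not_adj_cpt hx (hB hy) h1 hz h3
    · rintro ⟨⟨h1, h2⟩, h3⟩
      exact ⟨⟨cpt_subset h1, h2⟩, h3⟩
  rw [this]; exact hn

/-- the empty graph has clique-width `0` under our conventions -/
lemma cliqueWidth_empty {V : Type} [IsEmpty V] (G : SimpleGraph V) : cliqueWidth G = 0 := by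
  unfold cliqueWidth
  have : {k | CwLE G k} = ∅ := by
    ext k
    simp only [Set.mem_ofPred_eq, Set.mem_empty_iff_false, iff_false]
    rintro ⟨W, G', l, hb, ⟨e⟩⟩
    have : Nonempty W := by
      clear e
      induction hb with
      | single i => exact ⟨()⟩
      | union V W G H l m _ _ ih _ => obtain ⟨x⟩ := ih; exact ⟨Sum.inl x⟩
      | join V G l i j hij _ ih => exact ih
      | relabel V G l i j _ ih => exact ih
    obtain ⟨x⟩ := this
    exact IsEmpty.false (e.symm x)
  rw [this]; exact Nat.sInf_empty

theorem bdd_of_nice {W : Type} (H : SimpleGraph W)
    (h2 : ∀ (V : Type) [Fintype V] (G : SimpleGraph V), TwoConn G → ¬ IsITM H G → Nice G) :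
    BddITM H := by
  refine ⟨12, fun V _ G hG => ?_⟩
  have := Fintype.ofFinite V
  by_cases hne : Nonempty V
  · have := dt_hereditary (fun V G => ¬ IsITM H G) (fun V G R hG hR => hG
      (hR.of_embedding ⟨emb R, Iff.rfl⟩)) h2 V G hG
    exact cliqueWidth_le_of_dt this
  · rw [not_nonempty_iff] at hne
    rw [cliqueWidth_empty]
    omega

theorem bdd_P4 : BddITM P4 := by
  apply bdd_of_nice
  intro V _ G _ hG
  right
  intro a _ b _ c _ d _ hac had hbd hab hbc hcd
  by_contra hcon
  push Not at hcon
  obtain ⟨h1, h2, h3⟩ := hcon
  apply hG
  refine isITM_of_sub (.iso SimpleGraph.Iso.refl) ⟨⟨![a, b, c, d], inj4 hab.ne hac had hbc.ne hbd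
    hcd.ne⟩, ?_⟩
  have h1' : ¬ G.Adj c a := fun h => h1 h.symm
  have h2' : ¬ G.Adj d a := fun h => h2 h.symm
  have h3' : ¬ G.Adj d b := fun h => h3 h.symm
  intro i j
  rw [P4_adj]
  fin_cases i <;> fin_cases j <;> simp [hab, hbc, hcd, hab.symm, hbc.symm, hcd.symm, h1, h2, h3,
    h1', h2', h3']

/-- Classification: for a finite graph `H`, the `H`-induced-topological-minor-free graphs have
bounded clique-width if and only if `H` is an induced subgraph of `P₄`, the paw or the diamond. -/
theorem classification {W : Type} [Finite W] (H : SimpleGraph W) :
    BddITM H ↔ (Nonempty (H ↪g P4) ∨ Nonempty (H ↪g paw) ∨ Nonempty (H ↪g diamond)) := by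
  constructor
  · exact necessity H
  · rintro (h | h | h) <;> obtain ⟨f⟩ := h
    · exact bdd_P4.mono f
    · exact (bdd_of_nice paw fun V _ G h hno => paw_nice h hno).mono f
    · exact (bdd_of_nice diamond fun V _ G h hno => diamond_nice h hno).mono f

end Pool.Agent.Q276.ITM
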