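import Pool.Agent.Q276.ITM.Smooth
import Pool.Agent.H175R2.Blocks

/-! Shortest walks, fans, induced cycles and ears. -/

namespace Pool.Agent.Q276.ITM

open Pool.Agent.H175R2

section
variable {V : Type}

/-- shortest walks are induced paths -/
lemma exists_min (R : V → V → Prop) (P : V → V → Prop)
    (h : ∃ (m : ℕ) (f : ℕ → V), (∀ i < m, R (f i) (f (i + 1))) ∧ P (f 0) (f m)) :
    ∃ (m : ℕ) (f : ℕ → V), (∀ i < m, R (f i) (f (i + 1))) ∧ P (f 0) (f m) ∧
      (∀ i j, i < j → j ≤ m → f i ≠ f j) ∧ (∀ i j, i < j → j ≤ m → R (f i) (f j) → j = i + 1) ∧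
      (∀ (n : ℕ) (g : ℕ → V), (∀ i < n, R (g i) (g (i + 1))) → P (g 0) (g n) → m ≤ n) := by
  classical
  have hmin : ∀ (n : ℕ) (g : ℕ → V), (∀ i < n, R (g i) (g (i + 1))) → P (g 0) (g n) →
      Nat.find h ≤ n := fun n g h1 h2 => Nat.find_min' h ⟨g, h1, h2⟩
  obtain ⟨f, hf, hP⟩ := Nat.find_spec h
  refine ⟨Nat.find h, f, hf, hP, ?_, ?_, hmin⟩
  · intro i j hij hj heq
    have := hmin (Nat.find h - (j - i)) (fun k => if k ≤ i then f k else f (k + (j - i))) ?_ ?_
    · omega
    · intro k hk
      by_cases h1 : k + 1 ≤ i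
      · simp only [h1, if_true, show k ≤ i by omega]
        exact hf k (by omega)
      · by_cases h2 : k ≤ i
        · have h3 : k = i := by omega
          simp only [h1, if_false, h2, if_true]
          have := hf (k + (j - i)) (by omega)
          rw [show k + (j - i) = j by omega, ← heq, ← h3] at this
          rw [show k + 1 + (j - i) = j + 1 by omega]
          exact this
        · simp only [h1, if_false, h2]
          have := hf (k + (j - i)) (by omega)
          rw [show k + 1 + (j - i) = k + (j - i) + 1 by omega]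
          exact this
    · simp only [Nat.zero_le, if_true]
      by_cases h1 : Nat.find h - (j - i) ≤ i
      · simp only [h1, if_true]
        have : Nat.find h - (j - i) = i := by omega
        rw [this, heq]
        have h3 : j = Nat.find h := by omega
        rw [h3]; exact hP
      · simp only [h1, if_false]
        rw [show Nat.find h - (j - i) + (j - i) = Nat.find h by omega]
        exact hP
  · intro i j hij hj hR
    by_contra hne
    have := hmin (Nat.find h - (j - i - 1))
      (fun k => if k ≤ i then f k else f (k + (j - i - 1))) ?_ ?_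
    · omega
    · intro k hk
      by_cases h1 : k + 1 ≤ i
      · simp only [h1, if_true, show k ≤ i by omega]
        exact hf k (by omega)
      · by_cases h2 : k ≤ i
        · have h3 : k = i := by omega
          simp only [h1, if_false, h2, if_true]
          rw [show k + 1 + (j - i - 1) = j by omega, h3]
          exact hR
        · simp only [h1, if_false, h2]
          have := hf (k + (j - i - 1)) (by omega)
          rw [show k + 1 + (j - i - 1) = k + (j - i - 1) + 1 by omega]
          exact this
    · simp only [Nat.zero_le, if_true]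
      have h1 : ¬ Nat.find h - (j - i - 1) ≤ i := by omega
      simp only [h1, if_false]
      rw [show Nat.find h - (j - i - 1) + (j - i - 1) = Nat.find h by omega]
      exact hP

/-- connected sets contain walks -/
lemma walk_of_cn {G : SimpleGraph V} {S : Finset V} (h : Cn G S) {x y : V} (hx : x ∈ S)
    (hy : y ∈ S) : ∃ (m : ℕ) (f : ℕ → V), (∀ i < m, G.Adj (f i) (f (i + 1)) ∧ f i ∈ S ∧
      f (i + 1) ∈ S) ∧ f 0 = x ∧ f m = y := by
  classical
  by_contra hno
  obtain ⟨a, ha, b, hb, hab⟩ := h.2 (S.filter (fun z => ∃ (m : ℕ) (f : ℕ → V),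
    (∀ i < m, G.Adj (f i) (f (i + 1)) ∧ f i ∈ S ∧ f (i + 1) ∈ S) ∧ f 0 = x ∧ f m = z))
    (Finset.filter_subset _ _) ⟨x, by
      rw [Finset.mem_filter]
      exact ⟨hx, 0, fun _ => x, fun i hi => by omega, rfl, rfl⟩⟩ ⟨y, by
      rw [Finset.mem_sdiff, Finset.mem_filter]
      exact ⟨hy, fun h' => hno h'.2⟩⟩
  rw [Finset.mem_filter] at ha
  rw [Finset.mem_sdiff, Finset.mem_filter] at hb
  obtain ⟨haS, m, f, hf, h0, hm⟩ := ha
  apply hb.2
  refine ⟨hb.1, m + 1, fun k => if k ≤ m then f k else b, ?_, ?_, ?_⟩
  · intro i hi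
    by_cases h1 : i + 1 ≤ m
    · simp only [h1, if_true, show i ≤ m by omega]
      exact hf i (by omega)
    · have : i = m := by omega
      subst this
      simp only [le_refl, if_true, h1, if_false, hm]
      exact ⟨hab, haS, hb.1⟩
  · simp [h0]
  · simp

/-- an induced path `q 0, …, q m` -/
structure IP (G : SimpleGraph V) (q : ℕ → V) (m : ℕ) : Prop where
  inj : ∀ i j, i ≤ m → j ≤ m → q i = q j → i = j
  adj : ∀ i j, i ≤ m → j ≤ m → (G.Adj (q i) (q j) ↔ i + 1 = j ∨ j + 1 = i)

/-- the fan lemma -/
lemma fan {G : SimpleGraph V} {q : ℕ → V} {m : ℕ} (h : IP G q m) {x : V}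
    (hx : ∀ i ≤ m, q i ≠ x) {i j k : ℕ} (hij : i < j) (hjk : j < k) (hk : k ≤ m)
    (hi' : G.Adj x (q i)) (hj' : G.Adj x (q j)) (hk' : G.Adj x (q k)) : IsITM diamond G := by
  classical
  -- the last neighbour before `j`
  obtain ⟨a, ha1, ha2, ha3⟩ : ∃ a < j, G.Adj x (q a) ∧ ∀ b, a < b → b < j → ¬ G.Adj x (q b) := by
    have hex : ∃ a, G.Adj x (q (j - 1 - a)) ∧ a < j := ⟨j - 1 - i, by
      rw [show j - 1 - (j - 1 - i) = i by omega]; exact hi', by omega⟩
    refine ⟨j - 1 - Nat.find hex, by omega, (Nat.find_spec hex).1, fun b hb hbj hadj => ?_⟩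
    have := Nat.find_min' hex (m := j - 1 - b) ⟨by
      rw [show j - 1 - (j - 1 - b) = b by omega]; exact hadj, by omega⟩
    have := (Nat.find_spec hex).2
    omega
  obtain ⟨c, hc1, hcm, hc2, hc3⟩ : ∃ c, j < c ∧ c ≤ m ∧ G.Adj x (q c) ∧
      ∀ b, j < b → b < c → ¬ G.Adj x (q b) := by
    have hex : ∃ c, j < c ∧ G.Adj x (q c) := ⟨k, hjk, hk'⟩
    have := Nat.find_min' hex ⟨hjk, hk'⟩
    refine ⟨Nat.find hex, (Nat.find_spec hex).1, by omega, (Nat.find_spec hex).2,
      fun b hb hbc hadj => ?_⟩
    have := Nat.find_min' hex ⟨hb, hadj⟩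
    omega
  have hT : Th G x (q j) ![fun _ => x, fun t => q (a + t), fun t => q (c - t)] ![0, j - a, c - j] := by
    refine ⟨(hx j (by omega)).symm, ?_, ?_, ?_, ?_, ?_, ?_, ?_, ?_⟩
    · intro k i hi
      fin_cases k
      · simp at hi
      · exact hx _ (by simp at hi; omega)
      · exact hx _ (by simp at hi; omega)
    · intro k i hi
      fin_cases k
      · simp at hi
      · intro heq
        have := h.inj _ _ (by simp at hi; omega) (by omega) heq
        simp at hi; omega
      · intro heq
        have := h.inj _ _ (by simp at hi; omega) (by omega) heq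
        simp at hi; omega
    · intro k i k' i' hi hi' heq
      fin_cases k <;> fin_cases k' <;> simp at hi hi' heq <;>
        (have h1 := h.inj _ _ (by omega) (by omega) heq
         first | exact ⟨rfl, by omega⟩ | omega)
    · intro k i k' i' hi hi'
      fin_cases k <;> fin_cases k' <;> simp at hi hi' ⊢ <;>
        (rw [h.adj _ _ (by omega) (by omega)]; omega)
    · intro k i hi
      fin_cases k
      · simp at hi
      · simp at hi ⊢
        constructor
        · intro hadj
          by_contra hne
          exact ha3 _ (by omega) (by omega) hadj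
        · rintro rfl; exact ha2
      · simp at hi ⊢
        constructor
        · intro hadj
          by_contra hne
          exact hc3 _ (by omega) (by omega) hadj
        · rintro rfl; exact hc2
    · intro k i hi
      fin_cases k
      · simp at hi
      · simp at hi ⊢
        rw [h.adj _ _ (by omega) (by omega)]; omega
      · simp at hi ⊢
        rw [h.adj _ _ (by omega) (by omega)]; omega
    · exact iff_of_true hj' ⟨0, rfl⟩
    · intro k k' h1 h2
      fin_cases k <;> fin_cases k' <;> simp at h1 h2 ⊢ <;> omega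
  exact hT.itm

/-- an induced cycle `v, q 0, …, q m` -/
structure IC (G : SimpleGraph V) (v : V) (q : ℕ → V) (m : ℕ) : Prop where
  ip : IP G q m
  qv : ∀ i ≤ m, q i ≠ v
  adjv : ∀ i ≤ m, (G.Adj v (q i) ↔ i = 0 ∨ i = m)

/-- an ear whose ends have a unique attachment -/
lemma ear {G : SimpleGraph V} {v : V} {q : ℕ → V} {m : ℕ} (h : IC G v q m) (hm : 1 ≤ m) {s : ℕ}
    (hs : s ≤ m) {f : ℕ → V} {L : ℕ} (hL : 1 ≤ L) (fv : ∀ i < L, f i ≠ v)
    (fq : ∀ i < L, ∀ j ≤ m, f i ≠ q j) (finj : ∀ i < L, ∀ j < L, f i = f j → i = j)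
    (fadj : ∀ i < L, ∀ j < L, (G.Adj (f i) (f j) ↔ i + 1 = j ∨ j + 1 = i))
    (fadjv : ∀ i < L, (G.Adj v (f i) ↔ i = 0))
    (fadjq : ∀ i < L, ∀ j ≤ m, (G.Adj (q j) (f i) ↔ i + 1 = L ∧ j = s)) : IsITM diamond G := by
  have hT : Th G v (q s) ![fun t => q t, fun t => q (m - t), f] ![s, m - s, L] := by
    refine ⟨(h.qv s hs).symm, ?_, ?_, ?_, ?_, ?_, ?_, ?_, ?_⟩
    · intro k i hi
      fin_cases k
      · exact h.qv _ (by simp at hi; omega)
      · exact h.qv _ (by simp at hi; omega)
      · exact fv _ hi
    · intro k i hi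
      fin_cases k
      · intro heq
        have := h.ip.inj _ _ (by simp at hi; omega) (by omega) heq
        simp at hi; omega
      · intro heq
        have := h.ip.inj _ _ (by simp at hi; omega) (by omega) heq
        simp at hi; omega
      · exact fq _ hi _ hs
    · intro k i k' i' hi hi' heq
      fin_cases k <;> fin_cases k' <;> simp at hi hi' heq
      · exact ⟨rfl, h.ip.inj _ _ (by omega) (by omega) heq⟩
      · have := h.ip.inj _ _ (by omega) (by omega) heq; omega
      · exact absurd heq.symm (fq _ hi' _ (by omega))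
      · have := h.ip.inj _ _ (by omega) (by omega) heq; omega
      · have := h.ip.inj _ _ (by omega) (by omega) heq; exact ⟨rfl, by omega⟩
      · exact absurd heq.symm (fq _ hi' _ (by omega))
      · exact absurd heq (fq _ hi _ (by omega))
      · exact absurd heq (fq _ hi _ (by omega))
      · exact ⟨rfl, finj _ hi _ hi' heq⟩
    · intro k i k' i' hi hi'
      fin_cases k <;> fin_cases k' <;> simp at hi hi' ⊢
      · rw [h.ip.adj _ _ (by omega) (by omega)]
      · rw [h.ip.adj _ _ (by omega) (by omega)]; omega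
      · rw [fadjq _ hi' _ (by omega)]; omega
      · rw [h.ip.adj _ _ (by omega) (by omega)]; omega
      · rw [h.ip.adj _ _ (by omega) (by omega)]; omega
      · rw [fadjq _ hi' _ (by omega)]; omega
      · rw [G.adj_comm, fadjq _ hi _ (by omega)]; omega
      · rw [G.adj_comm, fadjq _ hi _ (by omega)]; omega
      · exact fadj _ hi _ hi'
    · intro k i hi
      fin_cases k
      · simp at hi ⊢
        rw [h.adjv _ (by omega)]; omega
      · simp at hi ⊢
        rw [h.adjv _ (by omega)]; omega
      · exact fadjv _ hi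
    · intro k i hi
      fin_cases k
      · simp at hi ⊢
        rw [h.ip.adj _ _ (by omega) (by omega)]; omega
      · simp at hi ⊢
        rw [h.ip.adj _ _ (by omega) (by omega)]; omega
      · simp at hi ⊢
        rw [fadjq _ hi _ hs]; simp
    · rw [h.adjv _ hs]
      constructor
      · rintro (h1 | h1)
        · exact ⟨0, h1⟩
        · exact ⟨1, by simp; omega⟩
      · rintro ⟨k, hk⟩
        fin_cases k <;> simp at hk <;> omega
    · intro k k' h1 h2
      fin_cases k <;> fin_cases k' <;> simp at h1 h2 ⊢ <;> omega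
  exact hT.itm

/-- one rotation step -/
lemma IC.rot1 {G : SimpleGraph V} {v : V} {q : ℕ → V} {m : ℕ} (h : IC G v q m) (hm : 1 ≤ m) :
    IC G (q 0) (fun i => if i < m then q (i + 1) else v) m := by
  have e1 : ∀ i, i < m → (if i < m then q (i + 1) else v) = q (i + 1) := fun i hi => if_pos hi
  have e2 : (if m < m then q (m + 1) else v) = v := if_neg (lt_irrefl m)
  refine ⟨⟨?_, ?_⟩, ?_, ?_⟩
  · intro i j hi hj heq
    rcases Nat.lt_or_ge i m with hi' | hi' <;> rcases Nat.lt_or_ge j m with hj' | hj'
    · simp only [hi', hj', if_true] at heq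
      have := h.ip.inj _ _ (by omega) (by omega) heq
      omega
    · simp only [hi', if_true, show ¬ j < m by omega, if_false] at heq
      exact absurd heq (h.qv _ (by omega))
    · simp only [hj', if_true, show ¬ i < m by omega, if_false] at heq
      exact absurd heq.symm (h.qv _ (by omega))
    · omega
  · intro i j hi hj
    rcases Nat.lt_or_ge i m with hi' | hi' <;> rcases Nat.lt_or_ge j m with hj' | hj'
    · simp only [hi', hj', if_true]
      rw [h.ip.adj _ _ (by omega) (by omega)]; omega
    · simp only [hi', if_true, show ¬ j < m by omega, if_false]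
      rw [G.adj_comm, h.adjv _ (by omega)]; omega
    · simp only [hj', if_true, show ¬ i < m by omega, if_false]
      rw [h.adjv _ (by omega)]; omega
    · have : i = j := by omega
      subst this
      simp
  · intro i hi heq
    rcases Nat.lt_or_ge i m with hi' | hi'
    · simp only [hi', if_true] at heq
      have := h.ip.inj _ _ (by omega) (by omega) heq
      omega
    · simp only [show ¬ i < m by omega, if_false] at heq
      exact h.qv 0 (by omega) heq.symm
  · intro i hi
    rcases Nat.lt_or_ge i m with hi' | hi'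
    · simp only [hi', if_true]
      rw [h.ip.adj _ _ (by omega) (by omega)]; omega
    · simp only [show ¬ i < m by omega, if_false]
      rw [G.adj_comm, h.adjv _ (by omega)]; omega

/-- rotation -/
lemma IC.rot {G : SimpleGraph V} {m : ℕ} (hm : 1 ≤ m) : ∀ (s : ℕ) {v : V} {q : ℕ → V},
    IC G v q m → s ≤ m → ∃ q', IC G (q s) q' m ∧
      ∀ x, (x = q s ∨ ∃ i ≤ m, x = q' i) ↔ (x = v ∨ ∃ i ≤ m, x = q i) := by
  have step : ∀ {v : V} {q : ℕ → V}, ∀ x, (x = q 0 ∨ ∃ i ≤ m, x =
      (fun i => if i < m then q (i + 1) else v) i) ↔ (x = v ∨ ∃ i ≤ m, x = q i) := by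
    intro v q x
    constructor
    · rintro (rfl | ⟨i, hi, rfl⟩)
      · exact Or.inr ⟨0, by omega, rfl⟩
      · rcases Nat.lt_or_ge i m with hi' | hi'
        · right; exact ⟨i + 1, by omega, by simp [hi']⟩
        · left; simp [show ¬ i < m by omega]
    · rintro (rfl | ⟨i, hi, rfl⟩)
      · right; exact ⟨m, le_rfl, by simp⟩
      · rcases Nat.eq_zero_or_pos i with rfl | hi'
        · left; rfl
        · right; exact ⟨i - 1, by omega, by simp [show i - 1 < m by omega, show i - 1 + 1 = i by omega]⟩
  intro s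
  induction s with
  | zero =>
    intro v q h _
    exact ⟨_, h.rot1 hm, step⟩
  | succ s ih =>
    intro v q h hs
    obtain ⟨q', h1, h2⟩ := ih (h.rot1 hm) (by omega)
    simp only [show s < m by omega, if_true] at h1 h2
    exact ⟨q', h1, fun x => (h2 x).trans (step x)⟩

/-- a vertex with two neighbours on an induced cycle of length at least four -/
lemma two_nbrs {G : SimpleGraph V} {v : V} {q : ℕ → V} {m : ℕ} (h : IC G v q m) (hm : 2 ≤ m)
    {y : V} (yv : y ≠ v) (yq : ∀ i ≤ m, y ≠ q i) {a b : V} (ha : a = v ∨ ∃ i ≤ m, a = q i)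
    (hb : b = v ∨ ∃ i ≤ m, b = q i) (hab : a ≠ b) (hya : G.Adj y a) (hyb : G.Adj y b) :
    IsITM diamond G := by
  classical
  by_cases hall : G.Adj y v ∧ ∀ i ≤ m, G.Adj y (q i)
  · have h0 := hall.2 0 (by omega)
    have h1 := hall.2 m le_rfl
    have h2 : IP G (fun i => if i = 0 then q 0 else if i = 1 then v else q m) 2 := by
      constructor
      · intro i j hi hj
        have hi' : i = 0 ∨ i = 1 ∨ i = 2 := by omega
        have hj' : j = 0 ∨ j = 1 ∨ j = 2 := by omega
        have e1 := h.qv 0 (by omega)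
        have e2 := h.qv m le_rfl
        have e3 : q 0 ≠ q m := fun h' => by have := h.ip.inj _ _ (by omega) le_rfl h'; omega
        rcases hi' with rfl | rfl | rfl <;> rcases hj' with rfl | rfl | rfl <;>
          simp [e1, e2, e3, e1.symm, e2.symm, e3.symm]
      · intro i j hi hj
        have hi' : i = 0 ∨ i = 1 ∨ i = 2 := by omega
        have hj' : j = 0 ∨ j = 1 ∨ j = 2 := by omega
        have e1 := (h.adjv 0 (by omega)).2 (by omega)
        have e2 := (h.adjv m (by omega)).2 (by omega)
        have e3 : ¬ G.Adj (q 0) (q m) := by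
          rw [h.ip.adj _ _ (by omega) (by omega)]; omega
        have e3' : ¬ G.Adj (q m) (q 0) := fun h' => e3 h'.symm
        rcases hi' with rfl | rfl | rfl <;> rcases hj' with rfl | rfl | rfl <;>
          simp [e1, e2, e3, e3', e1.symm, e2.symm]
    refine fan h2 (x := y) ?_ (i := 0) (j := 1) (k := 2) (by omega) (by omega) le_rfl ?_ ?_ ?_
    · intro i hi
      have hi' : i = 0 ∨ i = 1 ∨ i = 2 := by omega
      rcases hi' with rfl | rfl | rfl
      · exact (yq 0 (by omega)).symm
      · exact yv.symm
      · exact (yq m le_rfl).symm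
    · exact h0
    · exact hall.1
    · exact h1
  · -- an apex not adjacent to `y`
    obtain ⟨c, q', hc, hcq, hset⟩ : ∃ c q', IC G c q' m ∧ ¬ G.Adj y c ∧
        ∀ x, (x = c ∨ ∃ i ≤ m, x = q' i) ↔ (x = v ∨ ∃ i ≤ m, x = q i) := by
      by_cases hyv : G.Adj y v
      · have : ∃ i ≤ m, ¬ G.Adj y (q i) := by
          by_contra hcon
          push Not at hcon
          exact hall ⟨hyv, hcon⟩
        obtain ⟨i, hi, hyi⟩ := this
        obtain ⟨q', h1, h2⟩ := IC.rot (by omega) i h hi
        exact ⟨q i, q', h1, hyi, h2⟩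
      · exact ⟨v, q, h, hyv, fun x => Iff.rfl⟩
    have hout : ∀ x, (x = c ∨ ∃ i ≤ m, x = q' i) → y ≠ x := by
      intro x hx
      rw [hset] at hx
      rcases hx with rfl | ⟨i, hi, rfl⟩
      · exact yv
      · exact yq i hi
    rw [← hset] at ha hb
    obtain ⟨i, hi, rfl⟩ := ha.resolve_left (fun h' => hcq (h' ▸ hya))
    obtain ⟨j, hj, rfl⟩ := hb.resolve_left (fun h' => hcq (h' ▸ hyb))
    have hij : i ≠ j := fun h' => hab (by rw [h'])
    by_cases h3 : ∃ k ≤ m, k ≠ i ∧ k ≠ j ∧ G.Adj y (q' k)
    · obtain ⟨k, hk, hki, hkj, hyk⟩ := h3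
      have hx : ∀ i ≤ m, q' i ≠ y := fun i hi => (hout _ (Or.inr ⟨i, hi, rfl⟩)).symm
      rcases lt_or_gt_of_ne hij with h1 | h1 <;> rcases lt_or_gt_of_ne hki with h2 | h2 <;>
        rcases lt_or_gt_of_ne hkj with h3 | h3
      · exact fan hc.ip hx h2 h1 hj hyk hya hyb
      · omega
      · exact fan hc.ip hx h2 h3 hj hya hyk hyb
      · exact fan hc.ip hx h1 h3 hk hya hyb hyk
      · exact fan hc.ip hx h3 h1 hi hyk hyb hya
      · exact fan hc.ip hx h3 h2 hi hyb hyk hya
      · omega
      · exact fan hc.ip hx h1 h2 hk hyb hya hyk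
    · push Not at h3
      obtain ⟨q'', h1, h2⟩ := IC.rot (by omega) i hc hi
      have hj2 : ∃ s ≤ m, q' j = q'' s := by
        have := (h2 (q' j)).2 (Or.inr ⟨j, hj, rfl⟩)
        rcases this with h' | h'
        · exact absurd (hc.ip.inj _ _ hj hi h').symm hij
        · exact h'
      obtain ⟨s, hs, hjs⟩ := hj2
      have hout2 : ∀ l ≤ m, y ≠ q'' l := fun l hl =>
        hout _ ((h2 _).1 (Or.inr ⟨l, hl, rfl⟩))
      refine ear h1 (by omega) hs (f := fun _ => y) (L := 1) le_rfl ?_ ?_ ?_ ?_ ?_ ?_
      · intro _ _; exact hout _ (Or.inr ⟨i, hi, rfl⟩)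
      · intro _ _ l hl; exact hout2 l hl
      · intro a ha b hb _; omega
      · intro a ha b hb
        simp; omega
      · intro a ha
        exact iff_of_true hya.symm (by omega)
      · intro a ha l hl
        constructor
        · intro hadj
          refine ⟨by omega, ?_⟩
          by_contra hne
          rcases (h2 (q'' l)).1 (Or.inr ⟨l, hl, rfl⟩) with h' | ⟨k, hk, h'⟩
          · rw [h'] at hadj; exact hcq hadj.symm
          · rw [h'] at hadj
            have hki : k ≠ i := by
              rintro rfl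
              exact h1.qv l hl h'
            have hkj : k ≠ j := by
              rintro rfl
              rw [hjs] at h'
              exact hne (h1.ip.inj _ _ hl hs h')
            exact h3 k hk hki hkj hadj.symm
        · rintro ⟨_, rfl⟩
          rw [← hjs]; exact hyb.symm

end

end Pool.Agent.Q276.ITM
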