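import Pool.Agent.Q276.ITM.Chk

/-! Graphs without the forbidden configurations embed in `P₄`, the paw or the diamond. -/

namespace Pool.Agent.Q276.ITM

open Pool.Agent.H175R2

variable {W : Type} {H : SimpleGraph W}

/-- embedding from a complete enumeration -/
lemma emb_of {W : Type} {H : SimpleGraph W} [Finite W] {n : ℕ} (hcard : Nat.card W = n) (T : SimpleGraph (Fin n)) (g : Fin n → W)
    (hg : Function.Injective g) (h : ∀ i j, H.Adj (g i) (g j) ↔ T.Adj i j) :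
    Nonempty (H ↪g T) := by
  have hb : Function.Bijective g := by
    have := Fintype.ofFinite W
    rw [Fintype.bijective_iff_injective_and_card]
    refine ⟨hg, ?_⟩
    rw [← hcard, Nat.card_eq_fintype_card, Fintype.card_fin]
  let e := Equiv.ofBijective g hb
  refine ⟨⟨e.symm.toEmbedding, ?_⟩⟩
  intro x y
  simp only [Equiv.coe_toEmbedding]
  rw [← h]
  show H.Adj (e (e.symm x)) (e (e.symm y)) ↔ _
  simp

lemma inj4 {a b c d : W} (h1 : a ≠ b) (h2 : a ≠ c) (h3 : a ≠ d) (h4 : b ≠ c) (h5 : b ≠ d)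
    (h6 : c ≠ d) : Function.Injective ![a, b, c, d] := by
  intro i j hij
  fin_cases i <;> fin_cases j <;> simp_all

lemma emb_P4 [Finite W] (hcard : Nat.card W = 4) (a b c d : W) (h1 : a ≠ b) (h2 : a ≠ c)
    (h3 : a ≠ d) (h4 : b ≠ c) (h5 : b ≠ d) (h6 : c ≠ d) (ab : H.Adj a b) (bc : H.Adj b c)
    (cd : H.Adj c d) (ac : ¬ H.Adj a c) (ad : ¬ H.Adj a d) (bd : ¬ H.Adj b d) :
    Nonempty (H ↪g P4) := by
  refine emb_of hcard P4 ![a, b, c, d] (inj4 h1 h2 h3 h4 h5 h6) ?_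
  have ac' : ¬ H.Adj c a := fun k => ac k.symm
  have ad' : ¬ H.Adj d a := fun k => ad k.symm
  have bd' : ¬ H.Adj d b := fun k => bd k.symm
  intro i j
  fin_cases i <;> fin_cases j <;>
    simp [P4, SimpleGraph.fromRel_adj, ab, bc, cd, ab.symm, bc.symm, cd.symm, ac, ad, bd, ac',
      ad', bd']

lemma emb_paw [Finite W] (hcard : Nat.card W = 4) (a b c d : W) (h1 : a ≠ b) (h2 : a ≠ c)
    (h3 : a ≠ d) (h4 : b ≠ c) (h5 : b ≠ d) (h6 : c ≠ d) (ab : H.Adj a b) (ac : H.Adj a c)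
    (bc : H.Adj b c) (ad : H.Adj a d) (bd : ¬ H.Adj b d) (cd : ¬ H.Adj c d) :
    Nonempty (H ↪g paw) := by
  refine emb_of hcard paw ![a, b, c, d] (inj4 h1 h2 h3 h4 h5 h6) ?_
  have bd' : ¬ H.Adj d b := fun k => bd k.symm
  have cd' : ¬ H.Adj d c := fun k => cd k.symm
  intro i j
  fin_cases i <;> fin_cases j <;>
    simp [paw, SimpleGraph.fromRel_adj, ab, bc, ac, ad, ab.symm, bc.symm, ac.symm, ad.symm, bd,
      cd, bd', cd']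

lemma emb_dia [Finite W] (hcard : Nat.card W = 4) (a b c d : W) (h1 : a ≠ b) (h2 : a ≠ c)
    (h3 : a ≠ d) (h4 : b ≠ c) (h5 : b ≠ d) (h6 : c ≠ d) (ab : H.Adj a b) (ac : H.Adj a c)
    (ad : H.Adj a d) (bc : H.Adj b c) (bd : H.Adj b d) (cd : ¬ H.Adj c d) :
    Nonempty (H ↪g diamond) := by
  refine emb_of hcard diamond ![a, b, c, d] (inj4 h1 h2 h3 h4 h5 h6) ?_
  have cd' : ¬ H.Adj d c := fun k => cd k.symm
  intro i j
  fin_cases i <;> fin_cases j <;>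
    simp [diamond, SimpleGraph.fromRel_adj, ab, bc, ac, ad, bd, ab.symm, bc.symm, ac.symm,
      ad.symm, bd.symm, cd, cd']

theorem five_false
    (fA3 : ∀ a b c : W, a ≠ b → a ≠ c → b ≠ c → ¬ H.Adj a b → ¬ H.Adj a c → ¬ H.Adj b c → False)
    (fK4 : ∀ a b c d : W, H.Adj a b → H.Adj a c → H.Adj a d → H.Adj b c → H.Adj b d →
      H.Adj c d → False)
    (fC4 : ∀ w x y z : W, H.Adj w x → H.Adj x y → H.Adj y z → H.Adj z w → ¬ H.Adj w y →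
      ¬ H.Adj x z → w ≠ y → x ≠ z → False)
    (fE2 : ∀ w x y z : W, H.Adj w x → H.Adj y z → ¬ H.Adj w y → ¬ H.Adj w z → ¬ H.Adj x y →
      ¬ H.Adj x z → w ≠ y → w ≠ z → x ≠ y → x ≠ z → False)
    (fCP : ∀ z a b c : W, H.Adj a b → H.Adj a c → H.Adj b c → ¬ H.Adj z a → ¬ H.Adj z b →
      ¬ H.Adj z c → z ≠ a → z ≠ b → z ≠ c → False)
    (fC5 : ∀ a b c d e : W, H.Adj a b → H.Adj b c → H.Adj c d → H.Adj d e → H.Adj e a →
      ¬ H.Adj a c → ¬ H.Adj b d → ¬ H.Adj c e → ¬ H.Adj d a → ¬ H.Adj e b → a ≠ b → a ≠ c →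
      a ≠ d → a ≠ e → b ≠ c → b ≠ d → b ≠ e → c ≠ d → c ≠ e → d ≠ e → False)
    (fD4 : ∀ w a b c d : W, H.Adj w a → H.Adj w b → H.Adj w c → H.Adj w d → a ≠ b → a ≠ c →
      a ≠ d → b ≠ c → b ≠ d → c ≠ d → False)
    (f : Fin 5 → W) (hf : Function.Injective f) : False := by
  classical
  have hne : ∀ i j : Fin 5, i ≠ j → f i ≠ f j := fun i j hij h => hij (hf h)
  have h := chk5 (decide (H.Adj (f 0) (f 1))) (decide (H.Adj (f 0) (f 2))) (decide (H.Adj (f 0) (f 3))) (decide (H.Adj (f 0) (f 4))) (decide (H.Adj (f 1) (f 2))) (decide (H.Adj (f 1) (f 3))) (decide (H.Adj (f 1) (f 4))) (decide (H.Adj (f 2) (f 3))) (decide (H.Adj (f 2) (f 4))) (decide (H.Adj (f 3) (f 4)))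
  simp only [Bool.or_eq_true, Bool.and_eq_true, Bool.not_eq_true', decide_eq_true_eq,
    decide_eq_false_iff_not, or_assoc, and_assoc] at h
  rcases h with ⟨h0, h1, h2⟩ | ⟨h0, h1, h2⟩ | ⟨h0, h1, h2⟩ | ⟨h0, h1, h2⟩ | ⟨h0, h1, h2⟩ | ⟨h0, h1, h2⟩ | ⟨h0, h1, h2⟩ | ⟨h0, h1, h2⟩ | ⟨h0, h1, h2⟩ | ⟨h0, h1, h2⟩ | ⟨h0, h1, h2, h3, h4, h5⟩ | ⟨h0, h1, h2, h3, h4, h5⟩ | ⟨h0, h1, h2, h3, h4, h5⟩ | ⟨h0, h1, h2, h3, h4, h5⟩ | ⟨h0, h1, h2, h3, h4, h5⟩ | ⟨h0, h1, h2, h3, h4, h5⟩ | ⟨h0, h1, h2, h3, h4, h5⟩ | ⟨h0, h1, h2, h3, h4, h5⟩ | ⟨h0, h1, h2, h3, h4, h5⟩ | ⟨h0, h1, h2, h3, h4, h5⟩ | ⟨h0, h1, h2, h3, h4, h5⟩ | ⟨h0, h1, h2, h3, h4, h5⟩ | ⟨h0, h1, h2, h3, h4, h5⟩ | ⟨h0, h1, h2, h3, h4, h5⟩ | ⟨h0, h1, h2, h3, h4, h5⟩ | ⟨h0, h1, h2, h3, h4, h5⟩ | ⟨h0, h1, h2, h3, h4, h5⟩ | ⟨h0, h1, h2, h3, h4, h5⟩ | ⟨h0, h1, h2, h3, h4, h5⟩ | ⟨h0, h1, h2, h3, h4, h5⟩ | ⟨h0,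 h1, h2, h3, h4, h5⟩ | ⟨h0, h1, h2, h3, h4, h5⟩ | ⟨h0, h1, h2, h3, h4, h5⟩ | ⟨h0, h1, h2, h3, h4, h5⟩ | ⟨h0, h1, h2, h3, h4, h5⟩ | ⟨h0, h1, h2, h3, h4, h5⟩ | ⟨h0, h1, h2, h3, h4, h5⟩ | ⟨h0, h1, h2, h3, h4, h5⟩ | ⟨h0, h1, h2, h3, h4, h5⟩ | ⟨h0, h1, h2, h3, h4, h5⟩ | ⟨h0, h1, h2, h3, h4, h5⟩ | ⟨h0, h1, h2, h3, h4, h5⟩ | ⟨h0, h1, h2, h3, h4, h5⟩ | ⟨h0, h1, h2, h3, h4, h5⟩ | ⟨h0, h1, h2, h3, h4, h5⟩ | ⟨h0, h1, h2, h3, h4, h5⟩ | ⟨h0, h1, h2, h3, h4, h5⟩ | ⟨h0, h1, h2, h3, h4, h5⟩ | ⟨h0, h1, h2, h3, h4, h5⟩ | ⟨h0, h1, h2, h3, h4, h5⟩ | ⟨h0, h1, h2, h3, h4, h5⟩ | ⟨h0, h1, h2, h3, h4, h5⟩ | ⟨h0, h1, h2, h3, h4, h5⟩ | ⟨h0, h1, h2, h3, h4, h5⟩ | ⟨h0, h1, h2, h3, h4, h5⟩ | ⟨h0, h1, h2, h3, h4, h5⟩ | ⟨h0, h1, h2, h3, h4, h5⟩ | ⟨h0, h1, h2, h3, h4, h5⟩ | ⟨h0, h1, h2, h3, h4, h5⟩ | ⟨h0, h1, h2, h3, h4, h5⟩ | ⟨h0, h1, h2, h3, h4, h5⟩ | ⟨h0, h1, h2, h3,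 h4, h5⟩ | ⟨h0, h1, h2, h3, h4, h5⟩ | ⟨h0, h1, h2, h3, h4, h5⟩ | ⟨h0, h1, h2, h3, h4, h5⟩ | ⟨h0, h1, h2, h3, h4, h5, h6, h7, h8, h9⟩ | ⟨h0, h1, h2, h3, h4, h5, h6, h7, h8, h9⟩ | ⟨h0, h1, h2, h3, h4, h5, h6, h7, h8, h9⟩ | ⟨h0, h1, h2, h3, h4, h5, h6, h7, h8, h9⟩ | ⟨h0, h1, h2, h3, h4, h5, h6, h7, h8, h9⟩ | ⟨h0, h1, h2, h3, h4, h5, h6, h7, h8, h9⟩ | ⟨h0, h1, h2, h3, h4, h5, h6, h7, h8, h9⟩ | ⟨h0, h1, h2, h3, h4, h5, h6, h7, h8, h9⟩ | ⟨h0, h1, h2, h3, h4, h5, h6, h7, h8, h9⟩ | ⟨h0, h1, h2, h3, h4, h5, h6, h7, h8, h9⟩ | ⟨h0, h1, h2, h3, h4, h5, h6, h7, h8, h9⟩ | ⟨h0, h1, h2, h3, h4, h5, h6, h7, h8, h9⟩ | ⟨h0, h1, h2, h3⟩ | ⟨h0, h1, h2, h3⟩ | ⟨h0, h1, h2, h3⟩ | ⟨h0, h1, h2, h3⟩ | ⟨h0, h1, h2, h3⟩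
  · exact fA3 (f 0) (f 1) (f 2) (hne 0 1 (by decide)) (hne 0 2 (by decide)) (hne 1 2 (by decide)) h0 h1 h2
  · exact fA3 (f 0) (f 1) (f 3) (hne 0 1 (by decide)) (hne 0 3 (by decide)) (hne 1 3 (by decide)) h0 h1 h2
  · exact fA3 (f 0) (f 1) (f 4) (hne 0 1 (by decide)) (hne 0 4 (by decide)) (hne 1 4 (by decide)) h0 h1 h2
  · exact fA3 (f 0) (f 2) (f 3) (hne 0 2 (by decide)) (hne 0 3 (by decide)) (hne 2 3 (by decide)) h0 h1 h2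
  · exact fA3 (f 0) (f 2) (f 4) (hne 0 2 (by decide)) (hne 0 4 (by decide)) (hne 2 4 (by decide)) h0 h1 h2
  · exact fA3 (f 0) (f 3) (f 4) (hne 0 3 (by decide)) (hne 0 4 (by decide)) (hne 3 4 (by decide)) h0 h1 h2
  · exact fA3 (f 1) (f 2) (f 3) (hne 1 2 (by decide)) (hne 1 3 (by decide)) (hne 2 3 (by decide)) h0 h1 h2
  · exact fA3 (f 1) (f 2) (f 4) (hne 1 2 (by decide)) (hne 1 4 (by decide)) (hne 2 4 (by decide)) h0 h1 h2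
  · exact fA3 (f 1) (f 3) (f 4) (hne 1 3 (by decide)) (hne 1 4 (by decide)) (hne 3 4 (by decide)) h0 h1 h2
  · exact fA3 (f 2) (f 3) (f 4) (hne 2 3 (by decide)) (hne 2 4 (by decide)) (hne 3 4 (by decide)) h0 h1 h2
  · exact fK4 (f 0) (f 1) (f 2) (f 3) h0 h1 h2 h3 h4 h5
  · exact fC4 (f 0) (f 1) (f 2) (f 3) h0 h1 h2 h3.symm h4 h5 (hne 0 2 (by decide)) (hne 1 3 (by decide))
  · exact fC4 (f 0) (f 2) (f 1) (f 3) h0 h1.symm h2 h3.symm h4 h5 (hne 0 1 (by decide)) (hne 2 3 (by decide))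
  · exact fC4 (f 0) (f 1) (f 3) (f 2) h0 h1 h2.symm h3.symm h4 h5 (hne 0 3 (by decide)) (hne 1 2 (by decide))
  · exact fE2 (f 0) (f 1) (f 2) (f 3) h0 h1 h2 h3 h4 h5 (hne 0 2 (by decide)) (hne 0 3 (by decide)) (hne 1 2 (by decide)) (hne 1 3 (by decide))
  · exact fE2 (f 0) (f 2) (f 1) (f 3) h0 h1 h2 h3 (fun k => h4 k.symm) h5 (hne 0 1 (by decide)) (hne 0 3 (by decide)) (hne 2 1 (by decide)) (hne 2 3 (by decide))
  · exact fE2 (f 0) (f 3) (f 1) (f 2) h0 h1 h2 h3 (fun k => h4 k.symm) (fun k => h5 k.symm) (hne 0 1 (by decide)) (hne 0 2 (by decide)) (hne 3 1 (by decide)) (hne 3 2 (by decide))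
  · exact fCP (f 0) (f 1) (f 2) (f 3) h0 h1 h2 h3 h4 h5 (hne 0 1 (by decide)) (hne 0 2 (by decide)) (hne 0 3 (by decide))
  · exact fCP (f 1) (f 0) (f 2) (f 3) h0 h1 h2 (fun k => h3 k.symm) h4 h5 (hne 1 0 (by decide)) (hne 1 2 (by decide)) (hne 1 3 (by decide))
  · exact fCP (f 2) (f 0) (f 1) (f 3) h0 h1 h2 (fun k => h3 k.symm) (fun k => h4 k.symm) h5 (hne 2 0 (by decide)) (hne 2 1 (by decide)) (hne 2 3 (by decide))
  · exact fCP (f 3) (f 0) (f 1) (f 2) h0 h1 h2 (fun k => h3 k.symm) (fun k => h4 k.symm) (fun k => h5 k.symm) (hne 3 0 (by decide)) (hne 3 1 (by decide)) (hne 3 2 (by decide))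
  · exact fK4 (f 0) (f 1) (f 2) (f 4) h0 h1 h2 h3 h4 h5
  · exact fC4 (f 0) (f 1) (f 2) (f 4) h0 h1 h2 h3.symm h4 h5 (hne 0 2 (by decide)) (hne 1 4 (by decide))
  · exact fC4 (f 0) (f 2) (f 1) (f 4) h0 h1.symm h2 h3.symm h4 h5 (hne 0 1 (by decide)) (hne 2 4 (by decide))
  · exact fC4 (f 0) (f 1) (f 4) (f 2) h0 h1 h2.symm h3.symm h4 h5 (hne 0 4 (by decide)) (hne 1 2 (by decide))
  · exact fE2 (f 0) (f 1) (f 2) (f 4) h0 h1 h2 h3 h4 h5 (hne 0 2 (by decide)) (hne 0 4 (by decide)) (hne 1 2 (by decide)) (hne 1 4 (by decide))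
  · exact fE2 (f 0) (f 2) (f 1) (f 4) h0 h1 h2 h3 (fun k => h4 k.symm) h5 (hne 0 1 (by decide)) (hne 0 4 (by decide)) (hne 2 1 (by decide)) (hne 2 4 (by decide))
  · exact fE2 (f 0) (f 4) (f 1) (f 2) h0 h1 h2 h3 (fun k => h4 k.symm) (fun k => h5 k.symm) (hne 0 1 (by decide)) (hne 0 2 (by decide)) (hne 4 1 (by decide)) (hne 4 2 (by decide))
  · exact fCP (f 0) (f 1) (f 2) (f 4) h0 h1 h2 h3 h4 h5 (hne 0 1 (by decide)) (hne 0 2 (by decide)) (hne 0 4 (by decide))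
  · exact fCP (f 1) (f 0) (f 2) (f 4) h0 h1 h2 (fun k => h3 k.symm) h4 h5 (hne 1 0 (by decide)) (hne 1 2 (by decide)) (hne 1 4 (by decide))
  · exact fCP (f 2) (f 0) (f 1) (f 4) h0 h1 h2 (fun k => h3 k.symm) (fun k => h4 k.symm) h5 (hne 2 0 (by decide)) (hne 2 1 (by decide)) (hne 2 4 (by decide))
  · exact fCP (f 4) (f 0) (f 1) (f 2) h0 h1 h2 (fun k => h3 k.symm) (fun k => h4 k.symm) (fun k => h5 k.symm) (hne 4 0 (by decide)) (hne 4 1 (by decide)) (hne 4 2 (by decide))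
  · exact fK4 (f 0) (f 1) (f 3) (f 4) h0 h1 h2 h3 h4 h5
  · exact fC4 (f 0) (f 1) (f 3) (f 4) h0 h1 h2 h3.symm h4 h5 (hne 0 3 (by decide)) (hne 1 4 (by decide))
  · exact fC4 (f 0) (f 3) (f 1) (f 4) h0 h1.symm h2 h3.symm h4 h5 (hne 0 1 (by decide)) (hne 3 4 (by decide))
  · exact fC4 (f 0) (f 1) (f 4) (f 3) h0 h1 h2.symm h3.symm h4 h5 (hne 0 4 (by decide)) (hne 1 3 (by decide))
  · exact fE2 (f 0) (f 1) (f 3) (f 4) h0 h1 h2 h3 h4 h5 (hne 0 3 (by decide)) (hne 0 4 (by decide)) (hne 1 3 (by decide)) (hne 1 4 (by decide))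
  · exact fE2 (f 0) (f 3) (f 1) (f 4) h0 h1 h2 h3 (fun k => h4 k.symm) h5 (hne 0 1 (by decide)) (hne 0 4 (by decide)) (hne 3 1 (by decide)) (hne 3 4 (by decide))
  · exact fE2 (f 0) (f 4) (f 1) (f 3) h0 h1 h2 h3 (fun k => h4 k.symm) (fun k => h5 k.symm) (hne 0 1 (by decide)) (hne 0 3 (by decide)) (hne 4 1 (by decide)) (hne 4 3 (by decide))
  · exact fCP (f 0) (f 1) (f 3) (f 4) h0 h1 h2 h3 h4 h5 (hne 0 1 (by decide)) (hne 0 3 (by decide)) (hne 0 4 (by decide))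
  · exact fCP (f 1) (f 0) (f 3) (f 4) h0 h1 h2 (fun k => h3 k.symm) h4 h5 (hne 1 0 (by decide)) (hne 1 3 (by decide)) (hne 1 4 (by decide))
  · exact fCP (f 3) (f 0) (f 1) (f 4) h0 h1 h2 (fun k => h3 k.symm) (fun k => h4 k.symm) h5 (hne 3 0 (by decide)) (hne 3 1 (by decide)) (hne 3 4 (by decide))
  · exact fCP (f 4) (f 0) (f 1) (f 3) h0 h1 h2 (fun k => h3 k.symm) (fun k => h4 k.symm) (fun k => h5 k.symm) (hne 4 0 (by decide)) (hne 4 1 (by decide)) (hne 4 3 (by decide))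
  · exact fK4 (f 0) (f 2) (f 3) (f 4) h0 h1 h2 h3 h4 h5
  · exact fC4 (f 0) (f 2) (f 3) (f 4) h0 h1 h2 h3.symm h4 h5 (hne 0 3 (by decide)) (hne 2 4 (by decide))
  · exact fC4 (f 0) (f 3) (f 2) (f 4) h0 h1.symm h2 h3.symm h4 h5 (hne 0 2 (by decide)) (hne 3 4 (by decide))
  · exact fC4 (f 0) (f 2) (f 4) (f 3) h0 h1 h2.symm h3.symm h4 h5 (hne 0 4 (by decide)) (hne 2 3 (by decide))
  · exact fE2 (f 0) (f 2) (f 3) (f 4) h0 h1 h2 h3 h4 h5 (hne 0 3 (by decide)) (hne 0 4 (by decide)) (hne 2 3 (by decide)) (hne 2 4 (by decide))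
  · exact fE2 (f 0) (f 3) (f 2) (f 4) h0 h1 h2 h3 (fun k => h4 k.symm) h5 (hne 0 2 (by decide)) (hne 0 4 (by decide)) (hne 3 2 (by decide)) (hne 3 4 (by decide))
  · exact fE2 (f 0) (f 4) (f 2) (f 3) h0 h1 h2 h3 (fun k => h4 k.symm) (fun k => h5 k.symm) (hne 0 2 (by decide)) (hne 0 3 (by decide)) (hne 4 2 (by decide)) (hne 4 3 (by decide))
  · exact fCP (f 0) (f 2) (f 3) (f 4) h0 h1 h2 h3 h4 h5 (hne 0 2 (by decide)) (hne 0 3 (by decide)) (hne 0 4 (by decide))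
  · exact fCP (f 2) (f 0) (f 3) (f 4) h0 h1 h2 (fun k => h3 k.symm) h4 h5 (hne 2 0 (by decide)) (hne 2 3 (by decide)) (hne 2 4 (by decide))
  · exact fCP (f 3) (f 0) (f 2) (f 4) h0 h1 h2 (fun k => h3 k.symm) (fun k => h4 k.symm) h5 (hne 3 0 (by decide)) (hne 3 2 (by decide)) (hne 3 4 (by decide))
  · exact fCP (f 4) (f 0) (f 2) (f 3) h0 h1 h2 (fun k => h3 k.symm) (fun k => h4 k.symm) (fun k => h5 k.symm) (hne 4 0 (by decide)) (hne 4 2 (by decide)) (hne 4 3 (by decide))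
  · exact fK4 (f 1) (f 2) (f 3) (f 4) h0 h1 h2 h3 h4 h5
  · exact fC4 (f 1) (f 2) (f 3) (f 4) h0 h1 h2 h3.symm h4 h5 (hne 1 3 (by decide)) (hne 2 4 (by decide))
  · exact fC4 (f 1) (f 3) (f 2) (f 4) h0 h1.symm h2 h3.symm h4 h5 (hne 1 2 (by decide)) (hne 3 4 (by decide))
  · exact fC4 (f 1) (f 2) (f 4) (f 3) h0 h1 h2.symm h3.symm h4 h5 (hne 1 4 (by decide)) (hne 2 3 (by decide))
  · exact fE2 (f 1) (f 2) (f 3) (f 4) h0 h1 h2 h3 h4 h5 (hne 1 3 (by decide)) (hne 1 4 (by decide)) (hne 2 3 (by decide)) (hne 2 4 (by decide))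
  · exact fE2 (f 1) (f 3) (f 2) (f 4) h0 h1 h2 h3 (fun k => h4 k.symm) h5 (hne 1 2 (by decide)) (hne 1 4 (by decide)) (hne 3 2 (by decide)) (hne 3 4 (by decide))
  · exact fE2 (f 1) (f 4) (f 2) (f 3) h0 h1 h2 h3 (fun k => h4 k.symm) (fun k => h5 k.symm) (hne 1 2 (by decide)) (hne 1 3 (by decide)) (hne 4 2 (by decide)) (hne 4 3 (by decide))
  · exact fCP (f 1) (f 2) (f 3) (f 4) h0 h1 h2 h3 h4 h5 (hne 1 2 (by decide)) (hne 1 3 (by decide)) (hne 1 4 (by decide))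
  · exact fCP (f 2) (f 1) (f 3) (f 4) h0 h1 h2 (fun k => h3 k.symm) h4 h5 (hne 2 1 (by decide)) (hne 2 3 (by decide)) (hne 2 4 (by decide))
  · exact fCP (f 3) (f 1) (f 2) (f 4) h0 h1 h2 (fun k => h3 k.symm) (fun k => h4 k.symm) h5 (hne 3 1 (by decide)) (hne 3 2 (by decide)) (hne 3 4 (by decide))
  · exact fCP (f 4) (f 1) (f 2) (f 3) h0 h1 h2 (fun k => h3 k.symm) (fun k => h4 k.symm) (fun k => h5 k.symm) (hne 4 1 (by decide)) (hne 4 2 (by decide)) (hne 4 3 (by decide))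
  · exact fC5 (f 0) (f 1) (f 2) (f 3) (f 4) h0 h1 h2 h3 h4.symm h5 h6 h7 (fun k => h8 k.symm) (fun k => h9 k.symm) (hne 0 1 (by decide)) (hne 0 2 (by decide)) (hne 0 3 (by decide)) (hne 0 4 (by decide)) (hne 1 2 (by decide)) (hne 1 3 (by decide)) (hne 1 4 (by decide)) (hne 2 3 (by decide)) (hne 2 4 (by decide)) (hne 3 4 (by decide))
  · exact fC5 (f 0) (f 1) (f 2) (f 4) (f 3) h0 h1 h2 h3.symm h4.symm h5 h6 h7 (fun k => h8 k.symm) (fun k => h9 k.symm) (hne 0 1 (by decide)) (hne 0 2 (by decide)) (hne 0 4 (by decide)) (hne 0 3 (by decide)) (hne 1 2 (by decide)) (hne 1 4 (by decide)) (hne 1 3 (by decide)) (hne 2 4 (by decide)) (hne 2 3 (by decide)) (hne 4 3 (by decide))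
  · exact fC5 (f 0) (f 1) (f 3) (f 2) (f 4) h0 h1 h2.symm h3 h4.symm h5 h6 h7 (fun k => h8 k.symm) (fun k => h9 k.symm) (hne 0 1 (by decide)) (hne 0 3 (by decide)) (hne 0 2 (by decide)) (hne 0 4 (by decide)) (hne 1 3 (by decide)) (hne 1 2 (by decide)) (hne 1 4 (by decide)) (hne 3 2 (by decide)) (hne 3 4 (by decide)) (hne 2 4 (by decide))
  · exact fC5 (f 0) (f 1) (f 3) (f 4) (f 2) h0 h1 h2 h3.symm h4.symm h5 h6 (fun k => h7 k.symm) (fun k => h8 k.symm) (fun k => h9 k.symm) (hne 0 1 (by decide)) (hne 0 3 (by decide)) (hne 0 4 (by decide)) (hne 0 2 (by decide)) (hne 1 3 (by decide)) (hne 1 4 (by decide)) (hne 1 2 (by decide)) (hne 3 4 (by decide)) (hne 3 2 (by decide)) (hne 4 2 (by decide))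
  · exact fC5 (f 0) (f 1) (f 4) (f 2) (f 3) h0 h1 h2.symm h3 h4.symm h5 h6 (fun k => h7 k.symm) (fun k => h8 k.symm) (fun k => h9 k.symm) (hne 0 1 (by decide)) (hne 0 4 (by decide)) (hne 0 2 (by decide)) (hne 0 3 (by decide)) (hne 1 4 (by decide)) (hne 1 2 (by decide)) (hne 1 3 (by decide)) (hne 4 2 (by decide)) (hne 4 3 (by decide)) (hne 2 3 (by decide))
  · exact fC5 (f 0) (f 1) (f 4) (f 3) (f 2) h0 h1 h2.symm h3.symm h4.symm h5 h6 (fun k => h7 k.symm) (fun k => h8 k.symm) (fun k => h9 k.symm) (hne 0 1 (by decide)) (hne 0 4 (by decide)) (hne 0 3 (by decide)) (hne 0 2 (by decide)) (hne 1 4 (by decide)) (hne 1 3 (by decide)) (hne 1 2 (by decide)) (hne 4 3 (by decide)) (hne 4 2 (by decide)) (hne 3 2 (by decide))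
  · exact fC5 (f 0) (f 2) (f 1) (f 3) (f 4) h0 h1.symm h2 h3 h4.symm h5 h6 h7 (fun k => h8 k.symm) (fun k => h9 k.symm) (hne 0 2 (by decide)) (hne 0 1 (by decide)) (hne 0 3 (by decide)) (hne 0 4 (by decide)) (hne 2 1 (by decide)) (hne 2 3 (by decide)) (hne 2 4 (by decide)) (hne 1 3 (by decide)) (hne 1 4 (by decide)) (hne 3 4 (by decide))
  · exact fC5 (f 0) (f 2) (f 1) (f 4) (f 3) h0 h1.symm h2 h3.symm h4.symm h5 h6 h7 (fun k => h8 k.symm) (fun k => h9 k.symm) (hne 0 2 (by decide)) (hne 0 1 (by decide)) (hne 0 4 (by decide)) (hne 0 3 (by decide)) (hne 2 1 (by decide)) (hne 2 4 (by decide)) (hne 2 3 (by decide)) (hne 1 4 (by decide)) (hne 1 3 (by decide)) (hne 4 3 (by decide))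
  · exact fC5 (f 0) (f 2) (f 3) (f 1) (f 4) h0 h1 h2.symm h3 h4.symm h5 (fun k => h6 k.symm) h7 (fun k => h8 k.symm) (fun k => h9 k.symm) (hne 0 2 (by decide)) (hne 0 3 (by decide)) (hne 0 1 (by decide)) (hne 0 4 (by decide)) (hne 2 3 (by decide)) (hne 2 1 (by decide)) (hne 2 4 (by decide)) (hne 3 1 (by decide)) (hne 3 4 (by decide)) (hne 1 4 (by decide))
  · exact fC5 (f 0) (f 2) (f 4) (f 1) (f 3) h0 h1 h2.symm h3 h4.symm h5 (fun k => h6 k.symm) (fun k => h7 k.symm) (fun k => h8 k.symm) (fun k => h9 k.symm) (hne 0 2 (by decide)) (hne 0 4 (by decide)) (hne 0 1 (by decide)) (hne 0 3 (by decide)) (hne 2 4 (by decide)) (hne 2 1 (by decide)) (hne 2 3 (by decide)) (hne 4 1 (by decide)) (hne 4 3 (by decide)) (hne 1 3 (by decide))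
  · exact fC5 (f 0) (f 3) (f 1) (f 2) (f 4) h0 h1.symm h2 h3 h4.symm h5 (fun k => h6 k.symm) h7 (fun k => h8 k.symm) (fun k => h9 k.symm) (hne 0 3 (by decide)) (hne 0 1 (by decide)) (hne 0 2 (by decide)) (hne 0 4 (by decide)) (hne 3 1 (by decide)) (hne 3 2 (by decide)) (hne 3 4 (by decide)) (hne 1 2 (by decide)) (hne 1 4 (by decide)) (hne 2 4 (by decide))
  · exact fC5 (f 0) (f 3) (f 2) (f 1) (f 4) h0 h1.symm h2.symm h3 h4.symm h5 (fun k => h6 k.symm) h7 (fun k => h8 k.symm) (fun k => h9 k.symm) (hne 0 3 (by decide)) (hne 0 2 (by decide)) (hne 0 1 (by decide)) (hne 0 4 (by decide)) (hne 3 2 (by decide)) (hne 3 1 (by decide)) (hne 3 4 (by decide)) (hne 2 1 (by decide)) (hne 2 4 (by decide)) (hne 1 4 (by decide))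
  · exact fD4 (f 0) (f 1) (f 2) (f 3) (f 4) h0 h1 h2 h3 (hne 1 2 (by decide)) (hne 1 3 (by decide)) (hne 1 4 (by decide)) (hne 2 3 (by decide)) (hne 2 4 (by decide)) (hne 3 4 (by decide))
  · exact fD4 (f 1) (f 0) (f 2) (f 3) (f 4) h0.symm h1 h2 h3 (hne 0 2 (by decide)) (hne 0 3 (by decide)) (hne 0 4 (by decide)) (hne 2 3 (by decide)) (hne 2 4 (by decide)) (hne 3 4 (by decide))
  · exact fD4 (f 2) (f 0) (f 1) (f 3) (f 4) h0.symm h1.symm h2 h3 (hne 0 1 (by decide)) (hne 0 3 (by decide)) (hne 0 4 (by decide)) (hne 1 3 (by decide)) (hne 1 4 (by decide)) (hne 3 4 (by decide))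
  · exact fD4 (f 3) (f 0) (f 1) (f 2) (f 4) h0.symm h1.symm h2.symm h3 (hne 0 1 (by decide)) (hne 0 2 (by decide)) (hne 0 4 (by decide)) (hne 1 2 (by decide)) (hne 1 4 (by decide)) (hne 2 4 (by decide))
  · exact fD4 (f 4) (f 0) (f 1) (f 2) (f 3) h0.symm h1.symm h2.symm h3.symm (hne 0 1 (by decide)) (hne 0 2 (by decide)) (hne 0 3 (by decide)) (hne 1 2 (by decide)) (hne 1 3 (by decide)) (hne 2 3 (by decide))

theorem four_emb [Finite W] (hcard : Nat.card W = 4)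
    (fA3 : ∀ a b c : W, a ≠ b → a ≠ c → b ≠ c → ¬ H.Adj a b → ¬ H.Adj a c → ¬ H.Adj b c → False)
    (fK4 : ∀ a b c d : W, H.Adj a b → H.Adj a c → H.Adj a d → H.Adj b c → H.Adj b d →
      H.Adj c d → False)
    (fC4 : ∀ w x y z : W, H.Adj w x → H.Adj x y → H.Adj y z → H.Adj z w → ¬ H.Adj w y →
      ¬ H.Adj x z → w ≠ y → x ≠ z → False)
    (fE2 : ∀ w x y z : W, H.Adj w x → H.Adj y z → ¬ H.Adj w y → ¬ H.Adj w z → ¬ H.Adj x y →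
      ¬ H.Adj x z → w ≠ y → w ≠ z → x ≠ y → x ≠ z → False)
    (fCP : ∀ z a b c : W, H.Adj a b → H.Adj a c → H.Adj b c → ¬ H.Adj z a → ¬ H.Adj z b →
      ¬ H.Adj z c → z ≠ a → z ≠ b → z ≠ c → False)
    (f : Fin 4 → W) (hf : Function.Injective f) :
    Nonempty (H ↪g P4) ∨ Nonempty (H ↪g paw) ∨ Nonempty (H ↪g diamond) := by
  classical
  have hne : ∀ i j : Fin 4, i ≠ j → f i ≠ f j := fun i j hij h => hij (hf h)
  have h := chk4 (decide (H.Adj (f 0) (f 1))) (decide (H.Adj (f 0) (f 2))) (decide (H.Adj (f 0) (f 3))) (decide (H.Adj (f 1) (f 2))) (decide (H.Adj (f 1) (f 3))) (decide (H.Adj (f 2) (f 3)))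
  simp only [Bool.or_eq_true, Bool.and_eq_true, Bool.not_eq_true', decide_eq_true_eq,
    decide_eq_false_iff_not, or_assoc, and_assoc] at h
  rcases h with ⟨h0, h1, h2⟩ | ⟨h0, h1, h2⟩ | ⟨h0, h1, h2⟩ | ⟨h0, h1, h2⟩ | ⟨h0, h1, h2, h3, h4, h5⟩ | ⟨h0, h1, h2, h3, h4, h5⟩ | ⟨h0, h1, h2, h3, h4, h5⟩ | ⟨h0, h1, h2, h3, h4, h5⟩ | ⟨h0, h1, h2, h3, h4, h5⟩ | ⟨h0, h1, h2, h3, h4, h5⟩ | ⟨h0, h1, h2, h3, h4, h5⟩ | ⟨h0, h1, h2, h3, h4, h5⟩ | ⟨h0, h1, h2, h3, h4, h5⟩ | ⟨h0, h1, h2, h3, h4, h5⟩ | ⟨h0, h1, h2, h3, h4, h5⟩ | ⟨h0, h1, h2, h3, h4, h5⟩ | ⟨h0, h1, h2, h3, h4, h5⟩ | ⟨h0, h1, h2, h3, h4, h5⟩ | ⟨h0, h1, h2, h3, h4, h5⟩ | ⟨h0, h1, h2, h3, h4, h5⟩ | ⟨h0, h1, h2, h3, h4, h5⟩ | ⟨h0, h1, h2, h3, h4, h5⟩ | ⟨h0, h1, h2, h3, h4, h5⟩ | ⟨h0, h1, h2, h3, h4, h5⟩ | ⟨h0, h1, h2, h3, h4, h5⟩ | ⟨h0, h1, h2, h3, h4, h5⟩ | ⟨h0, h1, h2, h3, h4, h5⟩ | ⟨h0, h1, h2,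 h3, h4, h5⟩ | ⟨h0, h1, h2, h3, h4, h5⟩ | ⟨h0, h1, h2, h3, h4, h5⟩ | ⟨h0, h1, h2, h3, h4, h5⟩ | ⟨h0, h1, h2, h3, h4, h5⟩ | ⟨h0, h1, h2, h3, h4, h5⟩ | ⟨h0, h1, h2, h3, h4, h5⟩ | ⟨h0, h1, h2, h3, h4, h5⟩ | ⟨h0, h1, h2, h3, h4, h5⟩ | ⟨h0, h1, h2, h3, h4, h5⟩ | ⟨h0, h1, h2, h3, h4, h5⟩ | ⟨h0, h1, h2, h3, h4, h5⟩ | ⟨h0, h1, h2, h3, h4, h5⟩ | ⟨h0, h1, h2, h3, h4, h5⟩ | ⟨h0, h1, h2, h3, h4, h5⟩ | ⟨h0, h1, h2, h3, h4, h5⟩ | ⟨h0, h1, h2, h3, h4, h5⟩ | ⟨h0, h1, h2, h3, h4, h5⟩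
  · exact (fA3 (f 0) (f 1) (f 2) (hne 0 1 (by decide)) (hne 0 2 (by decide)) (hne 1 2 (by decide)) h0 h1 h2).elim
  · exact (fA3 (f 0) (f 1) (f 3) (hne 0 1 (by decide)) (hne 0 3 (by decide)) (hne 1 3 (by decide)) h0 h1 h2).elim
  · exact (fA3 (f 0) (f 2) (f 3) (hne 0 2 (by decide)) (hne 0 3 (by decide)) (hne 2 3 (by decide)) h0 h1 h2).elim
  · exact (fA3 (f 1) (f 2) (f 3) (hne 1 2 (by decide)) (hne 1 3 (by decide)) (hne 2 3 (by decide)) h0 h1 h2).elim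
  · exact (fK4 (f 0) (f 1) (f 2) (f 3) h0 h1 h2 h3 h4 h5).elim
  · exact (fC4 (f 0) (f 1) (f 2) (f 3) h0 h1 h2 h3.symm h4 h5 (hne 0 2 (by decide)) (hne 1 3 (by decide))).elim
  · exact (fC4 (f 0) (f 2) (f 1) (f 3) h0 h1.symm h2 h3.symm h4 h5 (hne 0 1 (by decide)) (hne 2 3 (by decide))).elim
  · exact (fC4 (f 0) (f 1) (f 3) (f 2) h0 h1 h2.symm h3.symm h4 h5 (hne 0 3 (by decide)) (hne 1 2 (by decide))).elim
  · exact (fE2 (f 0) (f 1) (f 2) (f 3) h0 h1 h2 h3 h4 h5 (hne 0 2 (by decide)) (hne 0 3 (by decide)) (hne 1 2 (by decide)) (hne 1 3 (by decide))).elim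
  · exact (fE2 (f 0) (f 2) (f 1) (f 3) h0 h1 h2 h3 (fun k => h4 k.symm) h5 (hne 0 1 (by decide)) (hne 0 3 (by decide)) (hne 2 1 (by decide)) (hne 2 3 (by decide))).elim
  · exact (fE2 (f 0) (f 3) (f 1) (f 2) h0 h1 h2 h3 (fun k => h4 k.symm) (fun k => h5 k.symm) (hne 0 1 (by decide)) (hne 0 2 (by decide)) (hne 3 1 (by decide)) (hne 3 2 (by decide))).elim
  · exact (fCP (f 0) (f 1) (f 2) (f 3) h0 h1 h2 h3 h4 h5 (hne 0 1 (by decide)) (hne 0 2 (by decide)) (hne 0 3 (by decide))).elim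
  · exact (fCP (f 1) (f 0) (f 2) (f 3) h0 h1 h2 (fun k => h3 k.symm) h4 h5 (hne 1 0 (by decide)) (hne 1 2 (by decide)) (hne 1 3 (by decide))).elim
  · exact (fCP (f 2) (f 0) (f 1) (f 3) h0 h1 h2 (fun k => h3 k.symm) (fun k => h4 k.symm) h5 (hne 2 0 (by decide)) (hne 2 1 (by decide)) (hne 2 3 (by decide))).elim
  · exact (fCP (f 3) (f 0) (f 1) (f 2) h0 h1 h2 (fun k => h3 k.symm) (fun k => h4 k.symm) (fun k => h5 k.symm) (hne 3 0 (by decide)) (hne 3 1 (by decide)) (hne 3 2 (by decide))).elim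
  · exact Or.inl (emb_P4 hcard (f 0) (f 1) (f 2) (f 3) (hne 0 1 (by decide)) (hne 0 2 (by decide)) (hne 0 3 (by decide)) (hne 1 2 (by decide)) (hne 1 3 (by decide)) (hne 2 3 (by decide)) h0 h1 h2 h3 h4 h5)
  · exact Or.inl (emb_P4 hcard (f 0) (f 1) (f 3) (f 2) (hne 0 1 (by decide)) (hne 0 3 (by decide)) (hne 0 2 (by decide)) (hne 1 3 (by decide)) (hne 1 2 (by decide)) (hne 3 2 (by decide)) h0 h1 h2.symm h3 h4 h5)
  · exact Or.inl (emb_P4 hcard (f 0) (f 2) (f 1) (f 3) (hne 0 2 (by decide)) (hne 0 1 (by decide)) (hne 0 3 (by decide)) (hne 2 1 (by decide)) (hne 2 3 (by decide)) (hne 1 3 (by decide)) h0 h1.symm h2 h3 h4 h5)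
  · exact Or.inl (emb_P4 hcard (f 0) (f 2) (f 3) (f 1) (hne 0 2 (by decide)) (hne 0 3 (by decide)) (hne 0 1 (by decide)) (hne 2 3 (by decide)) (hne 2 1 (by decide)) (hne 3 1 (by decide)) h0 h1 h2.symm h3 h4 (fun k => h5 k.symm))
  · exact Or.inl (emb_P4 hcard (f 0) (f 3) (f 1) (f 2) (hne 0 3 (by decide)) (hne 0 1 (by decide)) (hne 0 2 (by decide)) (hne 3 1 (by decide)) (hne 3 2 (by decide)) (hne 1 2 (by decide)) h0 h1.symm h2 h3 h4 (fun k => h5 k.symm))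
  · exact Or.inl (emb_P4 hcard (f 0) (f 3) (f 2) (f 1) (hne 0 3 (by decide)) (hne 0 2 (by decide)) (hne 0 1 (by decide)) (hne 3 2 (by decide)) (hne 3 1 (by decide)) (hne 2 1 (by decide)) h0 h1.symm h2.symm h3 h4 (fun k => h5 k.symm))
  · exact Or.inl (emb_P4 hcard (f 1) (f 0) (f 2) (f 3) (hne 1 0 (by decide)) (hne 1 2 (by decide)) (hne 1 3 (by decide)) (hne 0 2 (by decide)) (hne 0 3 (by decide)) (hne 2 3 (by decide)) h0.symm h1 h2 h3 h4 h5)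
  · exact Or.inl (emb_P4 hcard (f 1) (f 0) (f 3) (f 2) (hne 1 0 (by decide)) (hne 1 3 (by decide)) (hne 1 2 (by decide)) (hne 0 3 (by decide)) (hne 0 2 (by decide)) (hne 3 2 (by decide)) h0.symm h1 h2.symm h3 h4 h5)
  · exact Or.inl (emb_P4 hcard (f 1) (f 2) (f 0) (f 3) (hne 1 2 (by decide)) (hne 1 0 (by decide)) (hne 1 3 (by decide)) (hne 2 0 (by decide)) (hne 2 3 (by decide)) (hne 0 3 (by decide)) h0 h1.symm h2 (fun k => h3 k.symm) h4 h5)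
  · exact Or.inl (emb_P4 hcard (f 1) (f 3) (f 0) (f 2) (hne 1 3 (by decide)) (hne 1 0 (by decide)) (hne 1 2 (by decide)) (hne 3 0 (by decide)) (hne 3 2 (by decide)) (hne 0 2 (by decide)) h0 h1.symm h2 (fun k => h3 k.symm) h4 (fun k => h5 k.symm))
  · exact Or.inl (emb_P4 hcard (f 2) (f 0) (f 1) (f 3) (hne 2 0 (by decide)) (hne 2 1 (by decide)) (hne 2 3 (by decide)) (hne 0 1 (by decide)) (hne 0 3 (by decide)) (hne 1 3 (by decide)) h0.symm h1 h2 (fun k => h3 k.symm) h4 h5)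
  · exact Or.inl (emb_P4 hcard (f 2) (f 1) (f 0) (f 3) (hne 2 1 (by decide)) (hne 2 0 (by decide)) (hne 2 3 (by decide)) (hne 1 0 (by decide)) (hne 1 3 (by decide)) (hne 0 3 (by decide)) h0.symm h1.symm h2 (fun k => h3 k.symm) h4 h5)
  · exact Or.inr <| Or.inl (emb_paw hcard (f 0) (f 1) (f 2) (f 3) (hne 0 1 (by decide)) (hne 0 2 (by decide)) (hne 0 3 (by decide)) (hne 1 2 (by decide)) (hne 1 3 (by decide)) (hne 2 3 (by decide)) h0 h1 h2 h3 h4 h5)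
  · exact Or.inr <| Or.inl (emb_paw hcard (f 0) (f 1) (f 3) (f 2) (hne 0 1 (by decide)) (hne 0 3 (by decide)) (hne 0 2 (by decide)) (hne 1 3 (by decide)) (hne 1 2 (by decide)) (hne 3 2 (by decide)) h0 h1 h2 h3 h4 (fun k => h5 k.symm))
  · exact Or.inr <| Or.inl (emb_paw hcard (f 0) (f 2) (f 3) (f 1) (hne 0 2 (by decide)) (hne 0 3 (by decide)) (hne 0 1 (by decide)) (hne 2 3 (by decide)) (hne 2 1 (by decide)) (hne 3 1 (by decide)) h0 h1 h2 h3 (fun k => h4 k.symm) (fun k => h5 k.symm))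
  · exact Or.inr <| Or.inl (emb_paw hcard (f 1) (f 0) (f 2) (f 3) (hne 1 0 (by decide)) (hne 1 2 (by decide)) (hne 1 3 (by decide)) (hne 0 2 (by decide)) (hne 0 3 (by decide)) (hne 2 3 (by decide)) h0.symm h1 h2 h3 h4 h5)
  · exact Or.inr <| Or.inl (emb_paw hcard (f 1) (f 0) (f 3) (f 2) (hne 1 0 (by decide)) (hne 1 3 (by decide)) (hne 1 2 (by decide)) (hne 0 3 (by decide)) (hne 0 2 (by decide)) (hne 3 2 (by decide)) h0.symm h1 h2 h3 h4 (fun k => h5 k.symm))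
  · exact Or.inr <| Or.inl (emb_paw hcard (f 1) (f 2) (f 3) (f 0) (hne 1 2 (by decide)) (hne 1 3 (by decide)) (hne 1 0 (by decide)) (hne 2 3 (by decide)) (hne 2 0 (by decide)) (hne 3 0 (by decide)) h0 h1 h2 h3.symm (fun k => h4 k.symm) (fun k => h5 k.symm))
  · exact Or.inr <| Or.inl (emb_paw hcard (f 2) (f 0) (f 1) (f 3) (hne 2 0 (by decide)) (hne 2 1 (by decide)) (hne 2 3 (by decide)) (hne 0 1 (by decide)) (hne 0 3 (by decide)) (hne 1 3 (by decide)) h0.symm h1.symm h2 h3 h4 h5)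
  · exact Or.inr <| Or.inl (emb_paw hcard (f 2) (f 0) (f 3) (f 1) (hne 2 0 (by decide)) (hne 2 3 (by decide)) (hne 2 1 (by decide)) (hne 0 3 (by decide)) (hne 0 1 (by decide)) (hne 3 1 (by decide)) h0.symm h1 h2 h3.symm h4 (fun k => h5 k.symm))
  · exact Or.inr <| Or.inl (emb_paw hcard (f 2) (f 1) (f 3) (f 0) (hne 2 1 (by decide)) (hne 2 3 (by decide)) (hne 2 0 (by decide)) (hne 1 3 (by decide)) (hne 1 0 (by decide)) (hne 3 0 (by decide)) h0.symm h1 h2 h3.symm (fun k => h4 k.symm) (fun k => h5 k.symm))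
  · exact Or.inr <| Or.inl (emb_paw hcard (f 3) (f 0) (f 1) (f 2) (hne 3 0 (by decide)) (hne 3 1 (by decide)) (hne 3 2 (by decide)) (hne 0 1 (by decide)) (hne 0 2 (by decide)) (hne 1 2 (by decide)) h0.symm h1.symm h2 h3.symm h4 h5)
  · exact Or.inr <| Or.inl (emb_paw hcard (f 3) (f 0) (f 2) (f 1) (hne 3 0 (by decide)) (hne 3 2 (by decide)) (hne 3 1 (by decide)) (hne 0 2 (by decide)) (hne 0 1 (by decide)) (hne 2 1 (by decide)) h0.symm h1.symm h2 h3.symm h4 (fun k => h5 k.symm))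
  · exact Or.inr <| Or.inl (emb_paw hcard (f 3) (f 1) (f 2) (f 0) (hne 3 1 (by decide)) (hne 3 2 (by decide)) (hne 3 0 (by decide)) (hne 1 2 (by decide)) (hne 1 0 (by decide)) (hne 2 0 (by decide)) h0.symm h1.symm h2 h3.symm (fun k => h4 k.symm) (fun k => h5 k.symm))
  · exact Or.inr <| Or.inr (emb_dia hcard (f 0) (f 1) (f 2) (f 3) (hne 0 1 (by decide)) (hne 0 2 (by decide)) (hne 0 3 (by decide)) (hne 1 2 (by decide)) (hne 1 3 (by decide)) (hne 2 3 (by decide)) h0 h1 h2 h3 h4 h5)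
  · exact Or.inr <| Or.inr (emb_dia hcard (f 0) (f 2) (f 1) (f 3) (hne 0 2 (by decide)) (hne 0 1 (by decide)) (hne 0 3 (by decide)) (hne 2 1 (by decide)) (hne 2 3 (by decide)) (hne 1 3 (by decide)) h0 h1 h2 h3.symm h4 h5)
  · exact Or.inr <| Or.inr (emb_dia hcard (f 0) (f 3) (f 1) (f 2) (hne 0 3 (by decide)) (hne 0 1 (by decide)) (hne 0 2 (by decide)) (hne 3 1 (by decide)) (hne 3 2 (by decide)) (hne 1 2 (by decide)) h0 h1 h2 h3.symm h4.symm h5)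
  · exact Or.inr <| Or.inr (emb_dia hcard (f 1) (f 2) (f 0) (f 3) (hne 1 2 (by decide)) (hne 1 0 (by decide)) (hne 1 3 (by decide)) (hne 2 0 (by decide)) (hne 2 3 (by decide)) (hne 0 3 (by decide)) h0 h1.symm h2 h3.symm h4 h5)
  · exact Or.inr <| Or.inr (emb_dia hcard (f 1) (f 3) (f 0) (f 2) (hne 1 3 (by decide)) (hne 1 0 (by decide)) (hne 1 2 (by decide)) (hne 3 0 (by decide)) (hne 3 2 (by decide)) (hne 0 2 (by decide)) h0 h1.symm h2 h3.symm h4.symm h5)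
  · exact Or.inr <| Or.inr (emb_dia hcard (f 2) (f 3) (f 0) (f 1) (hne 2 3 (by decide)) (hne 2 0 (by decide)) (hne 2 1 (by decide)) (hne 3 0 (by decide)) (hne 3 1 (by decide)) (hne 0 1 (by decide)) h0 h1.symm h2.symm h3.symm h4.symm h5)

end Pool.Agent.Q276.ITM
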