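import Pool.Agent.Q276.ITM.Defs

/-! Smoothing vertices of degree two: thetas contain the diamond, cycles with a pendant vertex the
paw. -/

namespace Pool.Agent.Q276.ITM

open Pool.Agent.H175R2

section
variable {V W : Type} {K : SimpleGraph W}

/-- add the edge `ab` -/
def addE (E : SimpleGraph V) (a b : V) : SimpleGraph V where
  Adj x y := E.Adj x y ∨ (a ≠ b ∧ ((x = a ∧ y = b) ∨ (x = b ∧ y = a)))
  symm := ⟨by
    rintro x y (h | ⟨h, h'⟩)
    · exact Or.inl h.symm
    · exact Or.inr ⟨h, by tauto⟩⟩
  loopless := ⟨by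
    rintro x (h | ⟨h, ⟨h1, h2⟩ | ⟨h1, h2⟩⟩)
    · exact E.loopless.irrefl _ h
    · exact h (h1 ▸ h2)
    · exact h (h2 ▸ h1)⟩

lemma addE_adj {E : SimpleGraph V} {a b x y : V} : (addE E a b).Adj x y ↔
    E.Adj x y ∨ (a ≠ b ∧ ((x = a ∧ y = b) ∨ (x = b ∧ y = a))) := Iff.rfl

lemma addE_ne {E : SimpleGraph V} {a b x y : V} (hx : x ≠ b) (hy : y ≠ b) :
    (addE E a b).Adj x y ↔ E.Adj x y := by
  rw [addE_adj]; tauto

/-- smoothing a vertex of degree two -/
theorem smooth {E : SimpleGraph V} {S : Set V} {w a b : V} (hw : w ∈ S) (ha : a ∈ S) (hb : b ∈ S)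
    (hab : a ≠ b) (hwa : E.Adj w a) (hwb : E.Adj w b)
    (hw2 : ∀ x ∈ S, E.Adj w x → x = a ∨ x = b) (hn : ¬ E.Adj a b)
    (h : IsSubdivision K ((addE E a b).induce (S \ {w}))) : IsSubdivision K (E.induce S) := by
  have hwa' : w ≠ a := hwa.ne
  have hwb' : w ≠ b := hwb.ne
  have h2 := h.append (a := ⟨a, ha, hwa'.symm⟩) (b := ⟨b, hb, hwb'.symm⟩)
    (by simp [addE_adj, hab])
  let f : Option ↥(S \ {w}) → ↥S := fun o => match o with
    | none => ⟨w, hw⟩
    | some x => ⟨x.1, x.2.1⟩
  have hf : Function.Bijective f := by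
    constructor
    · rintro (_ | ⟨x, hx⟩) (_ | ⟨y, hy⟩) h
      · rfl
      · exact absurd (congrArg Subtype.val h).symm hy.2
      · exact absurd (congrArg Subtype.val h) hx.2
      · have h1 : x = y := congrArg Subtype.val h
        subst h1; rfl
    · rintro ⟨x, hx⟩
      by_cases h : x = w
      · subst h; exact ⟨none, rfl⟩
      · exact ⟨some ⟨x, hx, h⟩, rfl⟩
  refine h2.trans_iso ⟨Equiv.ofBijective f hf, ?_⟩
  rintro (_ | ⟨x, hx⟩) (_ | ⟨y, hy⟩)
  · simp [f]
  · rw [sub_none_some]
    change E.Adj w y ↔ _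
    rw [Subtype.ext_iff, Subtype.ext_iff]
    constructor
    · exact hw2 y hy.1
    · intro h
      change y = a ∨ y = b at h
      rcases h with rfl | rfl
      · exact hwa
      · exact hwb
  · rw [sub_some_none]
    change E.Adj x w ↔ _
    rw [E.adj_comm, Subtype.ext_iff, Subtype.ext_iff]
    constructor
    · exact hw2 x hx.1
    · intro h
      change x = a ∨ x = b at h
      rcases h with rfl | rfl
      · exact hwa
      · exact hwb
  · rw [sub_some_some]
    change E.Adj x y ↔ (addE E a b).Adj x y ∧ _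
    rw [Subtype.ext_iff, Subtype.ext_iff, Subtype.ext_iff, Subtype.ext_iff, addE_adj]
    change E.Adj x y ↔ (E.Adj x y ∨ a ≠ b ∧ (x = a ∧ y = b ∨ x = b ∧ y = a)) ∧
      ¬ ((x = a ∧ y = b) ∨ (x = b ∧ y = a))
    constructor
    · intro h5
      refine ⟨Or.inl h5, ?_⟩
      rintro (⟨rfl, rfl⟩ | ⟨rfl, rfl⟩)
      · exact hn h5
      · exact hn h5.symm
    · rintro ⟨h | ⟨_, h⟩, h'⟩
      · exact h
      · exact absurd h h'

/-! ### thetas -/

/-- three internally disjoint, mutually non-adjacent induced paths between `p` and `q` -/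
structure Th (E : SimpleGraph V) (p q : V) (F : Fin 3 → ℕ → V) (len : Fin 3 → ℕ) : Prop where
  pq : p ≠ q
  Fp : ∀ k i, i < len k → F k i ≠ p
  Fq : ∀ k i, i < len k → F k i ≠ q
  inj : ∀ k i k' i', i < len k → i' < len k' → F k i = F k' i' → k = k' ∧ i = i'
  adj : ∀ k i k' i', i < len k → i' < len k' →
    (E.Adj (F k i) (F k' i') ↔ k = k' ∧ (i + 1 = i' ∨ i' + 1 = i))
  adjp : ∀ k i, i < len k → (E.Adj p (F k i) ↔ i = 0)
  adjq : ∀ k i, i < len k → (E.Adj q (F k i) ↔ i + 1 = len k)
  adjpq : E.Adj p q ↔ ∃ k, len k = 0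
  one : ∀ k k', len k = 0 → len k' = 0 → k = k'

/-- the vertex set of a theta -/
def thS (p q : V) (F : Fin 3 → ℕ → V) (len : Fin 3 → ℕ) : Set V :=
  {x | x = p ∨ x = q ∨ ∃ k i, i < len k ∧ x = F k i}

lemma diamond_adj (i j : Fin 4) : diamond.Adj i j ↔ i ≠ j ∧ (i = 0 ∨ i = 1 ∨ j = 0 ∨ j = 1) := by
  simp only [diamond, SimpleGraph.fromRel_adj]
  tauto

theorem Th.sub {p q : V} {F : Fin 3 → ℕ → V} : ∀ (n : ℕ) (E : SimpleGraph V) (len : Fin 3 → ℕ),
    ∑ k, len k = n → Th E p q F len → IsSubdivision diamond (E.induce (thS p q F len)) := by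
  intro n
  induction n with
  | zero =>
    intro E len hs h
    exfalso
    have h0 : ∀ k, len k = 0 := by
      intro k
      have := (Finset.sum_eq_zero_iff (s := Finset.univ) (f := len)).1 hs k (Finset.mem_univ _)
      exact this
    have := h.one 0 1 (h0 0) (h0 1)
    exact absurd this (by decide)
  | succ n ih =>
    intro E len hs h
    by_cases hb : (∃ k, len k = 0) ∧ ∀ k, len k ≤ 1
    · obtain ⟨⟨k0, h0⟩, h1⟩ := hb
      obtain ⟨k1, k2, h12, h10, h20, hall⟩ : ∃ k1 k2 : Fin 3, k1 ≠ k2 ∧ k1 ≠ k0 ∧ k2 ≠ k0 ∧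
          ∀ k, k = k0 ∨ k = k1 ∨ k = k2 := by
        clear h0
        revert k0
        decide
      have l1 : len k1 = 1 := by
        have := h1 k1
        have : len k1 ≠ 0 := fun h' => h10 (h.one _ _ h' h0)
        omega
      have l2 : len k2 = 1 := by
        have := h1 k2
        have : len k2 ≠ 0 := fun h' => h20 (h.one _ _ h' h0)
        omega
      have i1 : 0 < len k1 := by omega
      have i2 : 0 < len k2 := by omega
      have e1 : p ≠ q := h.pq
      have e2 := h.Fp k1 0 i1
      have e3 := h.Fp k2 0 i2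
      have e4 := h.Fq k1 0 i1
      have e5 := h.Fq k2 0 i2
      have e6 : F k1 0 ≠ F k2 0 := fun h' => h12 (h.inj _ _ _ _ i1 i2 h').1
      have a1 : E.Adj p q := h.adjpq.2 ⟨k0, h0⟩
      have a2 : E.Adj p (F k1 0) := (h.adjp k1 0 i1).2 rfl
      have a3 : E.Adj p (F k2 0) := (h.adjp k2 0 i2).2 rfl
      have a4 : E.Adj q (F k1 0) := (h.adjq k1 0 i1).2 (by omega)
      have a5 : E.Adj q (F k2 0) := (h.adjq k2 0 i2).2 (by omega)
      have a6 : ¬ E.Adj (F k1 0) (F k2 0) := fun h' => h12 ((h.adj _ _ _ _ i1 i2).1 h').1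
      let g : Fin 4 → thS p q F len := ![⟨p, Or.inl rfl⟩, ⟨q, Or.inr (Or.inl rfl)⟩,
        ⟨F k1 0, Or.inr (Or.inr ⟨k1, 0, i1, rfl⟩)⟩, ⟨F k2 0, Or.inr (Or.inr ⟨k2, 0, i2, rfl⟩)⟩]
      have hg : Function.Bijective g := by
        constructor
        · intro i j hij
          have hij := congrArg Subtype.val hij
          fin_cases i <;> fin_cases j <;> first | rfl | (simp [g] at hij; first | exact absurd hij e1 | exact absurd hij.symm e1 | exact absurd hij e2 | exact absurd hij.symm e2 | exact absurd hij e3 | exact absurd hij.symm e3 | exact absurd hij e4 | exact absurd hij.symm e4 | exact absurd hij e5 | exact absurd hij.symm e5 | exact absurd hij e6 | exact absurd hij.symm e6)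
        · rintro ⟨x, hx⟩
          rcases hx with rfl | rfl | ⟨k, i, hi, rfl⟩
          · exact ⟨0, rfl⟩
          · exact ⟨1, rfl⟩
          · have hk := h1 k
            obtain rfl : i = 0 := by omega
            rcases hall k with rfl | rfl | rfl
            · omega
            · exact ⟨2, rfl⟩
            · exact ⟨3, rfl⟩
      refine .iso ⟨Equiv.ofBijective g hg, ?_⟩
      intro i j
      simp only [Equiv.ofBijective_apply, SimpleGraph.comap_adj, Function.Embedding.subtype_apply,
        diamond_adj]
      have a6' : ¬ E.Adj (F k2 0) (F k1 0) := fun h => a6 h.symm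
      fin_cases i <;> fin_cases j <;> simp [g, a1, a2, a3, a4, a5, a6, a6', a1.symm, a2.symm,
        a3.symm, a4.symm, a5.symm]
    · have hk : ∃ k, 1 ≤ len k ∧ (len k = 1 → ∀ k', len k' ≠ 0) := by
        by_cases hz : ∃ k, len k = 0
        · have : ¬ ∀ k, len k ≤ 1 := fun h' => hb ⟨hz, h'⟩
          push Not at this
          obtain ⟨k, hk⟩ := this
          exact ⟨k, by omega, fun h' => by omega⟩
        · push Not at hz
          exact ⟨0, Nat.one_le_iff_ne_zero.2 (hz 0), fun _ => hz⟩
      obtain ⟨k, hk1, hk2⟩ := hk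
      classical
      obtain ⟨a, ha⟩ : ∃ a, a = if len k = 1 then p else F k (len k - 2) := ⟨_, rfl⟩
      have hwk : len k - 1 < len k := by omega
      have ha1 : len k = 1 → a = p := fun h => by rw [ha, if_pos h]
      have ha2 : len k ≠ 1 → a = F k (len k - 2) := fun h => by rw [ha, if_neg h]
      have haS : a ∈ thS p q F len := by
        by_cases hl : len k = 1
        · rw [ha1 hl]; exact Or.inl rfl
        · rw [ha2 hl]; exact Or.inr (Or.inr ⟨k, _, by omega, rfl⟩)
      have haq : a ≠ q := by
        by_cases hl : len k = 1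
        · rw [ha1 hl]; exact h.pq
        · rw [ha2 hl]; exact h.Fq _ _ (by omega)
      have hwa : E.Adj (F k (len k - 1)) a := by
        by_cases hl : len k = 1
        · rw [ha1 hl]; exact ((h.adjp k (len k - 1) hwk).2 (by omega)).symm
        · rw [ha2 hl]; exact (h.adj _ _ _ _ hwk (by omega)).2 ⟨rfl, by omega⟩
      have hwq : E.Adj (F k (len k - 1)) q := ((h.adjq k (len k - 1) hwk).2 (by omega)).symm
      have hnaq : ¬ E.Adj a q := by
        by_cases hl : len k = 1
        · rw [ha1 hl, h.adjpq]
          rintro ⟨k', hk'⟩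
          exact hk2 hl k' hk'
        · rw [ha2 hl, E.adj_comm, h.adjq _ _ (by omega)]
          omega
      have hw2 : ∀ x ∈ thS p q F len, E.Adj (F k (len k - 1)) x → x = a ∨ x = q := by
        rintro x (rfl | rfl | ⟨k', i', hi', rfl⟩) hx
        · left
          rw [E.adj_comm, h.adjp _ _ hwk] at hx
          rw [ha1 (by omega)]
        · right; rfl
        · left
          rw [h.adj _ _ _ _ hwk hi'] at hx
          obtain ⟨rfl, hx⟩ := hx
          have hl : len k ≠ 1 := by omega
          rw [ha2 hl]
          congr 1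
          omega
      have hset : thS p q F len \ {F k (len k - 1)} =
          thS p q F (Function.update len k (len k - 1)) := by
        ext x
        simp only [thS, Set.mem_sdiff, Set.mem_ofPred_eq, Set.mem_singleton_iff]
        constructor
        · rintro ⟨rfl | rfl | ⟨k', i', hi', rfl⟩, hx⟩
          · exact Or.inl rfl
          · exact Or.inr (Or.inl rfl)
          · refine Or.inr (Or.inr ⟨k', i', ?_, rfl⟩)
            by_cases hkk : k' = k
            · subst hkk
              rw [Function.update_self]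
              have : i' ≠ len k' - 1 := by rintro rfl; exact hx rfl
              omega
            · rw [Function.update_of_ne hkk]; exact hi'
        · rintro (rfl | rfl | ⟨k', i', hi', rfl⟩)
          · exact ⟨Or.inl rfl, (h.Fp _ _ hwk).symm⟩
          · exact ⟨Or.inr (Or.inl rfl), (h.Fq _ _ hwk).symm⟩
          · by_cases hkk : k' = k
            · subst hkk
              rw [Function.update_self] at hi'
              exact ⟨Or.inr (Or.inr ⟨k', i', by omega, rfl⟩), fun hh =>
                by have := (h.inj _ _ _ _ (by omega) hwk hh).2; omega⟩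
            · rw [Function.update_of_ne hkk] at hi'
              exact ⟨Or.inr (Or.inr ⟨k', i', hi', rfl⟩), fun hh =>
                hkk (h.inj _ _ _ _ hi' hwk hh).1⟩
      refine smooth (w := F k (len k - 1)) (a := a) (b := q)
        (Or.inr (Or.inr ⟨k, _, hwk, rfl⟩)) haS (Or.inr (Or.inl rfl)) haq hwa hwq hw2 hnaq ?_
      rw [hset]
      have hlt : ∀ k' i', i' < Function.update len k (len k - 1) k' → i' < len k' := by
        intro k' i' hi'
        by_cases hkk : k' = k
        · subst hkk; rw [Function.update_self] at hi'; omega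
        · rwa [Function.update_of_ne hkk] at hi'
      apply ih
      · have h1 := Finset.sum_update_of_mem (Finset.mem_univ k) len (len k - 1)
        have h2 := Finset.add_sum_erase Finset.univ len (Finset.mem_univ k)
        rw [← Finset.erase_eq] at h1
        omega
      · refine ⟨h.pq, fun k' i' hi' => h.Fp _ _ (hlt _ _ hi'), fun k' i' hi' => h.Fq _ _ (hlt _ _ hi'),
          fun k1 i1 k2 i2 h1 h2 => h.inj _ _ _ _ (hlt _ _ h1) (hlt _ _ h2),
          fun k1 i1 k2 i2 h1 h2 => ?_, fun k' i' hi' => ?_, fun k' i' hi' => ?_, ?_, ?_⟩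
        · rw [addE_ne (h.Fq _ _ (hlt _ _ h1)) (h.Fq _ _ (hlt _ _ h2))]
          exact h.adj _ _ _ _ (hlt _ _ h1) (hlt _ _ h2)
        · rw [addE_ne h.pq (h.Fq _ _ (hlt _ _ hi'))]
          exact h.adjp _ _ (hlt _ _ hi')
        · rw [addE_adj, h.adjq _ _ (hlt _ _ hi')]
          by_cases hkk : k' = k
          · subst hkk
            rw [Function.update_self] at hi' ⊢
            have hl : len k' ≠ 1 := by omega
            have e1 : (F k' i' = a) ↔ i' = len k' - 2 := by
              rw [ha2 hl]
              constructor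
              · intro hh; exact (h.inj _ _ _ _ (by omega) (by omega) hh).2
              · rintro rfl; rfl
            have e2 : F k' i' ≠ q := h.Fq _ _ (by omega)
            simp only [e1, e2, and_false, false_or, true_and, haq, ne_eq, not_false_eq_true]
            omega
          · rw [Function.update_of_ne hkk]
            have e1 : F k' i' ≠ a := by
              by_cases hl : len k = 1
              · rw [ha1 hl]; exact h.Fp _ _ (hlt _ _ hi')
              · rw [ha2 hl]
                intro hh
                exact hkk (h.inj _ _ _ _ (hlt _ _ hi') (by omega) hh).1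
            have e2 : F k' i' ≠ q := h.Fq _ _ (hlt _ _ hi')
            simp only [e1, e2, and_false, or_false]
        · rw [addE_adj, h.adjpq]
          constructor
          · rintro (⟨k', hk'⟩ | ⟨_, ⟨h1, _⟩ | ⟨h1, _⟩⟩)
            · refine ⟨k', ?_⟩
              have : k' ≠ k := by rintro rfl; omega
              rw [Function.update_of_ne this]; exact hk'
            · refine ⟨k, ?_⟩
              rw [Function.update_self]
              by_cases hl : len k = 1
              · omega
              · rw [ha2 hl] at h1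
                exact absurd h1.symm (h.Fp _ _ (by omega))
            · exact absurd h1 h.pq
          · rintro ⟨k', hk'⟩
            by_cases hkk : k' = k
            · subst hkk
              rw [Function.update_self] at hk'
              exact Or.inr ⟨haq, Or.inl ⟨(ha1 (by omega)).symm, rfl⟩⟩
            · rw [Function.update_of_ne hkk] at hk'
              exact Or.inl ⟨k', hk'⟩
        · intro k1 k2 h1 h2
          by_cases hk1' : k1 = k
          · by_cases hk2' : k2 = k
            · rw [hk1', hk2']
            · subst hk1'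
              rw [Function.update_self] at h1
              rw [Function.update_of_ne hk2'] at h2
              exact absurd h2 (hk2 (by omega) k2)
          · by_cases hk2' : k2 = k
            · subst hk2'
              rw [Function.update_self] at h2
              rw [Function.update_of_ne hk1'] at h1
              exact absurd h1 (hk2 (by omega) k1)
            · rw [Function.update_of_ne hk1'] at h1
              rw [Function.update_of_ne hk2'] at h2
              exact h.one _ _ h1 h2

theorem Th.itm {E : SimpleGraph V} {p q : V} {F : Fin 3 → ℕ → V} {len : Fin 3 → ℕ}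
    (h : Th E p q F len) : IsITM diamond E := ⟨_, Th.sub _ E len rfl h⟩

/-! ### cycles with a pendant vertex -/

/-- an induced cycle `v q₀ … q_m` and a vertex `y` whose only neighbour on it is `v` -/
structure Pw (E : SimpleGraph V) (v y : V) (q : ℕ → V) (m : ℕ) : Prop where
  qv : ∀ i ≤ m, q i ≠ v
  qy : ∀ i ≤ m, q i ≠ y
  inj : ∀ i j, i ≤ m → j ≤ m → q i = q j → i = j
  adj : ∀ i j, i ≤ m → j ≤ m → (E.Adj (q i) (q j) ↔ i + 1 = j ∨ j + 1 = i)
  adjv : ∀ i ≤ m, (E.Adj v (q i) ↔ i = 0 ∨ i = m)
  adjy : ∀ i ≤ m, ¬ E.Adj y (q i)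
  advy : E.Adj v y

lemma paw_adj (i j : Fin 4) : paw.Adj i j ↔ i ≠ j ∧ (i = 0 ∨ j = 0 ∨ (i = 1 ∧ j = 2) ∨
    (i = 2 ∧ j = 1)) := by
  simp only [paw, SimpleGraph.fromRel_adj]
  tauto

theorem Pw.sub {v y : V} {q : ℕ → V} : ∀ (m : ℕ) (E : SimpleGraph V), 1 ≤ m → Pw E v y q m →
    IsSubdivision paw (E.induce {x | x = v ∨ x = y ∨ ∃ i ≤ m, x = q i}) := by
  intro m
  induction m with
  | zero => intro E h; omega
  | succ m ih =>
    intro E _ h
    by_cases hm : m = 0
    · subst hm
      have e1 : v ≠ y := h.advy.ne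
      have e2 := h.qv 0 (by omega)
      have e3 := h.qv 1 (by omega)
      have e4 := h.qy 0 (by omega)
      have e5 := h.qy 1 (by omega)
      have e6 : q 0 ≠ q 1 := fun h' => by have := h.inj 0 1 (by omega) (by omega) h'; omega
      have a1 := h.advy
      have a2 : E.Adj v (q 0) := (h.adjv 0 (by omega)).2 (by omega)
      have a3 : E.Adj v (q 1) := (h.adjv 1 (by omega)).2 (by omega)
      have a4 : E.Adj (q 0) (q 1) := (h.adj 0 1 (by omega) (by omega)).2 (by omega)
      have a5 : ¬ E.Adj y (q 0) := h.adjy 0 (by omega)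
      have a6 : ¬ E.Adj y (q 1) := h.adjy 1 (by omega)
      have a5' : ¬ E.Adj (q 0) y := fun h' => a5 h'.symm
      have a6' : ¬ E.Adj (q 1) y := fun h' => a6 h'.symm
      let g : Fin 4 → {x | x = v ∨ x = y ∨ ∃ i ≤ 0 + 1, x = q i} := ![⟨v, Or.inl rfl⟩,
        ⟨q 0, Or.inr (Or.inr ⟨0, by omega, rfl⟩)⟩, ⟨q 1, Or.inr (Or.inr ⟨1, by omega, rfl⟩)⟩,
        ⟨y, Or.inr (Or.inl rfl)⟩]
      have hg : Function.Bijective g := by
        constructor
        · intro i j hij
          have hij := congrArg Subtype.val hij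
          fin_cases i <;> fin_cases j <;> first | rfl | (simp [g] at hij; first | exact absurd hij e1 | exact absurd hij.symm e1 | exact absurd hij e2 | exact absurd hij.symm e2 | exact absurd hij e3 | exact absurd hij.symm e3 | exact absurd hij e4 | exact absurd hij.symm e4 | exact absurd hij e5 | exact absurd hij.symm e5 | exact absurd hij e6 | exact absurd hij.symm e6)
        · rintro ⟨x, hx⟩
          rcases hx with rfl | rfl | ⟨i, hi, rfl⟩
          · exact ⟨0, rfl⟩
          · exact ⟨3, rfl⟩
          · have : i = 0 ∨ i = 1 := by omega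
            rcases this with rfl | rfl
            · exact ⟨1, rfl⟩
            · exact ⟨2, rfl⟩
      refine .iso ⟨Equiv.ofBijective g hg, ?_⟩
      intro i j
      simp only [Equiv.ofBijective_apply, SimpleGraph.comap_adj, Function.Embedding.subtype_apply,
        paw_adj]
      fin_cases i <;> fin_cases j <;> simp [g, a1, a2, a3, a4, a5, a6, a5', a6', a1.symm, a2.symm,
        a3.symm, a4.symm]
    · have hq : q (m + 1) ∈ {x | x = v ∨ x = y ∨ ∃ i ≤ m + 1, x = q i} :=
        Or.inr (Or.inr ⟨m + 1, le_rfl, rfl⟩)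
      have hset : {x | x = v ∨ x = y ∨ ∃ i ≤ m + 1, x = q i} \ {q (m + 1)} =
          {x | x = v ∨ x = y ∨ ∃ i ≤ m, x = q i} := by
        ext x
        simp only [Set.mem_sdiff, Set.mem_ofPred_eq, Set.mem_singleton_iff]
        constructor
        · rintro ⟨rfl | rfl | ⟨i, hi, rfl⟩, hx⟩
          · exact Or.inl rfl
          · exact Or.inr (Or.inl rfl)
          · refine Or.inr (Or.inr ⟨i, ?_, rfl⟩)
            have : i ≠ m + 1 := by rintro rfl; exact hx rfl
            omega
        · rintro (rfl | rfl | ⟨i, hi, rfl⟩)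
          · exact ⟨Or.inl rfl, (h.qv _ le_rfl).symm⟩
          · exact ⟨Or.inr (Or.inl rfl), (h.qy _ le_rfl).symm⟩
          · exact ⟨Or.inr (Or.inr ⟨i, by omega, rfl⟩), fun hh => by
              have := h.inj _ _ (by omega) le_rfl hh; omega⟩
      refine smooth (w := q (m + 1)) (a := q m) (b := v) hq
        (Or.inr (Or.inr ⟨m, by omega, rfl⟩)) (Or.inl rfl) (h.qv _ (by omega))
        ((h.adj _ _ le_rfl (by omega)).2 (by omega)) ((h.adjv _ le_rfl).2 (by omega)).symm ?_ ?_ ?_
      · rintro x (rfl | rfl | ⟨i, hi, rfl⟩) hx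
        · right; rfl
        · exact absurd hx.symm (h.adjy _ le_rfl)
        · left
          rw [h.adj _ _ le_rfl hi] at hx
          congr 1
          omega
      · rw [E.adj_comm, h.adjv _ (by omega)]
        omega
      · rw [hset]
        apply ih _ (by omega)
        refine ⟨fun i hi => h.qv i (by omega), fun i hi => h.qy i (by omega),
          fun i j hi hj => h.inj i j (by omega) (by omega), fun i j hi hj => ?_, fun i hi => ?_,
          fun i hi => ?_, Or.inl h.advy⟩
        · rw [addE_ne (h.qv i (by omega)) (h.qv j (by omega))]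
          exact h.adj i j (by omega) (by omega)
        · rw [addE_adj, h.adjv i (by omega)]
          have e1 : q i = q m ↔ i = m := ⟨fun h' => h.inj _ _ (by omega) (by omega) h', fun h' => by
            rw [h']⟩
          have e2 : v ≠ q m := (h.qv m (by omega)).symm
          simp only [e1, e2, false_and, false_or, true_and, e2.symm, ne_eq, not_false_eq_true]
          omega
        · rw [addE_ne h.advy.ne.symm (h.qv i (by omega))]
          exact h.adjy i (by omega)

theorem Pw.itm {E : SimpleGraph V} {v y : V} {q : ℕ → V} {m : ℕ} (hm : 1 ≤ m)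
    (h : Pw E v y q m) : IsITM paw E := ⟨_, Pw.sub m E hm h⟩

end

end Pool.Agent.Q276.ITM
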